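import Pool.Agent.LibLaw15.Defs
import Pool.Agent.LibZM.HB11
import Pool.Agent.LibM3.A1

/-! First and third moments of zeta with prime phases: definitions for the first moment. -/

set_option autoImplicit false

namespace Pool.Agent.LibOM70

open MeasureTheory Set Filter Topology Complex ProbabilityTheory
open scoped NNReal ComplexConjugate
open Pool.Agent.LibZM Pool.Agent.LibM3
open Pool.Agent.LibLaw15 hiding Lam

/-! ### Mean square of the polynomial with phases -/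

/-- Diagonal sum with a twist: `∑_{j ≤ J, (j,q)=1} τ(mj) τ(nj) (mj)^{-x} (nj)^{-x}`, `τ = τ_{1/2}`. -/
noncomputable def DJ (q m n J : ℕ) (x : ℝ) : ℝ :=
  ∑ j ∈ cs q J, tau (1/2) (m * j) * tau (1/2) (n * j) * (((m:ℝ) * j) ^ (-x) * ((n:ℝ) * j) ^ (-x))

/-- Local factor `∑_e d(e+α) d(e+β) r^{2e+α+β}`, `d = dcoef (1/2)`. -/
noncomputable def cc (r : ℝ) (α β : ℕ) : ℝ :=
  ∑' e : ℕ, dcoef (1/2) (e + α) * dcoef (1/2) (e + β) * r ^ (2 * e + α + β)

/-- Unnormalised tilted mean for the first moment. -/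
noncomputable def MT1 {r : ℕ} (p : Fin r → ℕ) (w : Tor r → ℝ) : ℝ := ∫ x, w x * ET p x ∂(muT r)

/-- Tilted mean for the first moment. -/
noncomputable def TM1 {r : ℕ} (p : Fin r → ℕ) (w : Tor r → ℝ) : ℝ := MT1 p w / MT1 p 1

/-! ### Approximate functional equation with a long smooth cutoff -/

/-- The sharp partial sum of zeta up to `e^y`. -/
noncomputable def Fe (y t : ℝ) : ℂ := ∑ n ∈ Finset.Icc 1 ⌊Real.exp y⌋₊, (n:ℂ) ^ (-crit t)

/-- The sum with the complex Gaussian cutoff at `e^l`. -/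
noncomputable def DS (l t : ℝ) : ℂ := ∑' n : ℕ, Ph (Real.pi / 4) (l - Real.log n) * (n:ℂ) ^ (-crit t)

/-- The even kernel `(1/2) ∫_{-1}^1 e^{κ v z} dv = sinh (κ z)/(κ z)`. -/
noncomputable def Sh (κ : ℝ) (z : ℂ) : ℂ := (1/2 : ℂ) * ∫ v in (-1:ℝ)..1, cexp (((κ * v : ℝ) : ℂ) * z)

/-- The total variation of `∫ Fe` over the interval of centre `c` and radius `ρ`. -/
noncomputable def Ed (c ρ t : ℝ) : ℝ := ∫ y in (c - ρ)..(c + ρ), ‖Fe y t‖

/-- The difference between the Gaussian cutoff and the sharp cutoff. -/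
noncomputable def ErrU (κ l C0 t : ℝ) : ℝ :=
  (1 / κ) * ∫ x : ℝ, ‖a1_g (Real.pi / 4) x‖ * (Ed (l + κ) (|x| + C0) t + Ed (l - κ) (|x| + C0) t)

/-- The polynomial with coefficients `τ_{1/2}` up to `e^z`. -/
noncomputable def Ye (z t : ℝ) : ℂ := PP ⌊Real.exp z⌋₊ (crit t)

/-- Convolution of the polynomials. -/
noncomputable def HH (B t : ℝ) : ℂ := ∫ z in (0:ℝ)..B, Ye z t * Ye (B - z) t

/-- Weighted Gaussian mean square of the polynomial. -/
noncomputable def mmw {r : ℕ} (p : Fin r → ℕ) (w : Tor r → ℝ) (P : ℝ × ℝ) (z : ℝ) : ℝ :=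
  ∫ t, ‖Ye z t‖ ^ 2 * w (xt p t) ∂(gaussianReal P.2 (vw P.1))

/-- The beta integral `∫_0^1 (z(1-z))^{1/8} dz`. -/
noncomputable def JB : ℝ := ∫ z in (0:ℝ)..1, (z * (1 - z)) ^ (1/8 : ℝ)

/-- The constant of the upper bound for the first moment. -/
noncomputable def CU1 : ℝ := 2 * JB / Real.Gamma (5/4)

/-! ### Lower bound: analytic weights -/

/-- `log ∏ p_i^{b_i}`. -/
noncomputable def lamP {r : ℕ} (p : Fin r → ℕ) (b : Fin r → ℕ) : ℝ := ∑ i, (b i : ℝ) * Real.log (p i)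

/-- The Dirichlet polynomial over products of the primes `p_i`, normalised on the critical line. -/
noncomputable def Pz {r : ℕ} (p : Fin r → ℕ) (S : Finset (Fin r → ℕ)) (c : (Fin r → ℕ) → ℂ) (s : ℂ) : ℂ :=
  ∑ b ∈ S, c b * cexp (-((lamP p b : ℝ) : ℂ) * (s - 1/2))

/-- The square of the modulus of the polynomial, as a function on the torus. -/
noncomputable def wP {r : ℕ} (S : Finset (Fin r → ℕ)) (c : (Fin r → ℕ) → ℂ) (x : Tor r) : ℝ :=
  ‖∑ b ∈ S, c b * UnitAddTorus.mFourier (fun i => -(b i : ℤ)) x‖ ^ 2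

/-- Normalised Gaussian mean of `(s-1) P(s)^2 · Pz(s)^2`. -/
noncomputable def nqP {r : ℕ} (p : Fin r → ℕ) (S : Finset (Fin r → ℕ)) (c : (Fin r → ℕ) → ℂ) (θ σ : ℝ) (P : ℝ × ℝ) : ℝ :=
  En (fun s => Q2 (NT θ P.1) s * Pz p S c s ^ 2) P.2 (vT θ P.1) (lineT σ P.1) / (P.2 * Lam P.1)

/-- Normalised Gaussian mean of `(s-1)(ζ(s) - P(s)^2) · Pz(s)^2`. -/
noncomputable def ngP {r : ℕ} (p : Fin r → ℕ) (S : Finset (Fin r → ℕ)) (c : (Fin r → ℕ) → ℂ) (θ σ : ℝ) (P : ℝ × ℝ) : ℝ :=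
  En (fun s => Gf (NT θ P.1) s * Pz p S c s ^ 2) P.2 (vT θ P.1) (lineT σ P.1) / (P.2 * Lam P.1)

/-- Normalised Gaussian mean of `(s-1) ζ(s) · Pz(s)^2`. -/
noncomputable def nmP {r : ℕ} (p : Fin r → ℕ) (S : Finset (Fin r → ℕ)) (c : (Fin r → ℕ) → ℂ) (θ σ : ℝ) (P : ℝ × ℝ) : ℝ :=
  En (fun s => riemannZeta₁ s * Pz p S c s ^ 2) P.2 (vT θ P.1) (lineT σ P.1) / (P.2 * Lam P.1)

/-- Bound for the limit of `ng` at `c`. -/
noncomputable def gg (c : ℝ) : ℝ :=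
  Real.exp (-(c + 2)) * (Real.exp 2 * pp 2 + pp (-2)) / (1 - Real.exp (-2))

/-- The constant of the lower bound for the first moment. -/
noncomputable def cL1 : ℝ := (pp 5 - gg 5) ^ (8/3 : ℝ) / (pp 8 + gg 8) ^ (5/3 : ℝ)

end Pool.Agent.LibOM70
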