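import Pool.Agent.LibOM70.Defs
import Pool.Agent.LibLaw15.T9

/-! ODD MOMENTS, row H1. -/

set_option autoImplicit false

namespace Pool.Agent.LibOM70

open MeasureTheory Set Filter Topology Complex ProbabilityTheory
open scoped NNReal ComplexConjugate
open Pool.Agent.LibZM Pool.Agent.LibM3
open Pool.Agent.LibLaw15 hiding Lam

theorem h1_lam_nonneg {r : ℕ} {p : Fin r → ℕ} (hp : ∀ i, (p i).Prime) (b : Fin r → ℕ) : 0 ≤ lamP p b := by
  unfold lamP
  refine Finset.sum_nonneg fun i _ => mul_nonneg (Nat.cast_nonneg _) (Real.log_nonneg ?_)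
  exact_mod_cast (hp i).one_lt.le

/-- ROW H1a. `Pz` is entire. -/
theorem Pz_diff {r : ℕ} {p : Fin r → ℕ} (hp : ∀ i, (p i).Prime) (S : Finset (Fin r → ℕ)) (c : (Fin r → ℕ) → ℂ) : Differentiable ℂ (Pz p S c) := by
  unfold Pz
  fun_prop

theorem h1_exp (y : ℝ) : |Real.exp y - 1| ≤ |y| * Real.exp |y| := by
  have h1 := Real.add_one_le_exp y
  have h2 := Real.add_one_le_exp (-y)
  have h3 : Real.exp (-y) * Real.exp y = 1 := by rw [← Real.exp_add, neg_add_cancel, Real.exp_zero]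
  have h4 := Real.exp_pos y
  rcases le_total 0 y with h | h
  · rw [abs_of_nonneg h, abs_of_nonneg (by linarith)]
    nlinarith
  · have h5 : Real.exp y ≤ 1 := Real.exp_le_one_iff.2 h
    have h6 : 1 ≤ Real.exp (-y) := Real.one_le_exp (by linarith)
    rw [abs_of_nonpos h, abs_of_nonpos (by linarith)]
    nlinarith

theorem h1_norm {r : ℕ} (p : Fin r → ℕ) (b : Fin r → ℕ) (s : ℂ) :
    ‖cexp (-((lamP p b : ℝ) : ℂ) * (s - 1/2))‖ = Real.exp (-lamP p b * (s.re - 1/2)) := by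
  rw [Complex.norm_exp]
  congr 1
  simp [Complex.mul_re]

/-- ROW H1b. `Pz` is bounded to the right of `1/4`: `‖e^{-λ(s-1/2)}‖ = e^{-λ(Re s - 1/2)} ≤ e^{λ/4}`, `λ = lamP p b ≥ 0`. -/
theorem Pz_le {r : ℕ} {p : Fin r → ℕ} (hp : ∀ i, (p i).Prime) (S : Finset (Fin r → ℕ)) (c : (Fin r → ℕ) → ℂ) : ∃ K : ℝ, 0 < K ∧ ∀ s : ℂ, 1/4 ≤ s.re → ‖Pz p S c s‖ ≤ K := by
  refine ⟨∑ b ∈ S, ‖c b‖ * Real.exp (lamP p b / 4) + 1, ?_, ?_⟩
  · have : 0 ≤ ∑ b ∈ S, ‖c b‖ * Real.exp (lamP p b / 4) := Finset.sum_nonneg fun b _ => by positivity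
    linarith
  · intro s hs
    refine le_trans ?_ (le_add_of_nonneg_right zero_le_one)
    unfold Pz
    refine (norm_sum_le _ _).trans (Finset.sum_le_sum fun b _ => ?_)
    rw [norm_mul, h1_norm]
    have hl := h1_lam_nonneg hp b
    have : Real.exp (-lamP p b * (s.re - 1/2)) ≤ Real.exp (lamP p b / 4) := by
      apply Real.exp_le_exp.2
      nlinarith
    gcongr

/-- ROW H1d. On the critical line it is the function on the torus: `mFourier (-b) (xt p t) = ∏ e^{-i t b_i log p_i}` (`UnitAddTorus.mFourier`, `fourier_coe_apply`;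
compare `mF_xt`, `t9_log` in LibLaw15/T9). -/
theorem Pz_crit {r : ℕ} {p : Fin r → ℕ} (hp : ∀ i, (p i).Prime) (S : Finset (Fin r → ℕ)) (c : (Fin r → ℕ) → ℂ) (t : ℝ) : ‖Pz p S c (((1/2:ℝ):ℂ) + t * I)‖ ^ 2 = wP S c (xt p t) := by
  unfold Pz wP
  congr 2
  refine Finset.sum_congr rfl fun b _ => ?_
  congr 1
  rw [mF_xt hp]
  have hm : mP p (fun i => -(b i : ℤ)) = 1 := by
    unfold mP
    refine Finset.prod_eq_one fun i _ => ?_
    have : (-(b i : ℤ)).toNat = 0 := by omega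
    rw [this, pow_zero]
  have hn : nP p (fun i => -(b i : ℤ)) = ∏ i, p i ^ b i := by
    unfold nP
    refine Finset.prod_congr rfl fun i _ => ?_
    have : (-(-(b i : ℤ))).toNat = b i := by omega
    rw [this]
  unfold chr
  rw [hm, hn, t9_log hp]
  congr 1
  unfold lamP
  push_cast
  simp only [Complex.ofReal_one, Real.log_one, Complex.ofReal_zero]
  push_cast
  ring

/-- ROW H1c. The square of the modulus on the line `x` is close to the one on the critical line (the exponentials differ by the factor `e^{-λ(x-1/2)}`). -/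
theorem Pz_near {r : ℕ} {p : Fin r → ℕ} (hp : ∀ i, (p i).Prime) (S : Finset (Fin r → ℕ)) (c : (Fin r → ℕ) → ℂ) : ∃ K : ℝ, 0 < K ∧ ∀ x ∈ Icc (1/4:ℝ) (7/4), ∀ t : ℝ,
    |‖Pz p S c ((x:ℂ) + t * I)‖ ^ 2 - wP S c (xt p t)| ≤ K * |x - 1/2| := by
  obtain ⟨K, hK, hKb⟩ := Pz_le hp S c
  set D : ℝ := ∑ b ∈ S, ‖c b‖ * (lamP p b * Real.exp (2 * lamP p b)) with hD
  have hD0 : 0 ≤ D := Finset.sum_nonneg fun b _ => by
    have := h1_lam_nonneg hp b
    positivity
  refine ⟨2 * K * D + 1, by positivity, fun x hx t => ?_⟩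
  rw [← Pz_crit hp S c t]
  have hA : ‖Pz p S c ((x:ℂ) + t * I)‖ ≤ K := hKb _ (by simpa using hx.1)
  have hB : ‖Pz p S c (((1/2:ℝ):ℂ) + t * I)‖ ≤ K := hKb _ (by simp; norm_num)
  have hAB : ‖Pz p S c ((x:ℂ) + t * I) - Pz p S c (((1/2:ℝ):ℂ) + t * I)‖ ≤ D * |x - 1/2| := by
    unfold Pz
    rw [← Finset.sum_sub_distrib, hD, Finset.sum_mul]
    refine (norm_sum_le _ _).trans (Finset.sum_le_sum fun b _ => ?_)
    have hl := h1_lam_nonneg hp b
    rw [← mul_sub, norm_mul, mul_assoc]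
    refine mul_le_mul_of_nonneg_left ?_ (norm_nonneg _)
    have e : cexp (-((lamP p b : ℝ) : ℂ) * ((x:ℂ) + t * I - 1/2)) =
        cexp (-((lamP p b : ℝ) : ℂ) * (((1/2:ℝ):ℂ) + t * I - 1/2)) * cexp (((-lamP p b * (x - 1/2) : ℝ)) : ℂ) := by
      rw [← Complex.exp_add]
      congr 1
      push_cast
      ring
    have e1 : ‖cexp (-((lamP p b : ℝ) : ℂ) * (((1/2:ℝ):ℂ) + t * I - 1/2))‖ = 1 := by
      rw [h1_norm]
      simp
    rw [e, ← mul_sub_one, norm_mul, e1, one_mul]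
    rw [← Complex.ofReal_exp, ← Complex.ofReal_one, ← Complex.ofReal_sub, Complex.norm_real, Real.norm_eq_abs]
    have h1 := h1_exp (-lamP p b * (x - 1/2))
    refine h1.trans ?_
    have h2 : |-lamP p b * (x - 1/2)| = lamP p b * |x - 1/2| := by
      rw [abs_mul, abs_neg, abs_of_nonneg hl]
    rw [h2]
    have h3 : |x - 1/2| ≤ 2 := by
      rw [abs_le]
      constructor <;> linarith [hx.1, hx.2]
    have h4 : Real.exp (lamP p b * |x - 1/2|) ≤ Real.exp (2 * lamP p b) := by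
      apply Real.exp_le_exp.2
      nlinarith
    calc lamP p b * |x - 1/2| * Real.exp (lamP p b * |x - 1/2|) ≤ lamP p b * |x - 1/2| * Real.exp (2 * lamP p b) := by
          gcongr
      _ = _ := by ring
  set a := ‖Pz p S c ((x:ℂ) + t * I)‖
  set b := ‖Pz p S c (((1/2:ℝ):ℂ) + t * I)‖
  have hab : |a - b| ≤ D * |x - 1/2| := (abs_norm_sub_norm_le _ _).trans hAB
  have ha0 : 0 ≤ a := norm_nonneg _
  have hb0 : 0 ≤ b := norm_nonneg _
  have e : a ^ 2 - b ^ 2 = (a - b) * (a + b) := by ring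
  rw [e, abs_mul, abs_of_nonneg (by positivity : 0 ≤ a + b)]
  have hx0 := abs_nonneg (x - 1/2)
  calc |a - b| * (a + b) ≤ (D * |x - 1/2|) * (K + K) := by gcongr
    _ ≤ _ := by nlinarith

/-- ROW H1e. Continuity and boundedness of the weight. -/
theorem wP_props {r : ℕ} (S : Finset (Fin r → ℕ)) (c : (Fin r → ℕ) → ℂ) : Continuous (wP (r := r) S c) ∧ (∀ x : Tor r, 0 ≤ wP S c x) ∧
    ∃ K : ℝ, 0 < K ∧ ∀ x : Tor r, wP S c x ≤ K := by
  have hc : Continuous (wP (r := r) S c) := by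
    unfold wP
    fun_prop
  refine ⟨hc, fun x => by unfold wP; positivity, ?_⟩
  obtain ⟨K, hK⟩ := (isCompact_range hc).bddAbove
  refine ⟨max K 1, by positivity, fun x => (hK ⟨x, rfl⟩).trans (le_max_left _ _)⟩

end Pool.Agent.LibOM70
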