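import Pool.Agent.LibOM70.S7
import Pool.Agent.LibOM70.H1

/-! ODD MOMENTS, row H2. -/

set_option autoImplicit false

namespace Pool.Agent.LibOM70

open MeasureTheory Set Filter Topology Complex ProbabilityTheory
open scoped NNReal ComplexConjugate
open Pool.Agent.LibZM Pool.Agent.LibM3
open Pool.Agent.LibLaw15 hiding Lam

private theorem h2_int {N : ℕ} {x : ℝ} (hx : 0 ≤ x) {g : ℝ → ℝ} (hg : Continuous g) {K : ℝ}
    (hg0 : ∀ t, 0 ≤ g t) (hgK : ∀ t, g t ≤ K) (u : ℝ) (v : ℝ≥0) :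
    Integrable (fun t : ℝ => ‖PP N ((x:ℂ) + t * I)‖ ^ 2 * g t) (gaussianReal u v) := by
  refine Integrable.mono' (g := fun _ => (N:ℝ) ^ 2 * K) (integrable_const _) ?_
    (Eventually.of_forall fun t => ?_)
  · have := (differentiable_PP N).continuous
    have h : Continuous (fun t : ℝ => ‖PP N ((x:ℂ) + t * I)‖ ^ 2 * g t) := by fun_prop
    exact h.aestronglyMeasurable
  · have h1 := norm_PP_line_le (N := N) hx t
    have h2 := hg0 t
    have h3 := hgK t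
    rw [Real.norm_eq_abs, abs_of_nonneg (by positivity)]
    have h4 : ‖PP N ((x:ℂ) + t * I)‖ ^ 2 ≤ (N:ℝ) ^ 2 := by gcongr
    exact mul_le_mul h4 h3 h2 (by positivity)

private theorem h2_bounds {u : ℝ} (hu : 0 ≤ u) {v : ℝ≥0} (hv0 : 0 < v) {R : ℝ} (hR : 0 ≤ R)
    (N : ℕ) {x : ℝ} (h0 : 1/4 ≤ x) (h1 : x ≤ 7/4) {F : ℂ → ℂ} (hF : Continuous F) {K : ℝ}
    (hK0 : 0 ≤ K) (hK : ∀ t : ℝ, ‖F ((x:ℂ) + t * I)‖ ≤ K) :
    En (fun s => Q2 N s * F s ^ 2) u v x ≤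
      (1 + u + R) * (∫ t, ‖PP N ((x:ℂ) + t * I)‖ ^ 2 * ‖F ((x:ℂ) + t * I)‖ ^ 2
        ∂(gaussianReal u v)) + K ^ 2 * ((N:ℝ) ^ 2 * (16 * √v * Real.exp (-R / √v))) ∧
    (u - R) * (∫ t, ‖PP N ((x:ℂ) + t * I)‖ ^ 2 * ‖F ((x:ℂ) + t * I)‖ ^ 2
        ∂(gaussianReal u v)) - K ^ 2 * ((N:ℝ) ^ 2 * (16 * √v * Real.exp (-R / √v))) ≤
      En (fun s => Q2 N s * F s ^ 2) u v x := by
  have hv' : (0:ℝ) < v := by exact_mod_cast hv0
  have hH0 : 0 < √(v:ℝ) := Real.sqrt_pos.mpr hv'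
  obtain ⟨hi, hb⟩ := tl_integral u hv0 R
  have hFc : Continuous (fun t : ℝ => ‖F ((x:ℂ) + t * I)‖ ^ 2) := by fun_prop
  have hFK : ∀ t : ℝ, ‖F ((x:ℂ) + t * I)‖ ^ 2 ≤ K ^ 2 := fun t => by
    have := hK t
    gcongr
  have hPi := h2_int (N := N) (x := x) (by linarith) hFc (fun t => by positivity) hFK u v
  obtain ⟨m, hm⟩ : ∃ m : ℝ, m = ∫ t : ℝ, ‖PP N ((x:ℂ) + t * I)‖ ^ 2 *
    ‖F ((x:ℂ) + t * I)‖ ^ 2 ∂(gaussianReal u v) := ⟨_, rfl⟩
  rw [← hm]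
  have hQi : Integrable (fun t : ℝ => ‖(fun s => Q2 N s * F s ^ 2) ((x:ℂ) + t * I)‖)
      (gaussianReal u v) := by
    refine integrable_norm_gauss (F := fun s => Q2 N s * F s ^ 2)
      ((differentiable_Q2 N).continuous.mul (hF.pow 2))
      (C := (N:ℝ) ^ 2 * K ^ 2) (fun t => ?_) u v
    show ‖Q2 N ((x:ℂ) + t * I) * F ((x:ℂ) + t * I) ^ 2‖ ≤ _
    unfold Q2
    rw [norm_mul, norm_mul, norm_pow, norm_pow]
    have h2 := norm_PP_line_le (N := N) (x := x) (by linarith) t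
    have h3 := (norm_line_bounds h0 h1 t).2
    have h4 := hFK t
    have h5 : ‖PP N ((x:ℂ) + t * I)‖ ^ 2 ≤ (N:ℝ) ^ 2 := by gcongr
    calc ‖(x:ℂ) + t * I - 1‖ * ‖PP N ((x:ℂ) + t * I)‖ ^ 2 * ‖F ((x:ℂ) + t * I)‖ ^ 2
        ≤ (1 + |t|) * (N:ℝ) ^ 2 * K ^ 2 := by gcongr
      _ = (N:ℝ) ^ 2 * K ^ 2 * (1 + |t|) := by ring
  have hN2 : (0:ℝ) ≤ (N:ℝ) ^ 2 * K ^ 2 := by positivity
  have hpt : ∀ t : ℝ, ‖(fun s => Q2 N s * F s ^ 2) ((x:ℂ) + t * I)‖ ≤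
      (1 + u + R) * (‖PP N ((x:ℂ) + t * I)‖ ^ 2 * ‖F ((x:ℂ) + t * I)‖ ^ 2) +
        (N:ℝ) ^ 2 * K ^ 2 * tl (√v) R (t - u) ∧
      (u - R) * (‖PP N ((x:ℂ) + t * I)‖ ^ 2 * ‖F ((x:ℂ) + t * I)‖ ^ 2) -
        (N:ℝ) ^ 2 * K ^ 2 * tl (√v) R (t - u) ≤
        ‖(fun s => Q2 N s * F s ^ 2) ((x:ℂ) + t * I)‖ := by
    intro t
    have h2 := norm_PP_line_le (N := N) (x := x) (by linarith) t
    obtain ⟨h3, h4⟩ := norm_line_bounds h0 h1 t
    have h5 := abs_le_add_tl hH0 hR (t - u)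
    have h6 := tl_nonneg hH0 R (t - u)
    have h7 : |t| ≤ u + |t - u| := by
      calc |t| = |u + (t - u)| := by congr 1; ring
        _ ≤ |u| + |t - u| := abs_add_le _ _
        _ = _ := by rw [abs_of_nonneg hu]
    have h8 : u - |t - u| ≤ |t| := by
      have : |u| ≤ |t| + |t - u| := by
        calc |u| = |t + -(t - u)| := by congr 1; ring
          _ ≤ |t| + |-(t - u)| := abs_add_le _ _
          _ = _ := by rw [abs_neg]
      rw [abs_of_nonneg hu] at this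
      linarith
    have hFt := hFK t
    obtain ⟨f, hf⟩ : ∃ f : ℝ, f = ‖PP N ((x:ℂ) + t * I)‖ ^ 2 * ‖F ((x:ℂ) + t * I)‖ ^ 2 :=
      ⟨_, rfl⟩
    have h9 : f ≤ (N:ℝ) ^ 2 * K ^ 2 := by
      rw [hf]
      have : ‖PP N ((x:ℂ) + t * I)‖ ^ 2 ≤ (N:ℝ) ^ 2 := by gcongr
      exact mul_le_mul this hFt (by positivity) (by positivity)
    have h11 : 0 ≤ f := by rw [hf]; positivity
    have h10 : tl (√v) R (t - u) * f ≤ tl (√v) R (t - u) * ((N:ℝ) ^ 2 * K ^ 2) := by gcongr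
    have h12 : ‖(fun s => Q2 N s * F s ^ 2) ((x:ℂ) + t * I)‖ = ‖(x:ℂ) + t * I - 1‖ * f := by
      simp only
      unfold Q2
      rw [norm_mul, norm_mul, norm_pow, norm_pow, hf]
      ring
    rw [h12, ← hf]
    constructor
    · calc ‖(x:ℂ) + t * I - 1‖ * f ≤ ((1 + u + R) + tl (√v) R (t - u)) * f := by
            apply mul_le_mul_of_nonneg_right _ h11
            linarith
        _ = (1 + u + R) * f + tl (√v) R (t - u) * f := by ring
        _ ≤ _ := by linarith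
    · calc (u - R) * f - (N:ℝ) ^ 2 * K ^ 2 * tl (√v) R (t - u)
          ≤ (u - R) * f - tl (√v) R (t - u) * f := by linarith
        _ = (u - R - tl (√v) R (t - u)) * f := by ring
        _ ≤ _ := by
            apply mul_le_mul_of_nonneg_right _ h11
            linarith
  have h3 := mul_le_mul_of_nonneg_left hb hN2
  have h3' : (N:ℝ) ^ 2 * K ^ 2 * (16 * √v * Real.exp (-R / √v)) =
      K ^ 2 * ((N:ℝ) ^ 2 * (16 * √v * Real.exp (-R / √v))) := by ring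
  rw [h3'] at h3
  constructor
  · calc En (fun s => Q2 N s * F s ^ 2) u v x ≤
        ∫ t : ℝ, ((1 + u + R) * (‖PP N ((x:ℂ) + t * I)‖ ^ 2 * ‖F ((x:ℂ) + t * I)‖ ^ 2) +
          (N:ℝ) ^ 2 * K ^ 2 * tl (√v) R (t - u)) ∂(gaussianReal u v) :=
          integral_mono hQi ((hPi.const_mul _).add (hi.const_mul _)) fun t => (hpt t).1
      _ = (1 + u + R) * m + (N:ℝ) ^ 2 * K ^ 2 *
          ∫ t : ℝ, tl (√v) R (t - u) ∂(gaussianReal u v) := by
          rw [integral_add (hPi.const_mul _) (hi.const_mul _), integral_const_mul,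
            integral_const_mul, hm]
      _ ≤ _ := by linarith
  · calc (u - R) * m - K ^ 2 * ((N:ℝ) ^ 2 * (16 * √v * Real.exp (-R / √v)))
        ≤ (u - R) * m - (N:ℝ) ^ 2 * K ^ 2 *
          ∫ t : ℝ, tl (√v) R (t - u) ∂(gaussianReal u v) := by linarith
      _ = ∫ t : ℝ, ((u - R) * (‖PP N ((x:ℂ) + t * I)‖ ^ 2 * ‖F ((x:ℂ) + t * I)‖ ^ 2) -
          (N:ℝ) ^ 2 * K ^ 2 * tl (√v) R (t - u)) ∂(gaussianReal u v) := by
          rw [integral_sub (hPi.const_mul _) (hi.const_mul _), integral_const_mul,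
            integral_const_mul, hm]
      _ ≤ _ := integral_mono ((hPi.const_mul _).sub (hi.const_mul _)) hQi fun t => (hpt t).2

/-- ROW H2. The main term on the lines near the critical line.
PROOF (pattern of `nq_tendsto` in LibZM/HB8.lean and `q_bounds` in HB6.lean). `En (Q2 Pz²) = ∫ ‖s-1‖ ‖PP s‖² ‖Pz s‖² dγ`, `s = lineT σ + it`; `‖s-1‖` lies between `u - R` and
`1 + u + R` for `|t - u| ≤ R`, `R = RT θ T`, the rest is exponentially small (`tl_integral`, `‖PP‖² ≤ N²`, `‖Pz‖ ≤ K`; `er2_tendsto`), `RT/u → 0`. By `Pz_near` (`K |σ|/log T`)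
one may replace `‖Pz‖²` by `wP (xt p t)`, and `sq_law` with `V = vT θ` (`vT θ T = T^{1+θ} ≥ T^{2θ + (1-θ)}`), `w = wP S c`. -/
theorem nqP_tendsto {ε : ℝ} (hε : 0 < ε) {θ : ℝ} (hθ0 : 0 < θ) (hθ1 : θ < 1) (σ : ℝ) {r : ℕ} {p : Fin r → ℕ} (hp : ∀ i, (p i).Prime) (hinj : Function.Injective p)
    (S : Finset (Fin r → ℕ)) (c : (Fin r → ℕ) → ℂ) :
    Tendsto (nqP p S c θ σ) (Fl ε) (𝓝 (Pint (1/4) σ θ * TM1 p (wP S c))) := by
  obtain ⟨K0, hK0, hPz⟩ := Pz_le hp S c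
  obtain ⟨K1, hK1, hnear⟩ := Pz_near hp S c
  obtain ⟨hwc, hw0, K2, hK2, hwK⟩ := wP_props (r := r) S c
  have hPzc : Continuous (Pz p S c) := (Pz_diff hp S c).continuous
  have hV : ∀ᶠ T : ℝ in atTop, T ^ (2 * θ + (1 - θ)) ≤ (vT θ T : ℝ) := by
    filter_upwards [eventually_gt_atTop 0] with T hT
    rw [vT_coe]
    unfold HT
    rw [← Real.rpow_natCast, ← Real.rpow_mul hT.le]
    apply le_of_eq
    congr 1
    push_cast
    ring
  set L : ℝ := Pint (1/4) σ θ * TM1 p (wP S c) with hL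
  have hm0 := sq_law hε hθ0 hθ1 σ (V := vT θ) (ε₀ := 1 - θ) (by linarith) hV hp hinj hwc
  have hm1 := sq_law hε hθ0 hθ1 σ (V := vT θ) (ε₀ := 1 - θ) (by linarith) hV hp hinj
    (w := fun _ : Tor r => (1:ℝ)) continuous_const
  set m : ℝ × ℝ → ℝ := fun P => ∫ t, ‖PP (NT θ P.1) (((lineT σ P.1 : ℝ) : ℂ) + t * I)‖ ^ 2 *
    ‖Pz p S c (((lineT σ P.1 : ℝ) : ℂ) + t * I)‖ ^ 2 ∂(gaussianReal P.2 (vT θ P.1)) with hmdef
  have hlin : ∀ᶠ P : ℝ × ℝ in Fl ε, 1/4 < lineT σ P.1 ∧ lineT σ P.1 < 3/4 :=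
    (Fl_fst ε).eventually (lineT_mem σ)
  have habs : Tendsto (fun P : ℝ × ℝ => |lineT σ P.1 - 1/2|) (Fl ε) (𝓝 0) := by
    have h1 : Tendsto (fun T : ℝ => |lineT σ T - 1/2|) atTop (𝓝 0) := by
      have h2 := (div_log_tendsto σ).abs
      rw [abs_zero] at h2
      refine h2.congr fun T => ?_
      unfold lineT
      rw [add_sub_cancel_left]
    exact h1.comp (Fl_fst ε)
  have hmL : Tendsto (fun P => m P / Lam P.1) (Fl ε) (𝓝 L) := by
    have hdiff : Tendsto (fun P : ℝ × ℝ => m P / Lam P.1 -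
        (∫ t, ‖PP (NT θ P.1) (((lineT σ P.1 : ℝ) : ℂ) + t * I)‖ ^ 2 * wP S c (xt p t)
          ∂(gaussianReal P.2 (vT θ P.1))) / Lam P.1) (Fl ε) (𝓝 0) := by
      have hz : Tendsto (fun P : ℝ × ℝ => K1 * |lineT σ P.1 - 1/2| *
          ((∫ t, ‖PP (NT θ P.1) (((lineT σ P.1 : ℝ) : ℂ) + t * I)‖ ^ 2 * (1:ℝ)
          ∂(gaussianReal P.2 (vT θ P.1))) / Lam P.1)) (Fl ε) (𝓝 0) := by
        have h1 := (habs.const_mul K1).mul hm1
        rw [mul_zero, zero_mul] at h1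
        exact h1
      refine squeeze_zero_norm' ?_ hz
      filter_upwards [hlin, Fl_pos hε] with P hP hpos
      have hLam := Lam_pos hpos.1
      have hx0 : 0 ≤ lineT σ P.1 := by linarith [hP.1]
      have i1 := h2_int (N := NT θ P.1) hx0
        (g := fun t : ℝ => ‖Pz p S c (((lineT σ P.1 : ℝ) : ℂ) + t * I)‖ ^ 2) (by fun_prop)
        (K := K0 ^ 2) (fun t => by positivity) (fun t => by
          have h1 := hPz (((lineT σ P.1 : ℝ) : ℂ) + t * I) (by simp; linarith [hP.1])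
          gcongr) P.2 (vT θ P.1)
      have i2 := h2_int (N := NT θ P.1) hx0 (g := fun t : ℝ => wP S c (xt p t))
        (hwc.comp (xt_continuous p)) (K := K2) (fun t => hw0 _) (fun t => hwK _) P.2 (vT θ P.1)
      have i3 := h2_int (N := NT θ P.1) hx0 (g := fun _ : ℝ => (1:ℝ)) continuous_const (K := 1)
        (fun t => zero_le_one) (fun t => le_rfl) P.2 (vT θ P.1)
      rw [← sub_div, hmdef]
      simp only
      rw [← integral_sub i1 i2, norm_div, Real.norm_of_nonneg hLam.le, ← mul_div_assoc]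
      apply div_le_div_of_nonneg_right _ hLam.le
      rw [← integral_const_mul]
      refine norm_integral_le_of_norm_le (i3.const_mul _) (Eventually.of_forall fun t => ?_)
      rw [← mul_sub, norm_mul, Real.norm_of_nonneg (by positivity), Real.norm_eq_abs]
      have h2 := hnear (lineT σ P.1) ⟨by linarith [hP.1], by linarith [hP.2]⟩ t
      calc ‖PP (NT θ P.1) (((lineT σ P.1 : ℝ) : ℂ) + t * I)‖ ^ 2 *
            |‖Pz p S c (((lineT σ P.1 : ℝ) : ℂ) + t * I)‖ ^ 2 - wP S c (xt p t)|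
          ≤ ‖PP (NT θ P.1) (((lineT σ P.1 : ℝ) : ℂ) + t * I)‖ ^ 2 *
            (K1 * |lineT σ P.1 - 1/2|) := by gcongr
        _ = _ := by ring
    have h3 := hm0.add hdiff
    rw [add_zero] at h3
    refine h3.congr fun P => ?_
    ring
  -- the two bounds
  have hE2 : Tendsto (fun P : ℝ × ℝ => K0 ^ 2 * (er2 θ P.1 / Lam P.1) * (1 / P.2)) (Fl ε)
      (𝓝 0) := by
    have h := ((((er2_tendsto hθ0.le hθ1).div_atTop Lam_tendsto).comp (Fl_fst ε)).const_mul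
      (K0 ^ 2)).mul (one_div_u hε)
    rw [mul_zero] at h
    exact h
  have hR := RT_div (θ := θ) hε hθ1
  have h1 := one_div_u hε
  have hlow : Tendsto (fun P : ℝ × ℝ => (1 - RT θ P.1 / P.2) * (m P / Lam P.1) -
      K0 ^ 2 * (er2 θ P.1 / Lam P.1) * (1 / P.2)) (Fl ε) (𝓝 L) := by
    have h := ((hR.const_sub 1).mul hmL).sub hE2
    simpa using h
  have hup : Tendsto (fun P : ℝ × ℝ => (1 / P.2 + 1 + RT θ P.1 / P.2) * (m P / Lam P.1) +
      K0 ^ 2 * (er2 θ P.1 / Lam P.1) * (1 / P.2)) (Fl ε) (𝓝 L) := by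
    have h := (((h1.add_const 1).add hR).mul hmL).add hE2
    simpa using h
  have hev : ∀ᶠ P : ℝ × ℝ in Fl ε,
      ((1 - RT θ P.1 / P.2) * (m P / Lam P.1) - K0 ^ 2 * (er2 θ P.1 / Lam P.1) * (1 / P.2) ≤
        nqP p S c θ σ P) ∧
      (nqP p S c θ σ P ≤ (1 / P.2 + 1 + RT θ P.1 / P.2) * (m P / Lam P.1) +
        K0 ^ 2 * (er2 θ P.1 / Lam P.1) * (1 / P.2)) := by
    filter_upwards [Fl_pos hε, (Fl_fst ε).eventually (four_le_vT hθ0.le), hlin] with P hpos hv hP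
    have hT0 : 0 < P.1 := by linarith [hpos.1]
    have hu0 : 0 < P.2 := by linarith [hpos.2]
    have hLam := Lam_pos hpos.1
    have hR0 := (RT_pos θ hT0).le
    have hv0 : 0 < vT θ P.1 := lt_of_lt_of_le (by norm_num) hv
    obtain ⟨b1, b2⟩ := h2_bounds hu0.le hv0 hR0 (NT θ P.1) (x := lineT σ P.1) hP.1.le
      (by linarith [hP.2]) hPzc hK0.le
      (fun t => hPz (((lineT σ P.1 : ℝ) : ℂ) + t * I) (by simp; linarith [hP.1]))
    have e2 : (NT θ P.1 : ℝ) ^ 2 * (16 * √(vT θ P.1 : ℝ) *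
      Real.exp (-RT θ P.1 / √(vT θ P.1 : ℝ))) = er2 θ P.1 := rfl
    have e3 : (∫ t, ‖PP (NT θ P.1) (((lineT σ P.1 : ℝ) : ℂ) + t * I)‖ ^ 2 *
      ‖Pz p S c (((lineT σ P.1 : ℝ) : ℂ) + t * I)‖ ^ 2 ∂(gaussianReal P.2 (vT θ P.1))) = m P :=
      rfl
    rw [e2, e3] at b1 b2
    have hUL : 0 < P.2 * Lam P.1 := mul_pos hu0 hLam
    unfold nqP
    constructor
    · rw [le_div_iff₀ hUL]
      refine le_trans (le_of_eq ?_) b2
      field_simp
    · rw [div_le_iff₀ hUL]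
      refine le_trans b1 (le_of_eq ?_)
      field_simp
  exact tendsto_of_tendsto_of_tendsto_of_le_of_le' hlow hup (hev.mono fun P h => h.1)
    (hev.mono fun P h => h.2)

end Pool.Agent.LibOM70
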