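import Pool.Agent.LibOM70.H1
import Pool.Agent.LibZM.HB10

/-! ODD MOMENTS, row H3. -/

set_option autoImplicit false

namespace Pool.Agent.LibOM70

open MeasureTheory Set Filter Topology Complex ProbabilityTheory
open scoped NNReal ComplexConjugate
open Pool.Agent.LibZM Pool.Agent.LibM3
open Pool.Agent.LibLaw15 hiding Lam

theorem h3_sq {r : ℕ} {p : Fin r → ℕ} (hp : ∀ i, (p i).Prime) (S : Finset (Fin r → ℕ)) (c : (Fin r → ℕ) → ℂ) :
    ∃ K : ℝ, 0 < K ∧ ∀ x : ℝ, 1/4 ≤ x → ∀ y : ℝ, ‖Pz p S c (x + y * I) ^ 2‖ ≤ K := by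
  obtain ⟨K, hK, hKb⟩ := Pz_le hp S c
  refine ⟨K ^ 2, by positivity, fun x hx y => ?_⟩
  rw [norm_pow]
  have h := hKb (x + y * I) (by simpa using hx)
  gcongr

/-- ROW H3a. Growth of the three functions (for `convex_En`, `conv_eventually`): `growth_zeta1`, `growth_Gf`, `growth_Q2` times `‖Pz‖² ≤ K²`. -/
theorem growP {r : ℕ} {p : Fin r → ℕ} (hp : ∀ i, (p i).Prime) (S : Finset (Fin r → ℕ)) (c : (Fin r → ℕ) → ℂ) : ∃ K : ℝ, 0 < K ∧ ∀ b' : ℝ, 1 ≤ b' → ∀ N : ℕ, ∀ x ∈ Icc (1/4:ℝ) b', ∀ y : ℝ,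
    ‖riemannZeta₁ (x + y * I) * Pz p S c (x + y * I) ^ 2‖ ≤ (12 * b' ^ 2 * Real.exp 1 * K) * Real.exp |y| ∧
    ‖Gf N (x + y * I) * Pz p S c (x + y * I) ^ 2‖ ≤ ((12 * b' ^ 2 * Real.exp 1 + b' * N ^ 2 * Real.exp 1) * K) * Real.exp |y| := by
  obtain ⟨K, hK, hKb⟩ := h3_sq hp S c
  refine ⟨K, hK, fun b' hb' N x hx y => ?_⟩
  have h0 := hKb x hx.1 y
  have h1 := growth_zeta1 hb' x hx y
  have h2 := growth_Gf hb' N x hx y
  constructor
  · rw [norm_mul]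
    calc _ ≤ ((12 * b' ^ 2 * Real.exp 1) * Real.exp |y|) * K := by gcongr
      _ = _ := by ring
  · rw [norm_mul]
    calc _ ≤ ((12 * b' ^ 2 * Real.exp 1 + b' * N ^ 2 * Real.exp 1) * Real.exp |y|) * K := by gcongr
      _ = _ := by ring

/-- ROW H3b. Decay of the difference to the right: copy the proof of `ng_decay` (LibZM/HB9.lean) with the extra factor `Pz²`, bounded by `K` on `Re s = b`
(`W T = (Z2 K (NT θ T)^{2-b}) (b+1)`; `conv_eventually` is for general `F`). -/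
theorem ngP_decay {ε : ℝ} (hε : 0 < ε) {θ : ℝ} (hθ0 : 0 < θ) (hθ : θ < 1) {κ : ℝ} (hκ0 : 0 ≤ κ) (hκ : κ < θ) {ρ σ : ℝ} (hρσ : ρ < σ) {η : ℝ} (hη : 0 < η)
    {r : ℕ} {p : Fin r → ℕ} (hp : ∀ i, (p i).Prime) (S : Finset (Fin r → ℕ)) (c : (Fin r → ℕ) → ℂ) :
    ∀ᶠ P : ℝ × ℝ in Fl ε, ngP p S c θ σ P ≤ Real.exp (-(κ * (σ - ρ))) * ngP p S c θ ρ P + η := by
  obtain ⟨K₁, hK₁, hgr⟩ := growP hp S c
  obtain ⟨K₂, hK₂, hsq⟩ := h3_sq hp S c
  obtain ⟨b, hb⟩ : ∃ b : ℝ, b = 2 + 1.5 * θ / (θ - κ) := ⟨_, rfl⟩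
  have hθκ : 0 < θ - κ := by linarith
  have hb2 : 2 ≤ b := by rw [hb]; have : 0 ≤ 1.5 * θ / (θ - κ) := by positivity
                         linarith
  have hbκ : κ * (b - 1/2) < (b - 2) * θ := by
    have h1 : (b - 2) * (θ - κ) = 1.5 * θ := by rw [hb]; field_simp; ring
    nlinarith
  have hdiff : ∀ N, Differentiable ℂ (fun s => Gf N s * Pz p S c s ^ 2) := fun N =>
    (differentiable_Gf N).mul ((Pz_diff hp S c).pow 2)
  refine conv_eventually (F := fun T s => Gf (NT θ T) s * Pz p S c s ^ 2) hθ0.le hε (fun T => hdiff _) hb2 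
    (Cg := fun T => (12 * (b+1) ^ 2 * Real.exp 1 + (b+1) * (NT θ T : ℝ) ^ 2 * Real.exp 1) * K₁) (fun T => by positivity) 
    (fun T x hx y => (hgr (b + 1) (by linarith) _ x hx y).2)
    (W := fun T => (Z2 * (NT θ T : ℝ) ^ (2 - b) * K₂) * (b + 1)) ?_ ?_ (ω := (b - 2) * θ) ?_ hρσ ?_ hη
  · filter_upwards [eventually_ge_atTop 1] with T hT
    have hN : (1:ℝ) ≤ NT θ T := by exact_mod_cast one_le_NT hθ0.le hT
    have := Z2_pos
    positivity
  · filter_upwards [far_mean hε hθ0.le hθ b (by linarith), Fl_pos hε] with P hP hP1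
    have hN : (1:ℝ) ≤ NT θ P.1 := by exact_mod_cast one_le_NT hθ0.le hP1.1.le
    have hZ := Z2_pos
    have hK : 0 ≤ Z2 * (NT θ P.1 : ℝ) ^ (2 - b) * K₂ := by positivity
    refine (En_far_le (hdiff _).continuous (by linarith) hK (fun t => ?_) _ _).trans ?_
    · have h1 := far_line (one_le_NT hθ0.le hP1.1.le) hb2 t
      have h2 := hsq b (by linarith) t
      have h3 : 0 ≤ ‖(b:ℂ) + t * I - 1‖ := norm_nonneg _
      rw [norm_mul]
      calc _ ≤ (‖(b:ℂ) + t * I - 1‖ * (Z2 * (NT θ P.1 : ℝ) ^ (2 - b))) * K₂ := by gcongr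
        _ = _ := by ring
    · refine (mul_le_mul_of_nonneg_left hP hK).trans (le_of_eq ?_)
      ring
  · have h1 := (div_log_tendsto (Real.log (Z2 * K₂ * (b + 1)))).add ((log_NT_div hθ0.le).const_mul (2 - b))
    have e : 0 + (2 - b) * θ = -((b - 2) * θ) := by ring
    rw [e] at h1
    refine h1.congr' ?_
    filter_upwards [eventually_gt_atTop 1] with T hT
    have hN : (1:ℝ) ≤ NT θ T := by exact_mod_cast one_le_NT hθ0.le hT.le
    have hN0 : (0:ℝ) < NT θ T := by linarith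
    have hZ := Z2_pos
    have e2 : Z2 * (NT θ T : ℝ) ^ (2 - b) * K₂ * (b + 1) = (Z2 * K₂ * (b + 1)) * (NT θ T : ℝ) ^ (2 - b) := by ring
    rw [e2, Real.log_mul (x := Z2 * K₂ * (b + 1)) (by positivity) (by positivity), Real.log_rpow hN0]
    ring
  · apply Real.exp_lt_exp.mpr
    have hb12 : 0 < b - 1/2 := by linarith
    have h1 : κ < (b - 2) * θ / (b - 1/2) := by
      rw [lt_div_iff₀ hb12]; exact hbκ
    have h2 : 0 < σ - ρ := by linarith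
    have e : -((b - 2) * θ) * ((σ - ρ) / (b - 1/2)) = -((b - 2) * θ / (b - 1/2) * (σ - ρ)) := by ring
    rw [e, neg_lt_neg_iff]
    gcongr

end Pool.Agent.LibOM70
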