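import Pool.Agent.LibOM70.H1
import Pool.Agent.LibZM.HB10

/-! ODD MOMENTS, row H3t. -/

set_option autoImplicit false

namespace Pool.Agent.LibOM70

open MeasureTheory Set Filter Topology Complex ProbabilityTheory
open scoped NNReal ComplexConjugate
open Pool.Agent.LibZM Pool.Agent.LibM3
open Pool.Agent.LibLaw15 hiding Lam

/-- integrability with the polynomial factor -/
theorem h3t_int {F : ℂ → ℂ} (hF : Continuous F) {x C : ℝ} (hx : 1/4 ≤ x)
    (hC : ∀ t : ℝ, ‖F (x + t * I)‖ ≤ C * Real.exp |t|) {r : ℕ} {p : Fin r → ℕ}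
    (hp : ∀ i, (p i).Prime) (S : Finset (Fin r → ℕ)) (c : (Fin r → ℕ) → ℂ) (u : ℝ) (v : ℝ≥0) :
    Integrable (fun t : ℝ => ‖F (x + t * I) * Pz p S c (x + t * I) ^ 2‖) (gaussianReal u v) := by
  obtain ⟨K, hK, hPz⟩ := Pz_le hp S c
  have hcont : Continuous (fun s : ℂ => F s * Pz p S c s ^ 2) :=
    hF.mul ((Pz_diff hp S c).continuous.pow 2)
  refine integrable_growth (F := fun s : ℂ => F s * Pz p S c s ^ 2) hcont (x := x)
    (C := C * K ^ 2) (fun t => ?_) u v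
  have h1 := hPz (x + t * I) (by simpa using hx)
  have h2 : ‖Pz p S c (x + t * I)‖ ^ 2 ≤ K ^ 2 := pow_le_pow_left₀ (norm_nonneg _) h1 2
  rw [norm_mul, norm_pow]
  calc ‖F (x + t * I)‖ * ‖Pz p S c (x + t * I)‖ ^ 2 ≤ (C * Real.exp |t|) * K ^ 2 :=
        mul_le_mul (hC t) h2 (by positivity) ((norm_nonneg _).trans (hC t))
    _ = C * K ^ 2 * Real.exp |t| := by ring

/-- the triangle inequality for the means -/
theorem h3t_tri {F G H : ℂ → ℂ} (h : ∀ s, ‖F s‖ ≤ ‖G s‖ + ‖H s‖) (Z : ℂ → ℂ) {x u : ℝ} {v : ℝ≥0}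
    (hF : Integrable (fun t : ℝ => ‖F (x + t * I) * Z (x + t * I) ^ 2‖) (gaussianReal u v))
    (hG : Integrable (fun t : ℝ => ‖G (x + t * I) * Z (x + t * I) ^ 2‖) (gaussianReal u v))
    (hH : Integrable (fun t : ℝ => ‖H (x + t * I) * Z (x + t * I) ^ 2‖) (gaussianReal u v)) :
    En (fun s => F s * Z s ^ 2) u v x ≤
      En (fun s => G s * Z s ^ 2) u v x + En (fun s => H s * Z s ^ 2) u v x := by
  unfold En
  rw [← integral_add hG hH]
  refine integral_mono hF (hG.add hH) fun t => ?_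
  change ‖F (x + t * I) * Z (x + t * I) ^ 2‖ ≤ ‖G (x + t * I) * Z (x + t * I) ^ 2‖ +
    ‖H (x + t * I) * Z (x + t * I) ^ 2‖
  rw [norm_mul, norm_mul, norm_mul, ← add_mul]
  exact mul_le_mul_of_nonneg_right (h _) (norm_nonneg _)

/-- ROW H3c. Triangle inequalities (copy `tri_ev`, `triangle_m`, `triangle_q`, `triangle_g` in LibZM/HB10.lean; `Gf N s = riemannZeta₁ s - Q2 N s`). -/
theorem triP {ε : ℝ} (hε : 0 < ε) (θ σ : ℝ) {r : ℕ} {p : Fin r → ℕ} (hp : ∀ i, (p i).Prime) (S : Finset (Fin r → ℕ)) (c : (Fin r → ℕ) → ℂ) : ∀ᶠ P : ℝ × ℝ in Fl ε,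
    nmP p S c θ σ P ≤ ngP p S c θ σ P + nqP p S c θ σ P ∧ nqP p S c θ σ P ≤ nmP p S c θ σ P + ngP p S c θ σ P ∧
      ngP p S c θ σ P ≤ nmP p S c θ σ P + nqP p S c θ σ P := by
  filter_upwards [Fl_pos hε, (Fl_fst ε).eventually (lineT_mem σ)] with P hP hl
  have hu0 : 0 < P.2 := by linarith [hP.2]
  have hL := Lam_pos hP.1
  have hUL : 0 ≤ P.2 * Lam P.1 := by positivity
  have hx : (1/4 : ℝ) ≤ lineT σ P.1 := hl.1.le
  have hx1 : lineT σ P.1 ≤ 1 := by linarith [hl.2]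
  have iz := h3t_int (x := lineT σ P.1) differentiable_riemannZeta₁.continuous hx
    (fun t => growth_zeta1 (le_refl 1) _ ⟨hx, hx1⟩ t) hp S c P.2 (vT θ P.1)
  have iq := h3t_int (x := lineT σ P.1) (differentiable_Q2 (NT θ P.1)).continuous hx
    (fun t => growth_Q2 (le_refl 1) _ _ ⟨hx, hx1⟩ t) hp S c P.2 (vT θ P.1)
  have ig := h3t_int (x := lineT σ P.1) (differentiable_Gf (NT θ P.1)).continuous hx
    (fun t => growth_Gf (le_refl 1) _ _ ⟨hx, hx1⟩ t) hp S c P.2 (vT θ P.1)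
  unfold nmP ngP nqP
  rw [← add_div, ← add_div, ← add_div]
  refine ⟨?_, ?_, ?_⟩
  · refine div_le_div_of_nonneg_right (h3t_tri (fun s => ?_) _ iz ig iq) hUL
    have e : riemannZeta₁ s = Gf (NT θ P.1) s + Q2 (NT θ P.1) s := by unfold Gf; ring
    rw [e]; exact norm_add_le _ _
  · refine div_le_div_of_nonneg_right (h3t_tri (fun s => ?_) _ iq iz ig) hUL
    have e : Q2 (NT θ P.1) s = riemannZeta₁ s - Gf (NT θ P.1) s := by unfold Gf; ring
    rw [e]; exact norm_sub_le _ _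
  · refine div_le_div_of_nonneg_right (h3t_tri (fun s => ?_) _ ig iz iq) hUL
    unfold Gf; exact norm_sub_le _ _

end Pool.Agent.LibOM70
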