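import Pool.Agent.LibOM70.H4a
import Pool.Agent.LibOM70.H1

/-! ODD MOMENTS, row H4. -/

set_option autoImplicit false

namespace Pool.Agent.LibOM70

open MeasureTheory Set Filter Topology Complex ProbabilityTheory
open scoped NNReal ComplexConjugate
open Pool.Agent.LibZM Pool.Agent.LibM3
open Pool.Agent.LibLaw15 hiding Lam

/-- Reflection for Gaussian means with the weight. -/
theorem h4_En {r : ℕ} {p : Fin r → ℕ} (hp : ∀ i, (p i).Prime) (S : Finset (Fin r → ℕ)) (c : (Fin r → ℕ) → ℂ)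
    {K K₂ : ℝ} (hK0 : 0 ≤ K) (hK₂ : 0 ≤ K₂)
    (hnear : ∀ x ∈ Icc (1/4:ℝ) (7/4), ∀ t : ℝ, |‖Pz p S c ((x:ℂ) + t * I)‖ ^ 2 - wP S c (xt p t)| ≤ K * |x - 1/2|)
    (hb : ∀ x : ℝ, 1/4 ≤ x → ∀ y : ℝ, ‖Pz p S c (x + y * I) ^ 2‖ ≤ K₂)
    {δ : ℝ} (hδ0 : 0 ≤ δ) (hδ1 : δ ≤ 1/4) {u : ℝ} (hu : 0 ≤ u) {v : ℝ≥0} (hv : 0 < v) {R : ℝ} (hR : 0 ≤ R) :
    En (fun s => riemannZeta₁ s * Pz p S c s ^ 2) u v (1/2 - δ) ≤
      (1 + 8 * δ) * (Real.exp 1 * (u + R + 2) / (2 * Real.pi)) ^ δ *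
        (En (fun s => riemannZeta₁ s * Pz p S c s ^ 2) u v (1/2 + δ) + 2 * K * δ * En riemannZeta₁ u v (1/2 + δ)) +
      K₂ * (96 * (2 * (1 + u) ^ 2 + 4 * v) * Real.exp (-R / √v)) := by
  have hv' : (0:ℝ) < v := by exact_mod_cast hv
  obtain ⟨H, hH⟩ : ∃ H : ℝ, H = √(v:ℝ) := ⟨_, rfl⟩
  have hH0 : 0 < H := by rw [hH]; exact Real.sqrt_pos.mpr hv'
  have hH2 : H ^ 2 = v := by rw [hH]; exact Real.sq_sqrt hv'.le
  obtain ⟨hi, hbt⟩ := tl_integral u hv R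
  rw [← hH] at hi hbt ⊢
  obtain ⟨X, hX⟩ : ∃ X : ℝ, X = (1 + 8 * δ) * (Real.exp 1 * (u + R + 2) / (2 * Real.pi)) ^ δ := ⟨_, rfl⟩
  have hX0 : 0 ≤ X := by rw [hX]; have : 0 ≤ 1 + 8 * δ := by linarith
                         positivity
  obtain ⟨D, hD⟩ : ∃ D : ℝ, D = 6 * ((2 * (1 + u) ^ 2 + 4 * H ^ 2) / H) := ⟨_, rfl⟩
  have hD0 : 0 ≤ D := by rw [hD]; positivity
  have hcont : Continuous (fun s => riemannZeta₁ s * Pz p S c s ^ 2) :=
    differentiable_riemannZeta₁.continuous.mul ((Pz_diff hp S c).continuous.pow 2)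
  have hint : ∀ x : ℝ, 1/4 ≤ x → x ≤ 1 →
      Integrable (fun t : ℝ => ‖riemannZeta₁ (x + t * I) * Pz p S c (x + t * I) ^ 2‖) (gaussianReal u v) := by
    intro x hx hx1
    refine integrable_growth (F := fun s => riemannZeta₁ s * Pz p S c s ^ 2) hcont (C := (12 * 1 ^ 2 * Real.exp 1) * K₂) (fun t => ?_) u v
    have h1 := growth_zeta1 (le_refl 1) x ⟨hx, hx1⟩ t
    have h2 := hb x hx t
    change ‖riemannZeta₁ (x + t * I) * Pz p S c (x + t * I) ^ 2‖ ≤ _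
    rw [norm_mul]
    calc _ ≤ ((12 * 1 ^ 2 * Real.exp 1) * Real.exp |t|) * K₂ := by gcongr
      _ = _ := by ring
  have i1 := hint (1/2 + δ) (by linarith) (by linarith)
  have i2 := hint (1/2 - δ) (by linarith) (by linarith)
  have i3 := integrable_zeta1 (x := 1/2 + δ) (by linarith) (by linarith) u v
  have hpt : ∀ t : ℝ, ‖riemannZeta₁ (((1/2 - δ : ℝ) : ℂ) + t * I) * Pz p S c (((1/2 - δ : ℝ) : ℂ) + t * I) ^ 2‖ ≤ 
      X * (‖riemannZeta₁ (((1/2 + δ : ℝ) : ℂ) + t * I) * Pz p S c (((1/2 + δ : ℝ) : ℂ) + t * I) ^ 2‖ +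
        2 * K * δ * ‖riemannZeta₁ (((1/2 + δ : ℝ) : ℂ) + t * I)‖) + K₂ * D * tl H R (t - u) := by
    intro t
    have ht := tl_nonneg hH0 R (t - u)
    rw [norm_mul, norm_mul]
    rcases sq_le_tl (R := R) hH0 hu t with h | h
    · have h1 := reflect_pt hδ0 hδ1 t
      have h2 : |t| ≤ u + R := by
        calc |t| = |u + (t - u)| := by congr 1; ring
          _ ≤ |u| + |t - u| := abs_add_le _ _
          _ ≤ _ := by rw [abs_of_nonneg hu]; linarith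
      have h3 : (Real.exp 1 * (|t| + 2) / (2 * Real.pi)) ^ δ ≤ (Real.exp 1 * (u + R + 2) / (2 * Real.pi)) ^ δ := by
        apply Real.rpow_le_rpow (by positivity) _ hδ0
        gcongr
      have h4 : 0 ≤ K₂ * D * tl H R (t - u) := by positivity
      have h5 : 0 ≤ 1 + 8 * δ := by linarith
      have h6 : ‖riemannZeta₁ (((1/2 - δ : ℝ) : ℂ) + t * I)‖ ≤ X * ‖riemannZeta₁ (((1/2 + δ : ℝ) : ℂ) + t * I)‖ := by
        rw [hX]
        calc ‖riemannZeta₁ (((1/2 - δ : ℝ) : ℂ) + t * I)‖ ≤ _ := h1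
          _ ≤ (1 + 8 * δ) * (Real.exp 1 * (u + R + 2) / (2 * Real.pi)) ^ δ * ‖riemannZeta₁ (((1/2 + δ : ℝ) : ℂ) + t * I)‖ := by gcongr
      have h7 : ‖Pz p S c (((1/2 - δ : ℝ) : ℂ) + t * I) ^ 2‖ ≤ ‖Pz p S c (((1/2 + δ : ℝ) : ℂ) + t * I) ^ 2‖ + 2 * K * δ := by
        have a1 := hnear (1/2 - δ) ⟨by linarith, by linarith⟩ t
        have a2 := hnear (1/2 + δ) ⟨by linarith, by linarith⟩ t
        have e1 : |(1/2 - δ) - 1/2| = δ := by rw [show (1/2 - δ) - 1/2 = -δ by ring, abs_neg, abs_of_nonneg hδ0]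
        have e2 : |(1/2 + δ) - 1/2| = δ := by rw [show (1/2 + δ) - 1/2 = δ by ring, abs_of_nonneg hδ0]
        rw [e1, abs_le] at a1
        rw [e2, abs_le] at a2
        rw [norm_pow, norm_pow]
        linarith [a1.2, a2.1]
      calc ‖riemannZeta₁ (((1/2 - δ : ℝ) : ℂ) + t * I)‖ * ‖Pz p S c (((1/2 - δ : ℝ) : ℂ) + t * I) ^ 2‖ 
          ≤ (X * ‖riemannZeta₁ (((1/2 + δ : ℝ) : ℂ) + t * I)‖) * (‖Pz p S c (((1/2 + δ : ℝ) : ℂ) + t * I) ^ 2‖ + 2 * K * δ) := by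
            gcongr
        _ = X * (‖riemannZeta₁ (((1/2 + δ : ℝ) : ℂ) + t * I)‖ * ‖Pz p S c (((1/2 + δ : ℝ) : ℂ) + t * I) ^ 2‖ + 
              2 * K * δ * ‖riemannZeta₁ (((1/2 + δ : ℝ) : ℂ) + t * I)‖) := by ring
        _ ≤ _ := by linarith
    · have h1 := norm_zeta1_line (b' := 1) (le_refl 1) (x := 1/2 - δ) ⟨by linarith, by linarith⟩ t
      have h2 := hb (1/2 - δ) (by linarith) t
      have h3 : 0 ≤ X * (‖riemannZeta₁ (((1/2 + δ : ℝ) : ℂ) + t * I)‖ * ‖Pz p S c (((1/2 + δ : ℝ) : ℂ) + t * I) ^ 2‖ + 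
              2 * K * δ * ‖riemannZeta₁ (((1/2 + δ : ℝ) : ℂ) + t * I)‖) := by positivity
      calc ‖riemannZeta₁ (((1/2 - δ : ℝ) : ℂ) + t * I)‖ * ‖Pz p S c (((1/2 - δ : ℝ) : ℂ) + t * I) ^ 2‖ 
          ≤ (6 * 1 ^ 2 * (1 + |t|) ^ 2) * K₂ := by gcongr
        _ ≤ (6 * 1 ^ 2 * (((2 * (1 + u) ^ 2 + 4 * H ^ 2) / H) * tl H R (t - u))) * K₂ := by gcongr
        _ = K₂ * D * tl H R (t - u) := by rw [hD]; ring
        _ ≤ _ := by linarith
  rw [← hX]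
  have j1 : Integrable (fun t : ℝ => X * (‖riemannZeta₁ (((1/2 + δ : ℝ) : ℂ) + t * I) * Pz p S c (((1/2 + δ : ℝ) : ℂ) + t * I) ^ 2‖ +
        2 * K * δ * ‖riemannZeta₁ (((1/2 + δ : ℝ) : ℂ) + t * I)‖)) (gaussianReal u v) := (i1.add (i3.const_mul (2 * K * δ))).const_mul X
  calc En (fun s => riemannZeta₁ s * Pz p S c s ^ 2) u v (1/2 - δ) 
      ≤ ∫ t : ℝ, (X * (‖riemannZeta₁ (((1/2 + δ : ℝ) : ℂ) + t * I) * Pz p S c (((1/2 + δ : ℝ) : ℂ) + t * I) ^ 2‖ +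
        2 * K * δ * ‖riemannZeta₁ (((1/2 + δ : ℝ) : ℂ) + t * I)‖) + K₂ * D * tl H R (t - u)) ∂(gaussianReal u v) := 
        integral_mono i2 (j1.add (hi.const_mul (K₂ * D))) hpt
    _ = X * (En (fun s => riemannZeta₁ s * Pz p S c s ^ 2) u v (1/2 + δ) + 2 * K * δ * En riemannZeta₁ u v (1/2 + δ)) +
          K₂ * D * ∫ t : ℝ, tl H R (t - u) ∂(gaussianReal u v) := by
        rw [integral_add j1 (hi.const_mul (K₂ * D)), integral_const_mul,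
          integral_const_mul, integral_add i1 (i3.const_mul (2 * K * δ)), integral_const_mul]
        rfl
    _ ≤ X * (En (fun s => riemannZeta₁ s * Pz p S c s ^ 2) u v (1/2 + δ) + 2 * K * δ * En riemannZeta₁ u v (1/2 + δ)) +
          K₂ * D * (16 * H * Real.exp (-R / H)) := by
        have h0 : 0 ≤ K₂ * D := by positivity
        have := mul_le_mul_of_nonneg_left hbt h0
        linarith
    _ = _ := by
        rw [hD, hH2]
        field_simp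
        ring

/-- ROW H4. Reflection.
PROOF (copy `reflect_En`, LibZM/HB10, and `nm_reflect`, HB11, with the weight). With `δ = C/log T`: pointwise `reflect_pt`, and
`‖Pz(1/2-δ+it)‖² ≤ ‖Pz(1/2+δ+it)‖² + 2Kδ` (`Pz_near` twice), so
`En(ζ₁ Pz²)(1/2-δ) ≤ (1+8δ)(e(u+R+2)/2π)^δ [En(ζ₁ Pz²)(1/2+δ) + 2Kδ En(ζ₁)(1/2+δ)] + K² (tail)`; the factor tends to at most `e^C`, the second term is `→ 0` relative to `u Lam`
because `nm θ C` is bounded (`nm_bdd`). -/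
theorem reflectP {ε : ℝ} (hε : 0 < ε) {θ : ℝ} (hθ0 : 3/5 < θ) (hθ : θ < 1) {C : ℝ} (hC : 0 < C) {c' η : ℝ} (hc' : Real.exp C < c') (hη : 0 < η)
    {r : ℕ} {p : Fin r → ℕ} (hp : ∀ i, (p i).Prime) (S : Finset (Fin r → ℕ)) (c : (Fin r → ℕ) → ℂ) :
    ∀ᶠ P : ℝ × ℝ in Fl ε, nmP p S c θ (-C) P ≤ c' * nmP p S c θ C P + η := by
  have hθ0' : 0 < θ := by linarith
  obtain ⟨K, hK, hnear⟩ := Pz_near hp S c
  obtain ⟨K₁, hK₁, hPb⟩ := Pz_le hp S c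
  have hb : ∀ x : ℝ, 1/4 ≤ x → ∀ y : ℝ, ‖Pz p S c (x + y * I) ^ 2‖ ≤ K₁ ^ 2 := by
    intro x hx y
    rw [norm_pow]
    have h := hPb (x + y * I) (by simpa using hx)
    gcongr
  obtain ⟨B, hB, hBb⟩ := nm_bdd hε hθ0 hθ hC.le
  have hc'0 : 0 < c' := lt_trans (Real.exp_pos C) hc'
  have f1 : Tendsto (fun T : ℝ => (1 + 8 * (C / Real.log T)) * (Real.exp C * Real.exp (C * Real.log 2 / Real.log T))) atTop 
      (𝓝 ((1 + 8 * 0) * (Real.exp C * Real.exp 0))) := 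
    (((div_log_tendsto C).const_mul 8).const_add 1).mul (((Real.continuous_exp.tendsto 0).comp (div_log_tendsto (C * Real.log 2))).const_mul (Real.exp C))
  rw [mul_zero, add_zero, one_mul, Real.exp_zero, mul_one] at f1
  have f2 := (er3_tendsto hθ0'.le hθ).const_mul (K₁ ^ 2)
  rw [mul_zero] at f2
  have f3 := (div_log_tendsto C).const_mul (c' * (2 * K * B))
  rw [mul_zero] at f3
  have g1 := (Fl_fst ε).eventually (f1.eventually_lt_const hc')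
  have g2 := (Fl_fst ε).eventually (f2.eventually_lt_const (half_pos hη))
  have g3 := (Fl_fst ε).eventually (Lam_tendsto.eventually_ge_atTop 1)
  have g4 := (Fl_fst ε).eventually (f3.eventually_lt_const (half_pos hη))
  filter_upwards [g1, g2, g3, g4, hBb, Fl_pos hε, Fl_range ε, (Fl_fst ε).eventually (lineT_mem C), 
    (Fl_fst ε).eventually (four_le_vT hθ0'.le), RT_le_u hε hθ one_pos] with P h1 h2 h3 h4 hBP hP hr hl hv hRu
  have hT0 : 0 < P.1 := by linarith [hP.1]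
  have hu0 : 0 < P.2 := by linarith [hP.2]
  have hlog := Real.log_pos hP.1
  have hL := Lam_pos hP.1
  have hv0 : 0 < vT θ P.1 := lt_of_lt_of_le (by norm_num) hv
  have hδ0 : 0 ≤ C / Real.log P.1 := by positivity
  have hδ1 : C / Real.log P.1 ≤ 1/4 := by
    have := hl.2; unfold lineT at this; linarith
  have hR0 := (RT_pos θ hT0).le
  have hE := h4_En hp S c hK.le (by positivity : 0 ≤ K₁ ^ 2) hnear hb hδ0 hδ1 hu0.le hv0 hR0
  rw [sqrt_vT θ hT0, neg_div, RT_div_HT hT0, vT_coe] at hE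
  have hRT : RT θ P.1 ≤ P.1 := by linarith [hr.2]
  have hbase := base_le (T := P.1) (u := P.2) (R := RT θ P.1) hP.1.le hr.2 hRT (by linarith)
  have hX0 : 0 ≤ Real.exp 1 * (P.2 + RT θ P.1 + 2) / (2 * Real.pi) := by positivity
  have hKx : (Real.exp 1 * (P.2 + RT θ P.1 + 2) / (2 * Real.pi)) ^ (C / Real.log P.1) ≤ Real.exp C * Real.exp (C * Real.log 2 / Real.log P.1) := by
    refine (Real.rpow_le_rpow hX0 hbase hδ0).trans (le_of_eq ?_)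
    rw [Real.rpow_def_of_pos (by positivity), ← Real.exp_add, Real.log_mul (by norm_num) hT0.ne']
    congr 1
    field_simp
    ring
  have hH := HT_le hθ.le hP.1.le
  have hH0 := (HT_pos θ hT0).le
  have herr : K₁ ^ 2 * (96 * (2 * (1 + P.2) ^ 2 + 4 * HT θ P.1 ^ 2) * Real.exp (-P.1 ^ ((1 - θ) / 4))) ≤ η / 2 := by
    refine le_trans ?_ h2.le
    have e1 : P.1 ^ (2:ℝ) = P.1 ^ 2 := by rw [← Real.rpow_natCast]; norm_num
    rw [one_mul, e1]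
    have e2 : 96 * (2 * (1 + P.2) ^ 2 + 4 * HT θ P.1 ^ 2) ≤ 1152 * P.1 ^ 2 := by
      have h4 : (1 + P.2) ^ 2 ≤ (2 * P.1) ^ 2 := by
        apply pow_le_pow_left₀ (by linarith)
        linarith [hr.2, hP.1]
      have h5 : HT θ P.1 ^ 2 ≤ P.1 ^ 2 := by gcongr
      nlinarith
    apply mul_le_mul_of_nonneg_left _ (by positivity)
    calc _ ≤ (1152 * P.1 ^ 2) * Real.exp (-P.1 ^ ((1 - θ) / 4)) := by gcongr
      _ = _ := by ring
  have eC : lineT (-C) P.1 = 1/2 - C / Real.log P.1 := by unfold lineT; ring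
  have eC' : lineT C P.1 = 1/2 + C / Real.log P.1 := rfl
  unfold nmP
  unfold nm at hBP
  rw [eC, eC']
  rw [eC'] at hBP
  have hUL : 0 < P.2 * Lam P.1 := mul_pos hu0 hL
  have hUL1 : 1 ≤ P.2 * Lam P.1 := by
    have := hP.2; nlinarith
  rw [div_le_iff₀ hUL] at hBP
  rw [div_le_iff₀ hUL, add_mul, mul_assoc c', div_mul_cancel₀ _ hUL.ne']
  have h6 : (1 + 8 * (C / Real.log P.1)) * (Real.exp 1 * (P.2 + RT θ P.1 + 2) / (2 * Real.pi)) ^ (C / Real.log P.1) ≤ c' := by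
    refine le_trans ?_ h1.le
    apply mul_le_mul_of_nonneg_left hKx
    linarith
  obtain ⟨M, hM⟩ : ∃ M : ℝ, M = En riemannZeta₁ P.2 (vT θ P.1) (1/2 + C / Real.log P.1) := ⟨_, rfl⟩
  obtain ⟨M', hM'⟩ : ∃ M' : ℝ, M' = En (fun s => riemannZeta₁ s * Pz p S c s ^ 2) P.2 (vT θ P.1) (1/2 + C / Real.log P.1) := ⟨_, rfl⟩
  have hM0 : 0 ≤ M := by rw [hM]; exact En_nonneg _ _ _ _
  have hM'0 : 0 ≤ M' := by rw [hM']; exact En_nonneg _ _ _ _
  rw [← hM] at hBP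
  rw [← hM, ← hM'] at hE
  rw [← hM']
  obtain ⟨d, hd⟩ : ∃ d : ℝ, d = C / Real.log P.1 := ⟨_, rfl⟩
  obtain ⟨U, hU⟩ : ∃ U : ℝ, U = P.2 * Lam P.1 := ⟨_, rfl⟩
  rw [← hd] at h4 hδ0
  rw [← hU] at hBP hUL1 hUL ⊢
  have h8 : c' * (2 * K * d * M) ≤ η / 2 * U := by
    calc c' * (2 * K * d * M) ≤ c' * (2 * K * d * (B * U)) := by gcongr
      _ = (c' * (2 * K * B) * d) * U := by ring
      _ ≤ (η / 2) * U := by gcongr
  have h9 : η / 2 ≤ η / 2 * U := le_mul_of_one_le_right (half_pos hη).le hUL1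
  have h10 : 0 ≤ M' + 2 * K * d * M := by positivity
  calc _ ≤ _ := hE
    _ ≤ c' * (M' + 2 * K * d * M) + η / 2 := by
        rw [← hd] at h6 ⊢
        exact add_le_add (mul_le_mul_of_nonneg_right h6 h10) herr
    _ ≤ _ := by linarith

end Pool.Agent.LibOM70
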