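import Pool.Agent.LibZM.HB11
import Pool.Agent.LibOM70.Defs

/-! ODD MOMENTS, row H4a. -/

set_option autoImplicit false

namespace Pool.Agent.LibOM70

open MeasureTheory Set Filter Topology Complex ProbabilityTheory
open scoped NNReal ComplexConjugate
open Pool.Agent.LibZM Pool.Agent.LibM3
open Pool.Agent.LibLaw15 hiding Lam

/-- ROW H4a. The first moment (without phases) is bounded on every line to the right.
PROOF. First `C = 2`: `ng(-2) ≤ nm(-2) + nq(-2)` (`tri_ev`), `nm(-2) ≤ 8 nm(2) + 1` (`nm_reflect`, `e^2 < 8`), `nm(2) ≤ ng(2) + nq(2)`, `ng(2) ≤ e^{-4κ} ng(-2) + 1` (`ng_decay`, `κ < θ`,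
take `κ` with `8 e^{-4κ} < 1`, e.g. `κ = 3/5 < θ`), so `ng(-2)` and `nm(2)` are bounded (`nq_tendsto` at `±2`). For other `C > 2`: `nm_mono`; for `0 ≤ C ≤ 2`: the same argument with
`ng(C) ≤ e^{-κ(C+2)} ng(-2) + 1`. -/
theorem nm_bdd {ε : ℝ} (hε : 0 < ε) {θ : ℝ} (hθ0 : 3/5 < θ) (hθ : θ < 1) {C : ℝ} (hC : 0 ≤ C) : ∃ B : ℝ, 0 < B ∧ ∀ᶠ P : ℝ × ℝ in Fl ε, nm θ C P ≤ B := by
  have hθp : 0 < θ := by linarith
  obtain ⟨E, hE⟩ : ∃ E : ℝ, E = Real.exp (-(3/5 * (2 - -2))) := ⟨_, rfl⟩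
  have hE0 : 0 < E := by rw [hE]; exact Real.exp_pos _
  have he1 := Real.exp_one_gt_d9
  have he2 := Real.exp_one_lt_d9
  have hsq : Real.exp 2 = Real.exp 1 ^ 2 := by
    rw [← Real.exp_nat_mul]; norm_num
  have hexp2 : Real.exp 2 < 8 := by
    rw [hsq]; nlinarith [Real.exp_pos 1]
  have hE8 : 8 * E < 1 := by
    have h1 : Real.exp (3/5 * (2 - -2)) = Real.exp 2 * Real.exp (2/5) := by
      rw [← Real.exp_add]; norm_num
    have h2 : (2/5 : ℝ) + 1 ≤ Real.exp (2/5) := Real.add_one_le_exp _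
    have h3 : (7 : ℝ) ≤ Real.exp 2 := by rw [hsq]; nlinarith
    have h4 : 8 < Real.exp (3/5 * (2 - -2)) := by
      rw [h1]; nlinarith
    rw [hE, Real.exp_neg, ← div_eq_mul_inv, div_lt_one (by linarith)]
    exact h4
  obtain ⟨K, hK⟩ : ∃ K : ℝ, K = 8 * (1 + (Pint (1/4) 2 θ + 1)) + 1 + (Pint (1/4) (-2) θ + 1) :=
    ⟨_, rfl⟩
  have hD : 0 < 1 - 8 * E := by linarith
  refine ⟨|K / (1 - 8 * E)| + |Pint (1/4) C θ| + 3, by positivity, ?_⟩
  have q1 := (nq_tendsto hε hθp hθ 2).eventually_lt_const (u := Pint (1/4) 2 θ + 1) (by linarith)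
  have q2 := (nq_tendsto hε hθp hθ (-2)).eventually_lt_const (u := Pint (1/4) (-2) θ + 1)
    (by linarith)
  have q3 := (nq_tendsto hε hθp hθ C).eventually_lt_const (u := Pint (1/4) C θ + 1) (by linarith)
  filter_upwards [q1, q2, q3, tri_ev (θ := θ) hε 2, tri_ev (θ := θ) hε (-2), tri_ev (θ := θ) hε C,
    ng_decay hε hθp hθ (by norm_num : (0 : ℝ) ≤ 3/5) hθ0 (by norm_num : (-2 : ℝ) < 2) one_pos,
    ng_decay hε hθp hθ (by norm_num : (0 : ℝ) ≤ 3/5) hθ0 (by linarith : (-2 : ℝ) < C) one_pos,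
    nm_reflect hε hθp hθ (by norm_num : (0 : ℝ) < 2) hexp2 one_pos, Fl_pos hε]
    with p a1 a2 a3 t1 t2 t3 d1 d2 r1 hp
  have hu0 : 0 < p.2 := by linarith [hp.2]
  have hL := Lam_pos hp.1
  have ng0 : ∀ σ, 0 ≤ ng θ σ p := fun σ => by
    unfold ng
    exact div_nonneg (En_nonneg _ _ _ _) (by positivity)
  rw [← hE] at d1
  have h1 : ng θ (-2) p ≤ K / (1 - 8 * E) := by
    rw [le_div_iff₀ hD, hK]
    linarith [t1.1, t2.2.2]
  have h2 : Real.exp (-(3/5 * (C - -2))) * ng θ (-2) p ≤ ng θ (-2) p := by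
    apply mul_le_of_le_one_left (ng0 _)
    rw [Real.exp_le_one_iff]
    linarith
  have h3 := le_abs_self (K / (1 - 8 * E))
  have h4 := le_abs_self (Pint (1/4) C θ)
  linarith [t3.1]

end Pool.Agent.LibOM70
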