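import Pool.Agent.LibOM70.H3

/-! ODD MOMENTS, row H6. -/

set_option autoImplicit false

namespace Pool.Agent.LibOM70

open MeasureTheory Set Filter Topology Complex ProbabilityTheory
open scoped NNReal ComplexConjugate
open Pool.Agent.LibZM Pool.Agent.LibM3
open Pool.Agent.LibLaw15 hiding Lam

/-- ROW H6. Three lines `1/2`, `1/2 + c₀/log T`, `1/2 + C/log T`.
PROOF. `convex_En` with `F = ζ₁ Pz²` (`growP`), `a = 1/2`, `x = lineT c₀ T`, `b = lineT C T`: `(x-a)/(b-a) = c₀/C` exactly, `M = (C/log T)²`,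
`exp (M/(2 v)) → 1` (`exp_v_tendsto`), and divide by `u Lam = (u Lam)^{1-τ} (u Lam)^τ`. -/
theorem three_lines {ε : ℝ} (hε : 0 < ε) {θ : ℝ} (hθ0 : 0 < θ) (hθ : θ < 1) {c₀ C c' : ℝ} (hc₀ : 0 < c₀) (hC : c₀ < C) (hc' : 1 < c')
    {r : ℕ} {p : Fin r → ℕ} (hp : ∀ i, (p i).Prime) (S : Finset (Fin r → ℕ)) (c : (Fin r → ℕ) → ℂ) :
    ∀ᶠ P : ℝ × ℝ in Fl ε, nmP p S c θ c₀ P ≤ c' * (nmP p S c θ 0 P ^ (1 - c₀ / C) * nmP p S c θ C P ^ (c₀ / C)) := by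
  obtain ⟨K, hK0, hK⟩ := growP hp S c
  have hCpos : 0 < C := hc₀.trans hC
  have hdiff : Differentiable ℂ (fun s => riemannZeta₁ s * Pz p S c s ^ 2) :=
    differentiable_riemannZeta₁.mul ((Pz_diff hp S c).pow 2)
  have f3 := exp_v_tendsto (θ := θ) hθ0.le 1
  filter_upwards [(Fl_fst ε).eventually (f3.eventually_lt_const hc'), (Fl_fst ε).eventually (lineT_mem C), 
    (Fl_fst ε).eventually (lineT_mem c₀), Fl_pos hε, (Fl_fst ε).eventually (four_le_vT hθ0.le)] with P h1 hl1 hl2 hp1 hv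
  have hT0 : 0 < P.1 := by linarith [hp1.1]
  have hu0 : 0 < P.2 := by linarith [hp1.2]
  have hl := Real.log_pos hp1.1
  have hL := Lam_pos hp1.1
  have hv0 : 0 < vT θ P.1 := lt_of_lt_of_le (by norm_num) hv
  have hCl : 0 < C / Real.log P.1 := by positivity
  have hcl : 0 < c₀ / Real.log P.1 := by positivity
  have hccl : c₀ / Real.log P.1 < C / Real.log P.1 := by gcongr
  have e0 : lineT 0 P.1 = 1/2 := by unfold lineT; ring
  have ea : lineT c₀ P.1 = 1/2 + c₀ / Real.log P.1 := rfl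
  have eb : lineT C P.1 = 1/2 + C / Real.log P.1 := rfl
  have hcv := convex_En hdiff (a' := 1/4) (a := lineT 0 P.1) (b := lineT C P.1) (b' := 1) 
    (C := 12 * 1 ^ 2 * Real.exp 1 * K) (by rw [e0]; norm_num) (by rw [e0, eb]; linarith) 
    (by linarith [hl1.2]) (by positivity) (fun x hx y => (hK 1 le_rfl 0 x hx y).1) (u := P.2) hv0 (x := lineT c₀ P.1) (M := 1) 
    ⟨by rw [e0, ea]; linarith, by rw [ea, eb]; linarith⟩ 
    (by have := hl2.1; have := hl2.2; rw [e0]; nlinarith) (by have := hl1.1; have := hl1.2; have := hl2.1; have := hl2.2; nlinarith)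
  have hτ : (lineT c₀ P.1 - lineT 0 P.1) / (lineT C P.1 - lineT 0 P.1) = c₀ / C := by
    rw [e0, ea, eb, add_sub_cancel_left, add_sub_cancel_left]
    field_simp
  rw [hτ] at hcv
  obtain ⟨A, hA⟩ : ∃ A : ℝ, A = En (fun s => riemannZeta₁ s * Pz p S c s ^ 2) P.2 (vT θ P.1) (lineT 0 P.1) := ⟨_, rfl⟩
  obtain ⟨B, hB⟩ : ∃ B : ℝ, B = En (fun s => riemannZeta₁ s * Pz p S c s ^ 2) P.2 (vT θ P.1) (lineT C P.1) := ⟨_, rfl⟩
  obtain ⟨X, hX⟩ : ∃ X : ℝ, X = En (fun s => riemannZeta₁ s * Pz p S c s ^ 2) P.2 (vT θ P.1) (lineT c₀ P.1) := ⟨_, rfl⟩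
  have hA0 : 0 ≤ A := by rw [hA]; exact En_nonneg _ _ _ _
  have hB0 : 0 ≤ B := by rw [hB]; exact En_nonneg _ _ _ _
  rw [← hA, ← hB, ← hX] at hcv
  unfold nmP
  rw [← hA, ← hB, ← hX]
  obtain ⟨U, hU⟩ : ∃ U : ℝ, U = P.2 * Lam P.1 := ⟨_, rfl⟩
  have hU0 : 0 < U := by rw [hU]; positivity
  rw [← hU, div_le_iff₀ hU0]
  have hUU : U ^ (1 - c₀ / C) * U ^ (c₀ / C) = U := by
    rw [← Real.rpow_add hU0, sub_add_cancel, Real.rpow_one]
  have hU1 : 0 < U ^ (1 - c₀ / C) := Real.rpow_pos_of_pos hU0 _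
  have hU2 : 0 < U ^ (c₀ / C) := Real.rpow_pos_of_pos hU0 _
  rw [Real.div_rpow hA0 hU0.le, Real.div_rpow hB0 hU0.le]
  have h2 : 0 ≤ A ^ (1 - c₀ / C) * B ^ (c₀ / C) := by positivity
  calc X ≤ Real.exp (1 / (2 * (vT θ P.1 : ℝ))) * (A ^ (1 - c₀ / C) * B ^ (c₀ / C)) := hcv
    _ ≤ c' * (A ^ (1 - c₀ / C) * B ^ (c₀ / C)) := mul_le_mul_of_nonneg_right h1.le h2
    _ = c' * (A ^ (1 - c₀ / C) / U ^ (1 - c₀ / C) * (B ^ (c₀ / C) / U ^ (c₀ / C))) * (U ^ (1 - c₀ / C) * U ^ (c₀ / C)) := by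
        field_simp
    _ = _ := by rw [hUU]

end Pool.Agent.LibOM70
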