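import Pool.Agent.LibOM70.Defs
import Pool.Agent.LibLaw15.T4
import Pool.Agent.LibLaw15.T7

/-! ODD MOMENTS, row S6. -/

set_option autoImplicit false

namespace Pool.Agent.LibOM70

open MeasureTheory Set Filter Topology Complex ProbabilityTheory
open scoped NNReal ComplexConjugate
open Pool.Agent.LibZM Pool.Agent.LibM3
open Pool.Agent.LibLaw15 hiding Lam

/-- ROW S6a. The local factor is a Fourier coefficient of `ab r` (pattern of `lam_circle`, `poisson` in LibLaw15/T4.lean).
PROOF. `half_series`: `ab r x = ‖∑' dcoef (1/2) i r^i fourier i x‖²`, `T4_sq`, `circ_series` with `c i = d i = dcoef (1/2) i * r^i`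
(`T4_summable`), then `T4_sum_pos`, `T4_sum_neg` according to the sign of `a`. -/
theorem cc_circle {r : ℝ} (hr : 0 ≤ r) (hr1 : r < 1) (a : ℤ) :
    ((cc r a.toNat (-a).toNat : ℝ) : ℂ) = ∫ x : UnitAddCircle, fourier a x * ((ab r x : ℝ) : ℂ) ∂(AddCircle.haarAddCircle) := by
  have hs := T4_summable (α := 1/2) (by norm_num) hr hr1
  have h := circ_series hs hs a
  have h1 : ∀ x : UnitAddCircle, (∑' i : ℕ, ((dcoef (1/2) i * r ^ i : ℝ) : ℂ) * fourier (i:ℤ) x) *
      conj (∑' j : ℕ, ((dcoef (1/2) j * r ^ j : ℝ) : ℂ) * fourier (j:ℤ) x) * fourier a x =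
      fourier a x * ((ab r x : ℝ) : ℂ) := by
    intro x
    rw [T4_sq (half_series hr hr1 x), mul_comm]
  rw [integral_congr_ae (Eventually.of_forall h1)] at h
  rw [h]
  congr 1
  unfold cc
  rcases Int.eq_nat_or_neg a with ⟨n, rfl | rfl⟩
  · refine Eq.trans ?_ (T4_sum_pos (fun e => dcoef (1/2) e.1 * r ^ e.1 * (dcoef (1/2) e.2 * r ^ e.2)) n).symm
    refine tsum_congr fun i => ?_
    have e1 : ((n : ℤ)).toNat = n := Int.toNat_natCast n
    have e2 : (-(n : ℤ)).toNat = 0 := Int.toNat_neg_natCast n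
    rw [e1, e2]
    simp only [add_zero]
    rw [show 2 * i + n = i + (i + n) by ring, pow_add]
    ring
  · refine Eq.trans ?_ (T4_sum_neg (fun e => dcoef (1/2) e.1 * r ^ e.1 * (dcoef (1/2) e.2 * r ^ e.2)) n).symm
    refine tsum_congr fun i => ?_
    have e1 : (-(-(n : ℤ))).toNat = n := by rw [neg_neg]; exact Int.toNat_natCast n
    have e2 : (-(n : ℤ)).toNat = 0 := Int.toNat_neg_natCast n
    rw [e1, e2]
    simp only [add_zero]
    rw [show 2 * i + n = i + (i + n) by ring, pow_add]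
    ring

/-- ROW S6b. Product form (`torus_prod` with `k = 1`, `rp_mem`). -/
theorem prod_cc {r : ℕ} {p : Fin r → ℕ} (hp : ∀ i, (p i).Prime) (a : Fin r → ℤ) :
    ((∏ i, cc (rp (p i)) (a i).toNat (-(a i)).toNat : ℝ) : ℂ) = ∫ x, UnitAddTorus.mFourier a x * ((ET p x : ℝ) : ℂ) ∂(muT r) := by
  have h := torus_prod p a 1
  simp only [pow_one] at h
  rw [h]
  push_cast
  refine Finset.prod_congr rfl fun i _ => ?_
  exact cc_circle (rp_mem (hp i)).1.le (rp_mem (hp i)).2.1 (a i)

/-- The series of `cc r 0 0` starts with `1`. -/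
theorem s6_cc_ge {r : ℝ} (hr : 0 ≤ r) (hr1 : r < 1) : 1 ≤ cc r 0 0 := by
  unfold cc
  have hnn : ∀ e : ℕ, 0 ≤ dcoef (1/2) (e + 0) * dcoef (1/2) (e + 0) * r ^ (2 * e + 0 + 0) := by
    intro e
    have h1 := dcoef_nonneg (α := 1/2) (by norm_num) (e + 0)
    positivity
  have hs : Summable fun e : ℕ =>
      dcoef (1/2) (e + 0) * dcoef (1/2) (e + 0) * r ^ (2 * e + 0 + 0) := by
    refine Summable.of_nonneg_of_le hnn (fun e => ?_)
      (summable_geometric_of_lt_one (r := r ^ 2) (by positivity) (by nlinarith))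
    have h1 := dcoef_nonneg (α := 1/2) (by norm_num) (e + 0)
    have h2 := t2_half_le (e + 0)
    have h3 : dcoef (1/2) (e + 0) * dcoef (1/2) (e + 0) ≤ 1 := by nlinarith
    have h4 : 0 ≤ (r ^ 2) ^ e := by positivity
    calc dcoef (1/2) (e + 0) * dcoef (1/2) (e + 0) * r ^ (2 * e + 0 + 0)
        = dcoef (1/2) (e + 0) * dcoef (1/2) (e + 0) * (r ^ 2) ^ e := by
          simp only [add_zero, pow_mul]
      _ ≤ 1 * (r ^ 2) ^ e := mul_le_mul_of_nonneg_right h3 h4
      _ = (r ^ 2) ^ e := one_mul _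
  have h := hs.le_tsum 0 fun e _ => hnn e
  simpa using h

theorem s6_prod {r : ℕ} {p : Fin r → ℕ} (hp : ∀ i, (p i).Prime) :
    MT1 p 1 = ∏ i, cc (rp (p i)) 0 0 := by
  have h := prod_cc hp 0
  have h1 : ∀ x : Tor r, (UnitAddTorus.mFourier (0 : Fin r → ℤ) x : ℂ) * ((ET p x : ℝ) : ℂ) =
      ((ET p x : ℝ) : ℂ) := by
    intro x
    rw [UnitAddTorus.mFourier_zero]
    simp
  rw [integral_congr_ae (Eventually.of_forall h1), integral_complex_ofReal] at h
  have h2 := Complex.ofReal_injective h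
  unfold MT1
  simp only [Pi.one_apply, one_mul]
  rw [← h2]
  simp

/-- Integrability of the integrands of `MT1`. -/
theorem s6_int {r : ℕ} {p : Fin r → ℕ} (hp : ∀ i, (p i).Prime) {w : Tor r → ℝ}
    (hw : Continuous w) : Integrable (fun x => w x * ET p x) (muT r) := by
  have h : Continuous fun x => w x * ET p x := hw.mul (ET_props hp).1
  have h1 := h.continuousOn.integrableOn_compact (μ := muT r) isCompact_univ
  rwa [integrableOn_univ] at h1

/-- ROW S6c. The normalisation (`prod_cc` with `a = 0`; `ET_props` for positivity, or `cc r 0 0 ≥ 1`). -/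
theorem MT1_one {r : ℕ} {p : Fin r → ℕ} (hp : ∀ i, (p i).Prime) : 0 < MT1 p 1 ∧ MT1 p 1 = ∏ i, cc (rp (p i)) 0 0 := by
  refine ⟨?_, s6_prod hp⟩
  rw [s6_prod hp]
  refine Finset.prod_pos fun i _ => ?_
  have h := s6_cc_ge (rp_mem (hp i)).1.le (rp_mem (hp i)).2.1
  linarith

/-- ROW S6d. `TM1` is linear, monotone and normalised. -/
theorem TM1_props {r : ℕ} {p : Fin r → ℕ} (hp : ∀ i, (p i).Prime) : TM1 p 1 = 1 ∧
    (∀ w : Tor r → ℝ, (∀ x, 0 ≤ w x) → 0 ≤ TM1 p w) ∧
    (∀ w w' : Tor r → ℝ, Continuous w → Continuous w' → (∀ x, w x ≤ w' x) → TM1 p w ≤ TM1 p w') ∧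
    (∀ w : Tor r → ℝ, Continuous w → ∀ δ : ℝ, TM1 p (fun x => w x + δ) = TM1 p w + δ) := by
  have hpos := (MT1_one hp).1
  have hE := (ET_props hp).2
  refine ⟨div_self hpos.ne', ?_, ?_, ?_⟩
  · intro w hw
    unfold TM1
    refine div_nonneg ?_ hpos.le
    unfold MT1
    exact integral_nonneg fun x => mul_nonneg (hw x) (hE x).le
  · intro w w' hw hw' h
    unfold TM1
    refine div_le_div_of_nonneg_right ?_ hpos.le
    unfold MT1
    exact integral_mono (s6_int hp hw) (s6_int hp hw') fun x =>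
      mul_le_mul_of_nonneg_right (h x) (hE x).le
  · intro w hw δ
    have h1 : MT1 p (fun x => w x + δ) = MT1 p w + δ * MT1 p 1 := by
      unfold MT1
      have h2 : Integrable (fun x => (1 : Tor r → ℝ) x * ET p x) (muT r) :=
        s6_int hp (w := (1 : Tor r → ℝ)) continuous_one
      rw [← integral_const_mul, ← integral_add (s6_int hp hw) (h2.const_mul δ)]
      refine integral_congr_ae (Eventually.of_forall fun x => ?_)
      simp only [Pi.one_apply]
      ring
    unfold TM1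
    rw [h1]
    field_simp

end Pool.Agent.LibOM70
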