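import Pool.Agent.LibOM70.H2
import Pool.Agent.LibOM70.H4
import Pool.Agent.LibOM70.H6
import Pool.Agent.LibOM70.H3t
import Pool.Agent.LibOM70.S6

/-! ODD MOMENTS, row H7. -/

set_option autoImplicit false

namespace Pool.Agent.LibOM70

open MeasureTheory Set Filter Topology Complex ProbabilityTheory
open scoped NNReal ComplexConjugate
open Pool.Agent.LibZM Pool.Agent.LibM3
open Pool.Agent.LibLaw15 hiding Lam

theorem H7_val {a b X : ℝ} (ha : 0 < a) (hb : 0 < b) (hX : 0 < X) :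
    (a * X / (b * X) ^ (5/8 : ℝ)) ^ (8/3 : ℝ) = a ^ (8/3 : ℝ) / b ^ (5/3 : ℝ) * X := by
  rw [Real.div_rpow (by positivity) (by positivity), ← Real.rpow_mul (by positivity), Real.mul_rpow ha.le hX.le,
    Real.mul_rpow hb.le hX.le]
  have e1 : (5/8 : ℝ) * (8/3) = 5/3 := by norm_num
  rw [e1]
  have e2 : X ^ (8/3 : ℝ) = X ^ (5/3 : ℝ) * X := by
    rw [← Real.rpow_add_one hX.ne']
    norm_num
  rw [e2]
  have h1 : 0 < X ^ (5/3 : ℝ) := Real.rpow_pos_of_pos hX _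
  have h2 : 0 < b ^ (5/3 : ℝ) := Real.rpow_pos_of_pos hb _
  field_simp

theorem H7_nonneg {ε : ℝ} (hε : 0 < ε) (θ σ : ℝ) {r : ℕ} (p : Fin r → ℕ) (S : Finset (Fin r → ℕ)) (c : (Fin r → ℕ) → ℂ) :
    ∀ᶠ P : ℝ × ℝ in Fl ε, 0 ≤ nmP p S c θ σ P ∧ 0 ≤ ngP p S c θ σ P := by
  filter_upwards [Fl_pos hε] with P hP
  have h1 : 0 < P.2 := by linarith [hP.2]
  have h2 := Lam_pos hP.1
  unfold nmP ngP
  exact ⟨div_nonneg (En_nonneg _ _ _ _) (by positivity), div_nonneg (En_nonneg _ _ _ _) (by positivity)⟩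

/-- ROW H7. The lower bound on the critical line.
PROOF. Write `X = TM1 p (wP S c) ≥ 0` (`TM1_props`); if `X = 0` or `cL1 X ≤ δ` it is trivial (`nmP ≥ 0`). Fix `θ < 1`, `κ < θ` close to `1` (`exists_theta`, `Pint_cont`: `Pint (1/4) σ θ → pp σ`
as `θ → 1` for `σ = -2, 2, 5, 8`). Then eventually, up to small errors: `ngP(-2) ≤ nmP(-2) + nqP(-2)`, `nmP(-2) ≤ e² nmP(2)` (`reflectP`), `nmP(2) ≤ ngP(2) + nqP(2)`,
`ngP(2) ≤ e^{-4κ} ngP(-2)` (`ngP_decay`), so `ngP(-2) (1 - e^{2-4κ}) ≤ e² pp(2) X + pp(-2) X`; `ngP(5) ≤ e^{-7κ} ngP(-2) → ≤ gg 5 X`, `ngP(8) ≤ gg 8 X`;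
`nmP(5) ≥ nqP(5) - ngP(5) ≥ (pp 5 - gg 5) X`, `nmP(8) ≤ (pp 8 + gg 8) X` (`triP`, `nqP_tendsto`); `three_lines` with `c₀ = 5`, `C = 8`:
`nmP(0)^{3/8} ≥ nmP(5)/(c' nmP(8)^{5/8})`, i.e. `nmP(0) ≥ X (pp 5 - gg 5)^{8/3}/(pp 8 + gg 8)^{5/3}` up to a small error. Positivity of `pp 5 - gg 5`: assume it as hypothesis `hpos`. -/
theorem nmP_lower (hpos : 0 < pp 5 - gg 5 ∧ 0 < pp 8 + gg 8) {r : ℕ} {p : Fin r → ℕ} (hp : ∀ i, (p i).Prime) (hinj : Function.Injective p)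
    (S : Finset (Fin r → ℕ)) (c : (Fin r → ℕ) → ℂ) {δ : ℝ} (hδ : 0 < δ) :
    ∃ θ : ℝ, 0 < θ ∧ θ < 1 ∧ ∀ ε : ℝ, 0 < ε → ∀ᶠ P : ℝ × ℝ in Fl ε, cL1 * TM1 p (wP S c) - δ ≤ nmP p S c θ 0 P := by
  obtain ⟨hpos1, hpos2⟩ := hpos
  obtain ⟨-, hTM, -, -⟩ := TM1_props hp
  have hX0 : 0 ≤ TM1 p (wP S c) := hTM _ (wP_props S c).2.1
  obtain ⟨X, hX⟩ : ∃ X : ℝ, X = TM1 p (wP S c) := ⟨_, rfl⟩
  rw [← hX] at hX0 ⊢
  rcases hX0.eq_or_lt with h0 | h0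
  · refine ⟨1/2, by norm_num, by norm_num, fun ε hε => ?_⟩
    filter_upwards [H7_nonneg hε (1/2) 0 p S c] with P hP
    rw [← h0, mul_zero]
    linarith [hP.1]
  obtain ⟨e, he⟩ : ∃ e : ℝ → ℝ, e = fun θ => 1 - θ := ⟨_, rfl⟩
  obtain ⟨D, hD⟩ : ∃ D : ℝ → ℝ, D = fun θ => 1 - θ⁻¹ * Real.exp 2 * Real.exp (-(θ ^ 2 * (2 - (-2)))) := ⟨_, rfl⟩
  obtain ⟨Nf, hN⟩ : ∃ Nf : ℝ → ℝ, Nf = fun θ => θ⁻¹ * Real.exp 2 * (e θ + (Pint (1/4) 2 θ * X + e θ)) + e θ +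
    (Pint (1/4) (-2) θ * X + e θ) := ⟨_, rfl⟩
  obtain ⟨Lo, hLo⟩ : ∃ Lo : ℝ → ℝ, Lo = fun θ => (Pint (1/4) 5 θ * X - e θ) -
    (Real.exp (-(θ ^ 2 * (5 - (-2)))) * (Nf θ / D θ) + e θ) := ⟨_, rfl⟩
  obtain ⟨Up, hUp⟩ : ∃ Up : ℝ → ℝ, Up = fun θ => (Real.exp (-(θ ^ 2 * (8 - (-2)))) * (Nf θ / D θ) + e θ) +
    (Pint (1/4) 8 θ * X + e θ) := ⟨_, rfl⟩
  obtain ⟨F, hF⟩ : ∃ F : ℝ → ℝ, F = fun θ => (Lo θ / (θ⁻¹ * Up θ ^ (5/8 : ℝ))) ^ (8/3 : ℝ) := ⟨_, rfl⟩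
  have c3 : ContinuousAt (fun θ : ℝ => θ⁻¹) 1 := continuousAt_inv₀ one_ne_zero
  have ce : ContinuousAt e 1 := by rw [he]; fun_prop
  have cD : ContinuousAt D 1 := by rw [hD]; fun_prop
  have p2 := Pint_cont 2
  have pm2 := Pint_cont (-2)
  have p5 := Pint_cont 5
  have p8 := Pint_cont 8
  have cN : ContinuousAt Nf 1 := by rw [hN]; fun_prop
  have he1 : e 1 = 0 := by rw [he]; norm_num
  have hD1 : D 1 = 1 - Real.exp (-2) := by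
    rw [hD]
    simp only
    rw [inv_one, one_mul, ← Real.exp_add]
    congr 2
    norm_num
  have hDpos : 0 < D 1 := by
    rw [hD1]
    have : Real.exp (-2) < 1 := by
      rw [Real.exp_lt_one_iff]
      norm_num
    linarith
  have hN1 : Nf 1 = (Real.exp 2 * pp 2 + pp (-2)) * X := by
    rw [hN]
    simp only
    rw [he1, inv_one]
    unfold pp
    ring
  have cND : ContinuousAt (fun θ => Nf θ / D θ) 1 := cN.div cD hDpos.ne'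
  have cLo : ContinuousAt Lo 1 := by rw [hLo]; fun_prop
  have cUp : ContinuousAt Up 1 := by rw [hUp]; fun_prop
  have hLo1 : Lo 1 = (pp 5 - gg 5) * X := by
    rw [hLo]
    simp only
    rw [he1, hN1, hD1]
    unfold gg
    have e1 : Real.exp (-(1 ^ 2 * (5 - (-2)))) = Real.exp (-(5 + 2)) := by congr 1; norm_num
    rw [e1]
    unfold pp
    ring
  have hUp1 : Up 1 = (pp 8 + gg 8) * X := by
    rw [hUp]
    simp only
    rw [he1, hN1, hD1]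
    unfold gg
    have e1 : Real.exp (-(1 ^ 2 * (8 - (-2)))) = Real.exp (-(8 + 2)) := by congr 1; norm_num
    rw [e1]
    unfold pp
    ring
  have hLopos : 0 < Lo 1 := by rw [hLo1]; positivity
  have hUppos : 0 < Up 1 := by rw [hUp1]; positivity
  have hF1 : F 1 = cL1 * X := by
    rw [hF]
    simp only
    rw [inv_one, one_mul, hLo1, hUp1]
    exact H7_val hpos1 hpos2 h0
  have cF : ContinuousAt F 1 := by
    rw [hF]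
    have cU : ContinuousAt (fun θ => Up θ ^ (5/8 : ℝ)) 1 := cUp.rpow_const (Or.inl hUppos.ne')
    have hne : (1:ℝ)⁻¹ * Up 1 ^ (5/8 : ℝ) ≠ 0 := by
      have := Real.rpow_pos_of_pos hUppos (5/8 : ℝ)
      positivity
    exact (cLo.div (c3.mul cU) hne).rpow_const (Or.inr (by norm_num))
  have h1 : ∀ᶠ θ in 𝓝 (1:ℝ), cL1 * X - δ < F θ := cF.eventually_const_lt (by rw [hF1]; linarith)
  have h2 : ∀ᶠ θ in 𝓝 (1:ℝ), 0 < D θ := cD.eventually_const_lt hDpos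
  have h3 : ∀ᶠ θ in 𝓝 (1:ℝ), 0 < Lo θ := cLo.eventually_const_lt hLopos
  have h4 : ∀ᶠ θ in 𝓝 (1:ℝ), 0 < Up θ := cUp.eventually_const_lt hUppos
  have h5 : ∀ᶠ θ in 𝓝 (1:ℝ), 3/5 < θ := lt_mem_nhds (by norm_num)
  obtain ⟨θ, hθ0, hθ1, g1, g2, g3, g4, g5⟩ := exists_theta (h1.and (h2.and (h3.and (h4.and h5))))
  refine ⟨θ, hθ0, hθ1, fun ε hε => ?_⟩
  have hη : 0 < 1 - θ := by linarith
  have hκ0 : 0 ≤ θ ^ 2 := sq_nonneg _
  have hκ1 : θ ^ 2 < θ := by nlinarith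
  have hinv : 1 < θ⁻¹ := (one_lt_inv₀ hθ0).2 hθ1
  have hc' : Real.exp 2 < θ⁻¹ * Real.exp 2 := by
    have := Real.exp_pos 2
    nlinarith
  have q2 := (nqP_tendsto hε hθ0 hθ1 2 hp hinj S c).eventually_lt_const (show _ < Pint (1/4) 2 θ * TM1 p (wP S c) + (1 - θ) by linarith)
  have qm2 := (nqP_tendsto hε hθ0 hθ1 (-2) hp hinj S c).eventually_lt_const (show _ < Pint (1/4) (-2) θ * TM1 p (wP S c) + (1 - θ) by linarith)
  have q8 := (nqP_tendsto hε hθ0 hθ1 8 hp hinj S c).eventually_lt_const (show _ < Pint (1/4) 8 θ * TM1 p (wP S c) + (1 - θ) by linarith)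
  have q5 := (nqP_tendsto hε hθ0 hθ1 5 hp hinj S c).eventually_const_lt (show Pint (1/4) 5 θ * TM1 p (wP S c) - (1 - θ) < _ by linarith)
  rw [← hX] at q2 qm2 q8 q5
  filter_upwards [q2, qm2, q5, q8, triP hε θ (-2) hp S c, triP hε θ 2 hp S c, triP hε θ 5 hp S c, triP hε θ 8 hp S c,
    reflectP hε g5 hθ1 (by norm_num : (0:ℝ) < 2) hc' hη hp S c,
    ngP_decay hε hθ0 hθ1 hκ0 hκ1 (by norm_num : (-2:ℝ) < 2) hη hp S c,
    ngP_decay hε hθ0 hθ1 hκ0 hκ1 (by norm_num : (-2:ℝ) < 5) hη hp S c,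
    ngP_decay hε hθ0 hθ1 hκ0 hκ1 (by norm_num : (-2:ℝ) < 8) hη hp S c,
    three_lines hε hθ0 hθ1 (by norm_num : (0:ℝ) < 5) (by norm_num : (5:ℝ) < 8) hinv hp S c,
    H7_nonneg hε θ 0 p S c, H7_nonneg hε θ 8 p S c, H7_nonneg hε θ (-2) p S c] with P
    r1 r2 r3 r4 t1 t2 t3 t4 rf d2 d5 d8 tl n0 n8 nm2
  obtain ⟨a, ha⟩ : ∃ a : ℝ, a = ngP p S c θ (-2) P := ⟨_, rfl⟩
  rw [← ha] at t1 d2 d5 d8 nm2
  have hkpos : 0 < θ⁻¹ * Real.exp 2 := by positivity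
  have k1 : a ≤ θ⁻¹ * Real.exp 2 * (Real.exp (-(θ ^ 2 * (2 - (-2)))) * a + (1 - θ) + (Pint (1/4) 2 θ * X + (1 - θ))) + (1 - θ) +
      (Pint (1/4) (-2) θ * X + (1 - θ)) := by
    have k2 : nmP p S c θ 2 P ≤ Real.exp (-(θ ^ 2 * (2 - (-2)))) * a + (1 - θ) + (Pint (1/4) 2 θ * X + (1 - θ)) := by
      exact t2.1.trans (add_le_add d2 r1.le)
    have k3 := mul_le_mul_of_nonneg_left k2 hkpos.le
    exact t1.2.2.trans (add_le_add (rf.trans (add_le_add k3 le_rfl)) r2.le)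
  have k4 : a * D θ ≤ Nf θ := by
    rw [hD, hN, he]
    simp only
    nlinarith
  have k5 : a ≤ Nf θ / D θ := (le_div_iff₀ g2).2 k4
  have k6 : Lo θ ≤ nmP p S c θ 5 P := by
    have k7 := mul_le_mul_of_nonneg_left k5 (Real.exp_pos (-(θ ^ 2 * (5 - (-2))))).le
    have k7' := add_le_add k7 (le_refl (1 - θ))
    have k7'' := d5.trans k7'
    have k7a : nqP p S c θ 5 P - ngP p S c θ 5 P ≤ nmP p S c θ 5 P := by
      have := t3.2.1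
      linarith
    rw [hLo, he]
    exact (sub_le_sub r3.le k7'').trans k7a
  have k8 : nmP p S c θ 8 P ≤ Up θ := by
    have k7 := mul_le_mul_of_nonneg_left k5 (Real.exp_pos (-(θ ^ 2 * (8 - (-2))))).le
    have k7' := add_le_add k7 (le_refl (1 - θ))
    have k7'' := d8.trans k7'
    rw [hUp, he]
    exact t4.1.trans (add_le_add k7'' r4.le)
  have e58 : (1 - 5/8 : ℝ) = 3/8 := by norm_num
  rw [e58] at tl
  have hUps : 0 < Up θ ^ (5/8 : ℝ) := Real.rpow_pos_of_pos g4 _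
  have k9 : Lo θ / (θ⁻¹ * Up θ ^ (5/8 : ℝ)) ≤ nmP p S c θ 0 P ^ (3/8 : ℝ) := by
    rw [div_le_iff₀ (by positivity)]
    have k10 : nmP p S c θ 8 P ^ (5/8 : ℝ) ≤ Up θ ^ (5/8 : ℝ) := Real.rpow_le_rpow n8.1 k8 (by norm_num)
    have k11 : 0 ≤ nmP p S c θ 0 P ^ (3/8 : ℝ) := Real.rpow_nonneg n0.1 _
    calc Lo θ ≤ nmP p S c θ 5 P := k6
      _ ≤ θ⁻¹ * (nmP p S c θ 0 P ^ (3/8 : ℝ) * nmP p S c θ 8 P ^ (5/8 : ℝ)) := tl
      _ ≤ θ⁻¹ * (nmP p S c θ 0 P ^ (3/8 : ℝ) * Up θ ^ (5/8 : ℝ)) := by gcongr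
      _ = nmP p S c θ 0 P ^ (3/8 : ℝ) * (θ⁻¹ * Up θ ^ (5/8 : ℝ)) := by ring
  have k12 : F θ ≤ nmP p S c θ 0 P := by
    rw [hF]
    simp only
    have k13 := Real.rpow_le_rpow (by positivity) k9 (by norm_num : (0:ℝ) ≤ 8/3)
    rw [← Real.rpow_mul n0.1] at k13
    have e2 : (3/8 : ℝ) * (8/3) = 1 := by norm_num
    rw [e2, Real.rpow_one] at k13
    exact k13
  linarith

end Pool.Agent.LibOM70
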