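import Pool.Agent.LibOM70.Defs

/-! ODD MOMENTS, row H9a. -/

set_option autoImplicit false

namespace Pool.Agent.LibOM70

open MeasureTheory Set Filter Topology Complex ProbabilityTheory
open scoped NNReal ComplexConjugate
open Pool.Agent.LibZM Pool.Agent.LibM3
open Pool.Agent.LibLaw15 hiding Lam

private lemma h9a_norm {r : ℕ} (n : Fin r → ℤ) (x : Tor r) : ‖UnitAddTorus.mFourier n x‖ = 1 := by
  simp only [UnitAddTorus.mFourier, fourier_apply, ContinuousMap.coe_mk, norm_prod, Circle.norm_coe,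
      Finset.prod_const_one]

private lemma h9a_shift {r : ℕ} (A : Finset (Fin r → ℤ)) (d : (Fin r → ℤ) → ℂ) :
    ∃ (S : Finset (Fin r → ℕ)) (c : (Fin r → ℕ) → ℂ), ∀ x : Tor r,
      wP S c x = ‖∑ a ∈ A, d a * UnitAddTorus.mFourier a x‖ ^ 2 := by
  classical
  obtain ⟨M, hM⟩ : ∃ M : ℕ, ∀ a ∈ A, ∀ i, a i ≤ (M : ℤ) := by
    refine ⟨∑ a ∈ A, ∑ i, (a i).toNat, fun a ha i => ?_⟩
    have h1 : (a i).toNat ≤ ∑ i, (a i).toNat :=
      Finset.single_le_sum (f := fun i => (a i).toNat) (fun _ _ => Nat.zero_le _) (Finset.mem_univ i)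
    have h2 : ∑ i, (a i).toNat ≤ ∑ a ∈ A, ∑ i, (a i).toNat :=
      Finset.single_le_sum (f := fun a : Fin r → ℤ => ∑ i, (a i).toNat) (fun _ _ => Nat.zero_le _) ha
    have h3 : a i ≤ ((a i).toNat : ℤ) := Int.self_le_toNat _
    have h4 : ((a i).toNat : ℤ) ≤ ((∑ a ∈ A, ∑ i, (a i).toNat : ℕ) : ℤ) := by exact_mod_cast h1.trans h2
    exact h3.trans h4
  set φ : (Fin r → ℤ) → (Fin r → ℕ) := fun a i => ((M : ℤ) - a i).toNat with hφ
  set ψ : (Fin r → ℕ) → (Fin r → ℤ) := fun b i => (M : ℤ) - b i with hψ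
  have hψφ : ∀ a ∈ A, ψ (φ a) = a := by
    intro a ha
    funext i
    have := hM a ha i
    simp only [hφ, hψ]
    rw [Int.toNat_of_nonneg (by linarith)]
    ring
  refine ⟨A.image φ, fun b => d (ψ b), fun x => ?_⟩
  unfold wP
  rw [Finset.sum_image]
  · have : ∑ a ∈ A, d (ψ (φ a)) * UnitAddTorus.mFourier (fun i => -(φ a i : ℤ)) x
        = UnitAddTorus.mFourier (fun _ => -(M : ℤ)) x * ∑ a ∈ A, d a * UnitAddTorus.mFourier a x := by
      rw [Finset.mul_sum]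
      refine Finset.sum_congr rfl fun a ha => ?_
      rw [hψφ a ha]
      have : (fun i => -(φ a i : ℤ)) = (fun _ => -(M : ℤ)) + a := by
        funext i
        have := hM a ha i
        simp only [hφ, Pi.add_apply]
        rw [Int.toNat_of_nonneg (by linarith)]
        ring
      rw [this, UnitAddTorus.mFourier_add]
      ring
    rw [this, norm_mul, h9a_norm, one_mul]
  · intro a ha b hb hab
    rw [← hψφ a ha, ← hψφ b hb, hab]

/-- ROW H9a. Every continuous weight `≥ 0` is uniformly close to some `wP S c`.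
PROOF. `√w` is continuous; trigonometric polynomials are dense in `C(Tor r, ℂ)` (`UnitAddTorus.span_mFourier_closure_eq_top`), so `‖√w - Q‖_∞ ≤ δ'` with `Q = ∑_{a ∈ A} d_a mFourier a`,
`A` finite; multiply by `mFourier (-M)`, `M ≥ a_i` for all `a ∈ A` and `i`: same modulus, exponents `a - M = -b`, `b : Fin r → ℕ`. `||Q|² - w| ≤ δ'(2 ‖√w‖_∞ + δ')`. -/
theorem wP_dense {r : ℕ} {w : Tor r → ℝ} (hw : Continuous w) (hw0 : ∀ x, 0 ≤ w x) {δ : ℝ} (hδ : 0 < δ) :
    ∃ (S : Finset (Fin r → ℕ)) (c : (Fin r → ℕ) → ℂ), ∀ x : Tor r, |wP S c x - w x| ≤ δ := by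
  classical
  set f : C(Tor r, ℂ) := ⟨fun x => ((√(w x) : ℝ) : ℂ), by fun_prop⟩ with hf
  have hfn : ∀ x, ‖f x‖ ^ 2 = w x := by
    intro x
    have : f x = ((√(w x) : ℝ) : ℂ) := rfl
    rw [this, Complex.norm_real, Real.norm_eq_abs, sq_abs, Real.sq_sqrt (hw0 x)]
  set K : ℝ := ‖f‖ with hK
  have hK0 : 0 ≤ K := norm_nonneg _
  set δ' : ℝ := min 1 (δ / (2 * K + 1)) with hδ'
  have hδ'0 : 0 < δ' := lt_min one_pos (by positivity)
  have hcl : f ∈ (Submodule.span ℂ (range (UnitAddTorus.mFourier (d := Fin r)))).topologicalClosure := by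
    rw [UnitAddTorus.span_mFourier_closure_eq_top]
    exact Submodule.mem_top
  rw [← SetLike.mem_coe, Submodule.topologicalClosure_coe, Metric.mem_closure_iff] at hcl
  obtain ⟨g, hg, hfg⟩ := hcl δ' hδ'0
  rw [SetLike.mem_coe, Finsupp.mem_span_range_iff_exists_finsupp] at hg
  obtain ⟨d, hd⟩ := hg
  obtain ⟨S, c, hSc⟩ := h9a_shift d.support d
  refine ⟨S, c, fun x => ?_⟩
  have hgx : ∑ a ∈ d.support, d a * UnitAddTorus.mFourier a x = g x := by
    rw [← hd, Finsupp.sum, ContinuousMap.sum_apply]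
    rfl
  rw [hSc, hgx, ← hfn x]
  have h1 : ‖f x - g x‖ ≤ δ' := by
    have := ContinuousMap.norm_coe_le_norm (f - g) x
    rw [dist_eq_norm] at hfg
    exact this.trans hfg.le
  have h2 : ‖f x‖ ≤ K := ContinuousMap.norm_coe_le_norm f x
  have h3 : |‖g x‖ - ‖f x‖| ≤ δ' := by
    rw [abs_sub_comm]
    exact (abs_norm_sub_norm_le _ _).trans h1
  have h4 : ‖g x‖ ≤ K + δ' := by
    have := (abs_le.mp h3).2
    linarith
  have h5 : |‖g x‖ ^ 2 - ‖f x‖ ^ 2| = |‖g x‖ - ‖f x‖| * (‖g x‖ + ‖f x‖) := by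
    rw [show ‖g x‖ ^ 2 - ‖f x‖ ^ 2 = (‖g x‖ - ‖f x‖) * (‖g x‖ + ‖f x‖) by ring, abs_mul,
      abs_of_nonneg (a := ‖g x‖ + ‖f x‖) (by positivity)]
  rw [h5]
  have h6 : ‖g x‖ + ‖f x‖ ≤ 2 * K + 1 := by
    have : δ' ≤ 1 := min_le_left _ _
    linarith
  calc |‖g x‖ - ‖f x‖| * (‖g x‖ + ‖f x‖) ≤ δ' * (2 * K + 1) :=
        mul_le_mul h3 h6 (by positivity) hδ'0.le
    _ ≤ δ / (2 * K + 1) * (2 * K + 1) := by
        gcongr
        exact min_le_right _ _
    _ = δ := by field_simp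

end Pool.Agent.LibOM70
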