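import Pool.Agent.LibOM70.H7
import Pool.Agent.LibOM70.H8
import Pool.Agent.LibOM70.H9a

/-! ODD MOMENTS, row H9b. -/

set_option autoImplicit false

namespace Pool.Agent.LibOM70

open MeasureTheory Set Filter Topology Complex ProbabilityTheory
open scoped NNReal ComplexConjugate
open Pool.Agent.LibZM Pool.Agent.LibM3
open Pool.Agent.LibLaw15 hiding Lam

/-- ROW H9b. The lower bound for all continuous weights.
PROOF. `w ≥ wP S c - δ`, `TM1 p (wP S c) ≥ TM1 p w - δ` (`TM1_props`); `nmP_lower`, `lower_transferP` (if `cL1 TM1 w - ε ≤ 0` trivial, the integral is `≥ 0`), and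
`∫_0^T ‖ζ‖ ≤ B T Lam T` (hypothesis `hB`, from the upper bound). -/
theorem law1_lower (hpos : 0 < pp 5 - gg 5 ∧ 0 < pp 8 + gg 8) {B : ℝ} (hB0 : 0 < B)
    (hB : ∀ᶠ T : ℝ in atTop, ∫ t in Icc 0 T, ‖riemannZeta (crit t)‖ ≤ B * (T * Lam T))
    {r : ℕ} {p : Fin r → ℕ} (hp : ∀ i, (p i).Prime) (hinj : Function.Injective p)
    {w : Tor r → ℝ} (hw : Continuous w) (hw0 : ∀ x, 0 ≤ w x) {ε : ℝ} (hε : 0 < ε) : ∀ᶠ T : ℝ in atTop,
      (cL1 * TM1 p w - ε) * (T * Lam T) ≤ ∫ t in Icc 0 T, ‖riemannZeta (crit t)‖ * w (xt p t) := by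
  have hcL : 0 < cL1 := by
    unfold cL1
    exact div_pos (Real.rpow_pos_of_pos hpos.1 _) (Real.rpow_pos_of_pos hpos.2 _)
  rcases le_or_gt (cL1 * TM1 p w - ε) 0 with hneg | hposi
  · filter_upwards [eventually_gt_atTop 1] with T hT
    refine le_trans ?_ (integral_nonneg fun t => mul_nonneg (norm_nonneg _) (hw0 _))
    apply mul_nonpos_of_nonpos_of_nonneg hneg
    have := Lam_pos hT
    positivity
  · obtain ⟨δ, hδ⟩ : ∃ δ : ℝ, δ = ε / (4 * (B + cL1)) := ⟨_, rfl⟩
    have hδ0 : 0 < δ := by rw [hδ]; positivity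
    have hδe : δ * (B + cL1) = ε / 4 := by rw [hδ]; field_simp
    have hδB : δ * B ≤ ε / 4 := by nlinarith
    have hδc : δ * cL1 ≤ ε / 4 := by nlinarith
    obtain ⟨S, c, hSc⟩ := wP_dense hw hw0 hδ0
    obtain ⟨hT1, hT2, hT3, hT4⟩ := TM1_props hp
    have hwPc := (wP_props (r := r) S c).1
    have hTM : TM1 p w - δ ≤ TM1 p (wP S c) := by
      have h1 := hT3 (fun x => w x + (-δ)) (wP S c) (by fun_prop) hwPc (fun x => by
        have := (abs_le.mp (hSc x)).1
        linarith)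
      rw [hT4 w hw (-δ)] at h1
      linarith
    obtain ⟨θ, hθ0, hθ, hlow⟩ := nmP_lower hpos hp hinj S c (δ := ε / 4) (by positivity)
    have hc1 : cL1 * TM1 p w - ε / 4 ≤ cL1 * TM1 p (wP S c) := by
      have : cL1 * (TM1 p w - δ) ≤ cL1 * TM1 p (wP S c) := mul_le_mul_of_nonneg_left hTM hcL.le
      nlinarith
    have htr := lower_transferP (c₀ := cL1 * TM1 p (wP S c) - ε / 4) (c₁ := cL1 * TM1 p (wP S c) - ε / 2) (by linarith) (by linarith)
      hθ0 hθ hp S c hlow
    filter_upwards [htr, hB, eventually_gt_atTop 1] with T h1 h2 hT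
    have hL := Lam_pos hT
    have hTL : 0 < T * Lam T := by
      have : 0 < T := by linarith
      positivity
    have hxc := xt_continuous p
    have hzc := continuous_zeta_crit
    have c1 : Continuous fun t : ℝ => ‖riemannZeta (crit t)‖ * wP S c (xt p t) := hzc.norm.mul (hwPc.comp hxc)
    have c2 : Continuous fun t : ℝ => ‖riemannZeta (crit t)‖ * w (xt p t) := hzc.norm.mul (hw.comp hxc)
    have i1 : IntegrableOn (fun t : ℝ => ‖riemannZeta (crit t)‖ * wP S c (xt p t)) (Icc 0 T) := c1.continuousOn.integrableOn_compact isCompact_Icc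
    have i2 : IntegrableOn (fun t : ℝ => ‖riemannZeta (crit t)‖ * w (xt p t)) (Icc 0 T) := c2.continuousOn.integrableOn_compact isCompact_Icc
    have i3 : IntegrableOn (fun t : ℝ => ‖riemannZeta (crit t)‖) (Icc 0 T) := hzc.norm.continuousOn.integrableOn_compact isCompact_Icc
    have hmono : ∫ t in Icc 0 T, ‖riemannZeta (crit t)‖ * wP S c (xt p t) ≤
        ∫ t in Icc 0 T, (‖riemannZeta (crit t)‖ * w (xt p t) + δ * ‖riemannZeta (crit t)‖) := by
      refine setIntegral_mono i1 (i2.add (i3.const_mul δ)) fun t => ?_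
      have h3 := (abs_le.mp (hSc (xt p t))).2
      have h4 := norm_nonneg (riemannZeta (crit t))
      show ‖riemannZeta (crit t)‖ * wP S c (xt p t) ≤ ‖riemannZeta (crit t)‖ * w (xt p t) + δ * ‖riemannZeta (crit t)‖
      nlinarith
    rw [integral_add i2 (i3.const_mul δ), integral_const_mul] at hmono
    have h5 : δ * ∫ t in Icc 0 T, ‖riemannZeta (crit t)‖ ≤ δ * (B * (T * Lam T)) := mul_le_mul_of_nonneg_left h2 hδ0.le
    have h6 : δ * (B * (T * Lam T)) ≤ ε / 4 * (T * Lam T) := by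
      rw [← mul_assoc]
      exact mul_le_mul_of_nonneg_right hδB hTL.le
    have h7 : (cL1 * TM1 p w - ε) * (T * Lam T) ≤ (cL1 * TM1 p (wP S c) - ε / 2) * (T * Lam T) - ε / 4 * (T * Lam T) := by
      rw [← sub_mul]
      apply mul_le_mul_of_nonneg_right _ hTL.le
      linarith
    linarith

end Pool.Agent.LibOM70
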