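import Pool.Agent.LibOM70.Defs

/-! ODD MOMENTS, row N1. -/

set_option autoImplicit false

namespace Pool.Agent.LibOM70

open MeasureTheory Set Filter Topology Complex ProbabilityTheory
open scoped NNReal ComplexConjugate
open Pool.Agent.LibZM Pool.Agent.LibM3
open Pool.Agent.LibLaw15 hiding Lam

private theorem n1_Gamma_add (n : ℕ) :
    Real.Gamma ((n:ℝ) + 1/4) = (∏ k ∈ Finset.range n, ((k:ℝ) + 1/4)) * Real.Gamma (1/4) := by
  induction n with
  | zero => simp
  | succ n ih =>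
    have h : ((n + 1 : ℕ) : ℝ) + 1/4 = ((n:ℝ) + 1/4) + 1 := by push_cast; ring
    rw [h, Real.Gamma_add_one (by positivity), ih, Finset.prod_range_succ]
    ring

private theorem n1_Gamma_quarter : (361/100 : ℝ) ≤ Real.Gamma (1/4) := by
  have hfeq : ∀ {y : ℝ}, 0 < y → (Real.log ∘ Real.Gamma) (y + 1) = (Real.log ∘ Real.Gamma) y + Real.log y := by
    intro y hy
    simp only [Function.comp]
    rw [Real.Gamma_add_one hy.ne', Real.log_mul hy.ne' (Real.Gamma_pos_of_pos hy).ne']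
    ring
  have h := Real.BohrMollerup.f_add_nat_ge (n := 82) (x := 1/4) Real.convexOn_log_Gamma hfeq (by norm_num) (by norm_num)
  simp only [Function.comp] at h
  have h82 : Real.Gamma ((82:ℕ):ℝ) = ((Nat.factorial 81 : ℕ) : ℝ) := by
    have := Real.Gamma_nat_eq_factorial 81
    have h2 : ((81:ℕ):ℝ) + 1 = ((82:ℕ):ℝ) := by norm_num
    rw [h2] at this
    exact this
  have hpos : 0 < Real.Gamma (1/4) := Real.Gamma_pos_of_pos (by norm_num)
  rw [h82, n1_Gamma_add] at h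
  have hf0 : (0:ℝ) < ((Nat.factorial 81 : ℕ) : ℝ) := by positivity
  set P := ∏ k ∈ Finset.range 82, ((k:ℝ) + 1/4) with hP
  have hPpos : 0 < P := Finset.prod_pos fun k _ => by positivity
  rw [Real.log_mul hPpos.ne' hpos.ne'] at h
  have h81 : Real.log (((82:ℕ):ℝ) - 1) = 4 * Real.log 3 := by
    have : (((82:ℕ):ℝ) - 1) = 3 ^ 4 := by norm_num
    rw [this, Real.log_pow]; norm_num
  rw [h81] at h
  have h5 : Real.log (((Nat.factorial 81 : ℕ) : ℝ) * 3 / P) ≤ Real.log (Real.Gamma (1/4)) := by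
    rw [Real.log_div (by positivity) hPpos.ne', Real.log_mul (by positivity) (by norm_num)]
    linarith
  have h6 := (Real.log_le_log_iff (by positivity) hpos).mp h5
  refine le_trans ?_ h6
  rw [le_div_iff₀ hPpos, hP]
  norm_num [Finset.prod_range_succ, Nat.factorial]

private theorem n1_pow8 {z : ℝ} (h0 : 0 ≤ z) (h1 : z ≤ 1/2) :
    1 - z ≤ (1 - z/8 - 7*z^2/128) ^ 8 := by
  obtain ⟨u, hu⟩ : ∃ u, u = z/8 + 7*z^2/128 := ⟨_, rfl⟩
  have hu0 : 0 ≤ u := by rw [hu]; positivity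
  have hu1 : u ≤ 1 := by rw [hu]; nlinarith
  have h2 : (1 - z/8 - 7*z^2/128) ^ 8 = (1 - u) ^ 8 := by rw [hu]; ring
  have h3 : 1 - 8*u + 28*u^2 - 56*u^3 ≤ (1 - u) ^ 8 := by
    have h4 : 0 ≤ u^4 * (70 - 56*u + 28*u^2 - 8*u^3 + u^4) := by
      apply mul_nonneg (by positivity)
      have h5 : u^3 ≤ 1 := pow_le_one₀ hu0 hu1
      have h6 : 0 ≤ u^2 := by positivity
      have h7 : 0 ≤ u^4 := by positivity
      linarith
    nlinarith
  have h4 : 1 - z ≤ 1 - 8*u + 28*u^2 - 56*u^3 := by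
    have h5 : 1 - 8*u + 28*u^2 - 56*u^3 - (1 - z) =
        z^3 * (49/128 + (343/4096) * z - (7/64) * (1 + 7*z/16)^3) := by
      rw [hu]; ring
    have h6 : (1 + 7*z/16)^3 ≤ (39/32)^3 := by
      apply pow_le_pow_left₀ (by positivity)
      linarith
    have h7 : 0 ≤ z^3 * (49/128 + (343/4096) * z - (7/64) * (1 + 7*z/16)^3) := by
      apply mul_nonneg (by positivity)
      have : (39/32 : ℝ)^3 ≤ 2 := by norm_num
      linarith
    linarith
  rw [h2]
  linarith

private theorem n1_bd {z : ℝ} (h0 : 0 ≤ z) (h1 : z ≤ 1/2) :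
    (z * (1 - z)) ^ (1/8 : ℝ) ≤ z ^ (1/8 : ℝ) * (1 - z/8 - 7*z^2/128) := by
  rw [Real.mul_rpow h0 (by linarith)]
  apply mul_le_mul_of_nonneg_left _ (Real.rpow_nonneg h0 _)
  have hg : 0 ≤ 1 - z/8 - 7*z^2/128 := by nlinarith
  have h2 := Real.rpow_le_rpow (by linarith) (n1_pow8 h0 h1) (by norm_num : (0:ℝ) ≤ 1/8)
  refine h2.trans (le_of_eq ?_)
  rw [← Real.rpow_natCast, ← Real.rpow_mul hg]
  norm_num

private theorem n1_cont : Continuous fun z : ℝ => (z * (1 - z)) ^ (1/8 : ℝ) :=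
  (continuous_id.mul (continuous_const.sub continuous_id)).rpow_const fun _ => Or.inr (by norm_num)

private theorem n1_half : JB = 2 * ∫ z in (0:ℝ)..(1/2), (z * (1 - z)) ^ (1/8 : ℝ) := by
  unfold JB
  rw [← intervalIntegral.integral_add_adjacent_intervals (b := 1/2)
    (n1_cont.intervalIntegrable _ _) (n1_cont.intervalIntegrable _ _)]
  have h1 : ∫ z in (1/2:ℝ)..1, (z * (1 - z)) ^ (1/8 : ℝ) =
      ∫ z in (0:ℝ)..(1/2), (z * (1 - z)) ^ (1/8 : ℝ) := by
    have h2 := intervalIntegral.integral_comp_sub_left (a := 0) (b := 1/2)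
      (fun z : ℝ => (z * (1 - z)) ^ (1/8 : ℝ)) 1
    have h3 : (1:ℝ) - 1/2 = 1/2 := by norm_num
    rw [h3, sub_zero] at h2
    rw [← h2]
    congr 1
    funext z
    congr 1
    ring
  rw [h1]
  ring

private theorem n1_int : ∫ z in (0:ℝ)..(1/2), z ^ (1/8 : ℝ) * (1 - z/8 - 7*z^2/128) =
    (1/2 : ℝ) ^ (1/8 : ℝ) * (4/9 - 1/68 - 7/3200) := by
  have h1 : ∀ z ∈ Set.uIcc (0:ℝ) (1/2), z ^ (1/8 : ℝ) * (1 - z/8 - 7*z^2/128) =
      (z ^ (1/8 : ℝ) - (1/8) * z ^ (9/8 : ℝ)) - (7/128) * z ^ (17/8 : ℝ) := by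
    intro z hz
    rw [Set.uIcc_of_le (by norm_num)] at hz
    have hz0 := hz.1
    have e1 : z ^ (9/8 : ℝ) = z ^ (1/8 : ℝ) * z := by
      have : (9/8 : ℝ) = 1/8 + 1 := by norm_num
      rw [this, Real.rpow_add_of_nonneg hz0 (by norm_num) (by norm_num), Real.rpow_one]
    have e2 : z ^ (17/8 : ℝ) = z ^ (1/8 : ℝ) * z ^ 2 := by
      have : (17/8 : ℝ) = 1/8 + 2 := by norm_num
      rw [this, Real.rpow_add_of_nonneg hz0 (by norm_num) (by norm_num), Real.rpow_two]
    rw [e1, e2]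
    ring
  rw [intervalIntegral.integral_congr h1]
  have c1 : ∀ r : ℝ, 0 ≤ r → Continuous fun z : ℝ => z ^ r := fun r hr =>
    continuous_id.rpow_const fun _ => Or.inr hr
  rw [intervalIntegral.integral_sub, intervalIntegral.integral_sub,
    intervalIntegral.integral_const_mul, intervalIntegral.integral_const_mul,
    integral_rpow (Or.inl (by norm_num)), integral_rpow (Or.inl (by norm_num)),
    integral_rpow (Or.inl (by norm_num))]
  · have e1 : (1/2 : ℝ) ^ ((1/8 : ℝ) + 1) = (1/2 : ℝ) ^ (1/8 : ℝ) * (1/2) := by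
      rw [Real.rpow_add_of_nonneg (by norm_num) (by norm_num) (by norm_num), Real.rpow_one]
    have e2 : (1/2 : ℝ) ^ ((9/8 : ℝ) + 1) = (1/2 : ℝ) ^ (1/8 : ℝ) * (1/4) := by
      have : (9/8 : ℝ) + 1 = 1/8 + 2 := by norm_num
      rw [this, Real.rpow_add_of_nonneg (by norm_num) (by norm_num) (by norm_num), Real.rpow_two]
      norm_num
    have e3 : (1/2 : ℝ) ^ ((17/8 : ℝ) + 1) = (1/2 : ℝ) ^ (1/8 : ℝ) * (1/8) := by
      have : (17/8 : ℝ) + 1 = 1/8 + ((3 : ℕ) : ℝ) := by norm_num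
      rw [this, Real.rpow_add_of_nonneg (by norm_num) (by norm_num) (by norm_num),
        Real.rpow_natCast]
      norm_num
    rw [e1, e2, e3, Real.zero_rpow (by norm_num), Real.zero_rpow (by norm_num),
      Real.zero_rpow (by norm_num)]
    ring
  · exact (c1 _ (by norm_num)).intervalIntegrable _ _
  · exact (continuous_const.mul (c1 _ (by norm_num))).intervalIntegrable _ _
  · exact ((c1 _ (by norm_num)).sub (continuous_const.mul (c1 _ (by norm_num)))).intervalIntegrable _ _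
  · exact (continuous_const.mul (c1 _ (by norm_num))).intervalIntegrable _ _

private theorem n1_root : (1/2 : ℝ) ^ (1/8 : ℝ) ≤ 91701/100000 := by
  have h : ((1/2 : ℝ) ^ (1/8 : ℝ)) ^ 8 ≤ (91701/100000 : ℝ) ^ 8 := by
    rw [← Real.rpow_natCast, ← Real.rpow_mul (by norm_num)]
    norm_num
  exact (pow_le_pow_iff_left₀ (Real.rpow_nonneg (by norm_num) _) (by norm_num) (by norm_num)).1 h

private theorem n1_JB : JB ≤ 7842/10000 := by
  rw [n1_half]
  have h1 : ∫ z in (0:ℝ)..(1/2), (z * (1 - z)) ^ (1/8 : ℝ) ≤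
      ∫ z in (0:ℝ)..(1/2), z ^ (1/8 : ℝ) * (1 - z/8 - 7*z^2/128) := by
    apply intervalIntegral.integral_mono_on (by norm_num) (n1_cont.intervalIntegrable _ _)
    · apply Continuous.intervalIntegrable
      exact (continuous_id.rpow_const fun _ => Or.inr (by norm_num)).mul (by fun_prop)
    · intro z hz
      exact n1_bd hz.1 hz.2
  rw [n1_int] at h1
  have h2 := n1_root
  nlinarith

/-- ROW N1. The constant of the upper bound (true value `1.7272`).
PROOF. `JB = 2 ∫_0^{1/2} z^{1/8} (1-z)^{1/8} dz` (symmetry) and `(1-z)^{1/8} ≤ 1 - z/8 - 7z²/128` on `[0,1/2]` (all further binomial coefficients are negative; or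
check `f(z) = (1 - z/8 - 7z²/128)^8 - (1-z) ≥ 0`, a polynomial inequality: `f = z³ (35/128 + …)`). So
`JB ≤ 2 [(8/9) h^{9/8} - (1/17) h^{17/8} - (7/400) h^{25/8}]`, `h = 1/2`, `= 2 · 2^{-1/8} [(4/9) - 1/68 - 7/3200] ≤ .7842` with `2^{-1/8} ≤ .91701`
(`.91701^8 ≥ 1/2`). And `Γ(5/4) ≥ .9062`: there are bounds on `Γ(1/4)` in LibM3 (see the proof of `CI_le`) and LibZM/Numer (`Γ(5/4) = Γ(1/4)/4`).
So `CU1 ≤ 2 · .7842/.9062 < 1.74`. -/
theorem CU1_le : 0 < JB ∧ CU1 ≤ 174 / 100 := by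
  constructor
  · unfold JB
    refine intervalIntegral.intervalIntegral_pos_of_pos_on (n1_cont.intervalIntegrable _ _) ?_
      (by norm_num)
    intro z hz
    exact Real.rpow_pos_of_pos (mul_pos hz.1 (by linarith [hz.2])) _
  · have hG : Real.Gamma (5/4) = (1/4) * Real.Gamma (1/4) := by
      have h := Real.Gamma_add_one (s := 1/4) (by norm_num)
      have h2 : (1/4 : ℝ) + 1 = 5/4 := by norm_num
      rw [h2] at h
      exact h
    have h1 := n1_Gamma_quarter
    have h2 := n1_JB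
    have h3 : 0 < Real.Gamma (5/4) := Real.Gamma_pos_of_pos (by norm_num)
    unfold CU1
    rw [div_le_iff₀ h3, hG]
    linarith

end Pool.Agent.LibOM70
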