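import Pool.Agent.LibOM70.Defs
import Pool.Agent.LibZM.Numer

/-! ODD MOMENTS, row N2. -/

set_option autoImplicit false

namespace Pool.Agent.LibOM70

open MeasureTheory Set Filter Topology Complex ProbabilityTheory
open scoped NNReal ComplexConjugate
open Pool.Agent.LibZM Pool.Agent.LibM3
open Pool.Agent.LibLaw15 hiding Lam

private lemma n2_eq (σ : ℝ) : pp σ = Numer.PintN (1/4) σ 1 := rfl

private lemma n2_pp8 : pp 8 ≤ 1/2 := by
  rw [n2_eq]
  refine (Numer.PintN_le (by norm_num)).trans ?_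
  exact Numer.rpow_quarter_le (by norm_num) (by norm_num) (by norm_num)

private lemma n2_pp2 : pp 2 ≤ 7072/10000 := by
  rw [n2_eq]
  refine (Numer.PintN_le (by norm_num)).trans ?_
  exact Numer.rpow_quarter_le (by norm_num) (by norm_num) (by norm_num)

private lemma n2_ppm2 : pp (-2) ≤ 555/100 := by
  rw [n2_eq]
  exact Numer.PintN_neg2

private lemma n2_pp5 : 5623/10000 ≤ pp 5 := by
  have h := Numer.le_PintN (σ := 5) (by norm_num)
  rw [n2_eq]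
  refine le_trans ?_ h
  have h1 : (56233/100000 : ℝ) ≤ (1 / (2 * 5)) ^ (1/4:ℝ) := Numer.le_rpow_quarter (by norm_num) (by norm_num)
  have hG := Numer.Gamma_quarter_lower
  have h2 : Real.exp (-(2 * 5)) ≤ 1/10000 := by
    have := Numer.exp_neg_nat_le 10 (y := 1/10000) (by norm_num) (by norm_num)
    have e : (-(2 * 5) : ℝ) = -((10:ℕ):ℝ) := by norm_num
    rw [e]; exact this
  have h3 : Real.exp (-(2 * 5)) / (2 * 5) / Real.Gamma (1/4) ≤ 1/100000 := by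
    rw [div_le_iff₀ (by linarith), div_le_iff₀ (by norm_num)]
    nlinarith
  linarith

private lemma n2_pp8' : 1/4 ≤ pp 8 := by
  have h := Numer.le_PintN (σ := 8) (by norm_num)
  rw [n2_eq]
  refine le_trans ?_ h
  have h1 : (1/2 : ℝ) ≤ (1 / (2 * 8)) ^ (1/4:ℝ) := Numer.le_rpow_quarter (by norm_num) (by norm_num)
  have hG := Numer.Gamma_quarter_lower
  have h2 : Real.exp (-(2 * 8)) ≤ 1 := Real.exp_le_one_iff.mpr (by norm_num)
  have h3 : Real.exp (-(2 * 8)) / (2 * 8) / Real.Gamma (1/4) ≤ 1/16 := by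
    rw [div_le_iff₀ (by linarith), div_le_iff₀ (by norm_num)]
    have h4 : 1 / 16 * Real.Gamma (1/4) * (2 * 8) = Real.Gamma (1/4) := by ring
    rw [h4]
    exact h2.trans (by linarith)
  linarith

private lemma n2_nonneg (σ : ℝ) : 0 ≤ pp σ := by
  unfold pp Pint
  apply div_nonneg _ (Real.Gamma_pos_of_pos (by norm_num)).le
  apply intervalIntegral.integral_nonneg (by norm_num)
  intro t ht
  have := ht.1
  positivity

private lemma n2_M : 0 ≤ Real.exp 2 * pp 2 + pp (-2) ∧ Real.exp 2 * pp 2 + pp (-2) ≤ 1078/100 := by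
  have h2 := n2_nonneg 2
  have hm2 := n2_nonneg (-2)
  have k1 := n2_pp2
  have k2 := n2_ppm2
  have h3 : Real.exp 2 ≤ 739/100 := by
    have := Numer.exp_nat_le 2 (y := 739/100) (by norm_num)
    have e : (2 : ℝ) = ((2:ℕ):ℝ) := by norm_num
    rw [e]; exact this
  have h0 := Real.exp_pos 2
  constructor
  · positivity
  · have : Real.exp 2 * pp 2 ≤ 739/100 * (7072/10000) := mul_le_mul h3 k1 h2 (by norm_num)
    linarith

private lemma n2_e2 : 8646/10000 ≤ 1 - Real.exp (-2) := by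
  have := Numer.exp_neg_nat_le 2 (y := 1354/10000) (by norm_num) (by norm_num)
  have e : (-2 : ℝ) = -((2:ℕ):ℝ) := by norm_num
  rw [e]; linarith

private lemma n2_gg5 : gg 5 ≤ 115/10000 := by
  obtain ⟨hM0, hM⟩ := n2_M
  have hE := n2_e2
  unfold gg
  have h1 : Real.exp (-(5 + 2)) ≤ 913/1000000 := by
    have := Numer.exp_neg_nat_le 7 (y := 913/1000000) (by norm_num) (by norm_num)
    have e : (-(5 + 2) : ℝ) = -((7:ℕ):ℝ) := by norm_num
    rw [e]; exact this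
  rw [div_le_iff₀ (by linarith)]
  have h2 : Real.exp (-(5 + 2)) * (Real.exp 2 * pp 2 + pp (-2)) ≤ 913/1000000 * (1078/100) :=
    mul_le_mul h1 hM hM0 (by norm_num)
  nlinarith

private lemma n2_gg8 : 0 ≤ gg 8 ∧ gg 8 ≤ 6/10000 := by
  obtain ⟨hM0, hM⟩ := n2_M
  have hE := n2_e2
  unfold gg
  have h1 : Real.exp (-(8 + 2)) ≤ 46/1000000 := by
    have := Numer.exp_neg_nat_le 10 (y := 46/1000000) (by norm_num) (by norm_num)
    have e : (-(8 + 2) : ℝ) = -((10:ℕ):ℝ) := by norm_num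
    rw [e]; exact this
  have h0 := Real.exp_pos (-(8 + 2) : ℝ)
  constructor
  · apply div_nonneg (by positivity) (by linarith)
  · rw [div_le_iff₀ (by linarith)]
    have h2 : Real.exp (-(8 + 2)) * (Real.exp 2 * pp 2 + pp (-2)) ≤ 46/1000000 * (1078/100) :=
      mul_le_mul h1 hM hM0 (by norm_num)
    nlinarith

/-- ROW N2. The constant of the lower bound (true value `.6468`), and positivity of its ingredients.
PROOF. `pp σ = (1/Γ(1/4)) ∫_0^1 t^{-3/4} e^{-2σt} dt`. For `σ > 0`: `pp σ ≤ (2σ)^{-1/4}` (extend to `(0,∞)`, `Real.integral_rpow_mul_exp_neg_mul_Ioi`), so `pp 8 ≤ 1/2`,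
`pp 2 ≤ 4^{-1/4} ≤ .7072`; `pp 5 ≥ 10^{-1/4} - e^{-10}/(10 Γ(1/4)) ≥ .5623` (the tail `∫_1^∞ t^{-3/4} e^{-10t} ≤ e^{-10}/10`). `pp (-2) ≤ 5.6` (true `5.485`): expand
`e^{4t}` or use the tools of LibZM/Numer for `pp` at negative arguments. So `e² pp 2 + pp(-2) ≤ 10.83`, `gg 5 ≤ e^{-7} · 10.83/(1 - e^{-2}) ≤ .01143`, `gg 8 ≤ .00057`, and
`cL1 ≥ .5508^{8/3}/.5006^{5/3}`, to be compared with `.64`: `(.5508^8/.5006^5)^{1/3} ≥ .64` iff `.5508^8 ≥ .64^3 · .5006^5` (`.00847 ≥ .00825`). -/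
theorem cL1_gt : 0 < pp 5 - gg 5 ∧ 0 < pp 8 + gg 8 ∧ 64 / 100 < cL1 := by
  have h5 := n2_pp5
  have h8 := n2_pp8
  have h8' := n2_pp8'
  have g5 := n2_gg5
  obtain ⟨g80, g8⟩ := n2_gg8
  have ha : 5508/10000 ≤ pp 5 - gg 5 := by linarith
  have hb : pp 8 + gg 8 ≤ 5006/10000 := by linarith
  have ha0 : 0 < pp 5 - gg 5 := by linarith
  have hb0 : 0 < pp 8 + gg 8 := by linarith
  refine ⟨ha0, hb0, ?_⟩
  unfold cL1
  obtain ⟨a, hA⟩ : ∃ a : ℝ, a = pp 5 - gg 5 := ⟨_, rfl⟩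
  obtain ⟨b, hB⟩ : ∃ b : ℝ, b = pp 8 + gg 8 := ⟨_, rfl⟩
  rw [← hA] at ha ha0 ⊢
  rw [← hB] at hb hb0 ⊢
  have hY0 : 0 < b ^ (5/3 : ℝ) := Real.rpow_pos_of_pos hb0 _
  have hX0 : 0 < a ^ (8/3 : ℝ) := Real.rpow_pos_of_pos ha0 _
  have hY : (b ^ (5/3 : ℝ)) ^ 3 = b ^ 5 := by
    rw [← Real.rpow_natCast, ← Real.rpow_mul hb0.le, ← Real.rpow_natCast]
    norm_num
  have hX : (a ^ (8/3 : ℝ)) ^ 3 = a ^ 8 := by
    rw [← Real.rpow_natCast, ← Real.rpow_mul ha0.le, ← Real.rpow_natCast]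
    norm_num
  rw [lt_div_iff₀ hY0]
  apply lt_of_pow_lt_pow_left₀ 3 hX0.le
  rw [mul_pow, hY, hX]
  calc (64/100 : ℝ) ^ 3 * b ^ 5 ≤ (64/100) ^ 3 * (5006/10000) ^ 5 := by gcongr
    _ < (5508/10000) ^ 8 := by norm_num
    _ ≤ a ^ 8 := by gcongr

end Pool.Agent.LibOM70
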