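import Pool.Agent.LibOM70.Defs
import Pool.Agent.LibLaw15.T9
import Pool.Agent.LibLaw15.L1

/-! ODD MOMENTS, row S1. -/

set_option autoImplicit false

namespace Pool.Agent.LibOM70

open MeasureTheory Set Filter Topology Complex ProbabilityTheory
open scoped NNReal ComplexConjugate
open Pool.Agent.LibZM Pool.Agent.LibM3
open Pool.Agent.LibLaw15 hiding Lam

/-- the weights -/
private noncomputable def s1_w (N : ℕ) (x : ℝ) (k : ℕ) : ℝ := halfTrunc N k * (k:ℝ) ^ (-x)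

private lemma s1_w_bound (N : ℕ) {x : ℝ} (hx : 0 ≤ x) {k : ℕ} (hk : 1 ≤ k) : 0 ≤ s1_w N x k ∧ s1_w N x k ≤ 1 := by
  unfold s1_w
  have h1 : (k:ℝ) ^ (-x) ≤ 1 := Real.rpow_le_one_of_one_le_of_nonpos (by exact_mod_cast hk) (by linarith)
  have h0 : 0 ≤ (k:ℝ) ^ (-x) := by positivity
  have h2 := halfTrunc_le_one N k
  have h3 := halfTrunc_nonneg N k
  exact ⟨mul_nonneg h3 h0, mul_le_one₀ h2 h0 h1⟩

private lemma s1_PP (N : ℕ) (x t : ℝ) : PP N ((x:ℂ) + t * I) =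
    ∑ k ∈ Finset.Icc 1 N, ((s1_w N x k : ℝ) : ℂ) * cexp (((-(t * Real.log k) : ℝ) : ℂ) * I) := by
  unfold PP
  rw [dp_eq_exp]
  refine Finset.sum_congr rfl fun k hk => ?_
  have hk1 : 1 ≤ k := (Finset.mem_Icc.1 hk).1
  have hk0 : (0:ℝ) < k := by exact_mod_cast hk1
  have h1 : cexp (-((Real.log k : ℝ) : ℂ) * ((x:ℂ) + t * I)) =
      (((k:ℝ) ^ (-x) : ℝ) : ℂ) * cexp (((-(t * Real.log k) : ℝ) : ℂ) * I) := by
    rw [Real.rpow_def_of_pos hk0, Complex.ofReal_exp, ← Complex.exp_add]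
    congr 1
    push_cast
    ring
  rw [h1, s1_w]
  push_cast
  ring

private lemma s1_expand (N : ℕ) (x : ℝ) {m n : ℕ} (hm : 1 ≤ m) (hn : 1 ≤ n) (t : ℝ) :
    ((‖PP N ((x:ℂ) + t * I)‖ ^ 2 : ℝ) : ℂ) * chr m n t =
    ∑ k ∈ Finset.Icc 1 N, ∑ l ∈ Finset.Icc 1 N, ((s1_w N x k * s1_w N x l : ℝ) : ℂ) *
      cexp (((t * (Real.log ((m * l : ℕ) : ℝ) - Real.log ((n * k : ℕ) : ℝ)) : ℝ) : ℂ) * I) := by
  have h1 : ((‖PP N ((x:ℂ) + t * I)‖ ^ 2 : ℝ) : ℂ) =
      PP N ((x:ℂ) + t * I) * conj (PP N ((x:ℂ) + t * I)) := by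
    rw [Complex.mul_conj, Complex.normSq_eq_norm_sq]
  have h2 : conj (PP N ((x:ℂ) + t * I)) =
      ∑ l ∈ Finset.Icc 1 N, ((s1_w N x l : ℝ) : ℂ) * cexp (((t * Real.log l : ℝ) : ℂ) * I) := by
    rw [s1_PP, map_sum]
    refine Finset.sum_congr rfl fun l _ => ?_
    rw [map_mul, Complex.conj_ofReal, ← Complex.exp_conj, map_mul, Complex.conj_ofReal, Complex.conj_I]
    congr 2
    push_cast
    ring
  rw [h1, h2, s1_PP, Finset.sum_mul_sum, Finset.sum_mul]
  refine Finset.sum_congr rfl fun k hk => ?_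
  rw [Finset.sum_mul]
  refine Finset.sum_congr rfl fun l hl => ?_
  have hk1 : (1:ℝ) ≤ k := by exact_mod_cast (Finset.mem_Icc.1 hk).1
  have hl1 : (1:ℝ) ≤ l := by exact_mod_cast (Finset.mem_Icc.1 hl).1
  have hm1 : (1:ℝ) ≤ m := by exact_mod_cast hm
  have hn1 : (1:ℝ) ≤ n := by exact_mod_cast hn
  have e1 : Real.log ((m * l : ℕ) : ℝ) = Real.log m + Real.log l := by
    push_cast
    rw [Real.log_mul (by linarith) (by linarith)]
  have e2 : Real.log ((n * k : ℕ) : ℝ) = Real.log n + Real.log k := by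
    push_cast
    rw [Real.log_mul (by linarith) (by linarith)]
  unfold chr
  rw [e1, e2]
  have e3 : cexp (((t * (Real.log m + Real.log l - (Real.log n + Real.log k)) : ℝ) : ℂ) * I) =
      cexp (((-(t * Real.log k) : ℝ) : ℂ) * I) * cexp (((t * Real.log l : ℝ) : ℂ) * I) *
      cexp (((t * (Real.log m - Real.log n) : ℝ) : ℂ) * I) := by
    rw [← Complex.exp_add, ← Complex.exp_add]
    congr 1
    push_cast
    ring
  rw [e3]
  push_cast
  ring

private lemma s1_diag (N : ℕ) (x : ℝ) {m n : ℕ} (hm : 1 ≤ m) (hn : 1 ≤ n) (hc : Nat.Coprime m n) :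
    DJ 1 m n (N / max m n) x = ∑ k ∈ Finset.Icc 1 N, ∑ l ∈ Finset.Icc 1 N,
      if m * l = n * k then s1_w N x k * s1_w N x l else 0 := by
  have hM : 0 < max m n := lt_of_lt_of_le hm (le_max_left _ _)
  rw [← Finset.sum_product' (f := fun k l => if m * l = n * k then s1_w N x k * s1_w N x l else 0),
    ← Finset.sum_filter]
  unfold DJ
  have hj : ∀ j, j ∈ cs 1 (N / max m n) → 1 ≤ j ∧ m * j ≤ N ∧ n * j ≤ N := by
    intro j hj
    unfold cs at hj
    rw [Finset.mem_filter, Finset.mem_Icc] at hj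
    have h1 : j * max m n ≤ N := (Nat.le_div_iff_mul_le hM).1 hj.1.2
    refine ⟨hj.1.1, ?_, ?_⟩
    · calc m * j ≤ max m n * j := Nat.mul_le_mul_right _ (le_max_left _ _)
        _ ≤ N := by rw [mul_comm]; exact h1
    · calc n * j ≤ max m n * j := Nat.mul_le_mul_right _ (le_max_right _ _)
        _ ≤ N := by rw [mul_comm]; exact h1
  refine Finset.sum_bij' (fun j _ => ((m * j, n * j) : ℕ × ℕ)) (fun p _ => p.1 / m) ?_ ?_ ?_ ?_ ?_
  · intro j h
    obtain ⟨h1, h2, h3⟩ := hj j h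
    rw [Finset.mem_filter, Finset.mem_product, Finset.mem_Icc, Finset.mem_Icc]
    exact ⟨⟨⟨Nat.mul_pos hm h1, h2⟩, ⟨Nat.mul_pos hn h1, h3⟩⟩, by ring⟩
  · rintro ⟨k, l⟩ h
    rw [Finset.mem_filter, Finset.mem_product, Finset.mem_Icc, Finset.mem_Icc] at h
    obtain ⟨⟨⟨hk1, hk2⟩, ⟨hl1, hl2⟩⟩, he⟩ := h
    simp only at hk1 hk2 hl1 hl2 he ⊢
    obtain ⟨j, rfl⟩ : m ∣ k := hc.dvd_of_dvd_mul_left ⟨l, he.symm⟩
    have hl : l = n * j := by
      apply Nat.eq_of_mul_eq_mul_left hm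
      rw [he]
      ring
    subst hl
    rw [Nat.mul_div_cancel_left _ hm]
    unfold cs
    rw [Finset.mem_filter, Finset.mem_Icc]
    refine ⟨⟨?_, ?_⟩, Nat.coprime_one_right j⟩
    · rcases Nat.eq_zero_or_pos j with h0 | h0
      · rw [h0, mul_zero] at hk1
        omega
      · exact h0
    · rw [Nat.le_div_iff_mul_le hM]
      rcases max_choice m n with h | h
      · rw [h, mul_comm]; exact hk2
      · rw [h, mul_comm]; exact hl2
  · intro j _
    simp only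
    rw [Nat.mul_div_cancel_left _ hm]
  · rintro ⟨k, l⟩ h
    rw [Finset.mem_filter, Finset.mem_product, Finset.mem_Icc, Finset.mem_Icc] at h
    obtain ⟨⟨⟨hk1, hk2⟩, ⟨hl1, hl2⟩⟩, he⟩ := h
    simp only at hk1 hk2 hl1 hl2 he ⊢
    obtain ⟨j, rfl⟩ : m ∣ k := hc.dvd_of_dvd_mul_left ⟨l, he.symm⟩
    have hl : l = n * j := by
      apply Nat.eq_of_mul_eq_mul_left hm
      rw [he]
      ring
    subst hl
    rw [Nat.mul_div_cancel_left _ hm]
  · intro j h
    obtain ⟨h1, h2, h3⟩ := hj j h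
    simp only [s1_w, halfTrunc_apply]
    rw [if_pos h2, if_pos h3]
    push_cast
    ring

/-- ROW S1. Mean square of the polynomial against a character.
PROOF (copy the pattern of `L1b_dp`, `L1b_expand`, `L1b_bound` in LibLaw15/L1.lean, there for `crit t`, here on the line `x`).
`PP N (x + tI) = ∑_{k ≤ N} τ(k) k^{-x} e^{-it log k}` (`dp_eq_exp`, `halfTrunc_apply`, `norm_term_line`), so
`‖PP‖² chr m n t = ∑_{k,l ≤ N} τ(k) τ(l) k^{-x} l^{-x} e^{it (log (m l) - log (n k))}`. Integrate term by term (finite sum of bounded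
continuous functions). If `m l ≠ n k`: the integral is at most `exp (-v/(2 M²))` with `M = max m n * N` (`char_int_le`); the weights
are `≤ 1` (`halfTrunc_le_one`, `x ≥ 0`), and there are at most `N²` pairs. If `m l = n k`: the exponential is `1`; since `m, n` are coprime,
`k = m j`, `l = n j` with a unique `j`, and `k, l ≤ N` means `j ≤ N / max m n`; the sum of these terms is `DJ 1 m n (N / max m n) x`
(`cs 1 J = Icc 1 J`). Use `Finset.sum_bij` or `Finset.sum_nbij'` from the pairs with `m l = n k` to `Icc 1 (N / max m n)`. -/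
theorem sq_char {m n : ℕ} (hm : 1 ≤ m) (hn : 1 ≤ n) (hc : Nat.Coprime m n) (N : ℕ) {x : ℝ} (hx : 0 ≤ x) (u : ℝ) (v : ℝ≥0) :
    ‖(∫ t, ((‖PP N ((x:ℂ) + t * I)‖ ^ 2 : ℝ) : ℂ) * chr m n t ∂(gaussianReal u v)) -
      ((DJ 1 m n (N / max m n) x : ℝ) : ℂ)‖ ≤ (N:ℝ) ^ 2 * Real.exp (-(v:ℝ) / (2 * ((max m n * N : ℕ) : ℝ) ^ 2)) := by
  have hE0 := Real.exp_pos (-(v:ℝ) / (2 * ((max m n * N : ℕ) : ℝ) ^ 2))
  obtain ⟨E, hE⟩ : ∃ E, E = Real.exp (-(v:ℝ) / (2 * ((max m n * N : ℕ) : ℝ) ^ 2)) := ⟨_, rfl⟩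
  simp_rw [s1_expand N x hm hn]
  have hint : ∀ k l : ℕ, Integrable (fun t : ℝ => ((s1_w N x k * s1_w N x l : ℝ) : ℂ) *
      cexp (((t * (Real.log ((m * l : ℕ) : ℝ) - Real.log ((n * k : ℕ) : ℝ)) : ℝ) : ℂ) * I)) (gaussianReal u v) := by
    intro k l
    refine Integrable.mono' (g := fun _ => |s1_w N x k * s1_w N x l|) (integrable_const _)
      (by fun_prop) (Eventually.of_forall fun t => ?_)
    rw [norm_mul, Complex.norm_exp_ofReal_mul_I, mul_one, Complex.norm_real, Real.norm_eq_abs]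
  rw [integral_finsetSum _ fun k _ => integrable_finsetSum _ fun l _ => hint k l, s1_diag N x hm hn hc,
    Complex.ofReal_sum, ← Finset.sum_sub_distrib]
  have hterm : ∀ k ∈ Finset.Icc 1 N, ‖(∫ t, ∑ l ∈ Finset.Icc 1 N, ((s1_w N x k * s1_w N x l : ℝ) : ℂ) *
      cexp (((t * (Real.log ((m * l : ℕ) : ℝ) - Real.log ((n * k : ℕ) : ℝ)) : ℝ) : ℂ) * I) ∂(gaussianReal u v)) -
      ((∑ l ∈ Finset.Icc 1 N, (if m * l = n * k then s1_w N x k * s1_w N x l else 0) : ℝ) : ℂ)‖ ≤ N * E := by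
    intro k hk
    rw [integral_finsetSum _ fun l _ => hint k l, Complex.ofReal_sum, ← Finset.sum_sub_distrib]
    have h1 : ∀ l ∈ Finset.Icc 1 N, ‖(∫ t, ((s1_w N x k * s1_w N x l : ℝ) : ℂ) *
      cexp (((t * (Real.log ((m * l : ℕ) : ℝ) - Real.log ((n * k : ℕ) : ℝ)) : ℝ) : ℂ) * I) ∂(gaussianReal u v)) -
      (((if m * l = n * k then s1_w N x k * s1_w N x l else 0) : ℝ) : ℂ)‖ ≤ E := by
      intro l hl
      rw [Finset.mem_Icc] at hk hl
      obtain ⟨a1, a2⟩ := s1_w_bound N hx hk.1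
      obtain ⟨b1, b2⟩ := s1_w_bound N hx hl.1
      rw [integral_const_mul]
      by_cases h : m * l = n * k
      · rw [if_pos h, h]
        simp only [sub_self, mul_zero, Complex.ofReal_zero, zero_mul, Complex.exp_zero,
          integral_const, probReal_univ, one_smul, mul_one, norm_zero]
        rw [hE]
        exact hE0.le
      · rw [if_neg h, Complex.ofReal_zero, sub_zero, norm_mul, Complex.norm_real, Real.norm_eq_abs,
          abs_of_nonneg (mul_nonneg a1 b1), hE]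
        have hA : m * l ≤ max m n * N := Nat.mul_le_mul (le_max_left _ _) hl.2
        have hB : n * k ≤ max m n * N := Nat.mul_le_mul (le_max_right _ _) hk.2
        have h2 := char_int_le u v (A := m * l) (B := n * k) (M := max m n * N) (Nat.mul_pos hm hl.1)
          (Nat.mul_pos hn hk.1) hA hB h
        calc s1_w N x k * s1_w N x l * _ ≤ 1 * _ :=
              mul_le_mul (mul_le_one₀ a2 b1 b2) h2 (norm_nonneg _) (by norm_num)
          _ = _ := one_mul _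
    refine (norm_sum_le _ _).trans ((Finset.sum_le_sum h1).trans (le_of_eq ?_))
    rw [Finset.sum_const, Nat.card_Icc, nsmul_eq_mul]
    simp
  refine (norm_sum_le _ _).trans ((Finset.sum_le_sum hterm).trans (le_of_eq ?_))
  rw [Finset.sum_const, Nat.card_Icc, nsmul_eq_mul, hE]
  simp
  ring

end Pool.Agent.LibOM70
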