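import Pool.Agent.LibOM70.Defs

/-! ODD MOMENTS, row S2a. -/

set_option autoImplicit false

namespace Pool.Agent.LibOM70

open MeasureTheory Set Filter Topology Complex ProbabilityTheory
open scoped NNReal ComplexConjugate
open Pool.Agent.LibZM Pool.Agent.LibM3
open Pool.Agent.LibLaw15 hiding Lam

private theorem s2a_anti {a b : ℕ} (h : a ≤ b) : dcoef (1/2) b ≤ dcoef (1/2) a := by
  have h1 : Antitone (fun a : ℕ => dcoef (1/2) a) := by
    refine antitone_nat_of_succ_le fun n => ?_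
    have h2 := dcoef_succ (1/2) n
    have h3 := dcoef_nonneg (α := 1/2) (by norm_num) n
    have h4 : (0 : ℝ) < (n : ℝ) + 1 := by positivity
    have h5 : dcoef (1/2) (n + 1) * ((n : ℝ) + 1) ≤ dcoef (1/2) n * ((n : ℝ) + 1) := by
      rw [h2]
      nlinarith
    exact le_of_mul_le_mul_right h5 h4
  exact h1 h

private theorem s2a_DD (N : ℕ) (x : ℝ) :
    DD N x = ∑ n ∈ Finset.Icc 1 N, tau (1/2) n ^ 2 * (n:ℝ) ^ (-(2 * x)) := by
  unfold DD
  refine Finset.sum_congr rfl fun n hn => ?_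
  rw [halfTrunc_apply, if_pos (Finset.mem_Icc.mp hn).2]

private theorem s2a_g_nonneg (x : ℝ) (n : ℕ) : 0 ≤ tau (1/2) n ^ 2 * (n:ℝ) ^ (-(2 * x)) := by
  positivity

private theorem s2a_split {j : ℕ} (hj : 1 ≤ j) (x : ℝ) :
    (j:ℝ) ^ (-x) * (j:ℝ) ^ (-x) = (j:ℝ) ^ (-(2 * x)) := by
  have hj0 : (0:ℝ) < j := by exact_mod_cast hj
  rw [← Real.rpow_add hj0]
  congr 1
  ring

/-- ROW S2a. The diagonal sum is monotone in its length and `DJ` is bounded by it.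
PROOF. `dcoef (1/2) (a+b) ≤ dcoef (1/2) a` (the ratio `(1/2 + a)/(a + 1) ≤ 1`, `dcoef_succ`), so by multiplicativity
(`tau_apply`, factorization of `m * j`) `τ(m j) ≤ τ(j)`. -/
theorem tau_half_mul_le {m j : ℕ} (hm : 1 ≤ m) (hj : 1 ≤ j) : tau (1/2) (m * j) ≤ tau (1/2) j := by
  have hm0 : m ≠ 0 := by omega
  have hj0 : j ≠ 0 := by omega
  have hfac : ∀ p, (m * j).factorization p = m.factorization p + j.factorization p := by
    intro p
    rw [Nat.factorization_mul hm0 hj0, Finsupp.add_apply]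
  rw [tau_apply (mul_ne_zero hm0 hj0), tau_apply hj0]
  have hsub : j.factorization.support ⊆ (m * j).factorization.support := by
    intro p hp
    rw [Finsupp.mem_support_iff] at hp ⊢
    rw [hfac]
    omega
  rw [Finsupp.prod_of_support_subset _ hsub _ (fun _ _ => dcoef_zero _)]
  unfold Finsupp.prod
  refine Finset.prod_le_prod (fun p _ => dcoef_nonneg (by norm_num) _) fun p _ => ?_
  apply s2a_anti
  rw [hfac]
  omega

/-- `DD` without the truncation: `DD N x = ∑_{n ≤ N} τ(n)² n^{-2x}`; in particular `DJ 1 1 1 N x = DD N x`. -/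
theorem DJ_one (N : ℕ) (x : ℝ) : DJ 1 1 1 N x = DD N x := by
  rw [s2a_DD]
  unfold DJ
  have hcs : cs 1 N = Finset.Icc 1 N := by
    unfold cs
    apply Finset.filter_true_of_mem
    intro h _
    exact Nat.coprime_one_right h
  rw [hcs]
  refine Finset.sum_congr rfl fun j hj => ?_
  have hj1 := (Finset.mem_Icc.mp hj).1
  rw [one_mul, Nat.cast_one, one_mul, s2a_split hj1, sq]

private theorem s2a_term {m n j : ℕ} (hm : 1 ≤ m) (hn : 1 ≤ n) (hj : 1 ≤ j) {x : ℝ}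
    (hx : 0 ≤ x) :
    0 ≤ tau (1/2) (m * j) * tau (1/2) (n * j) * (((m:ℝ) * j) ^ (-x) * ((n:ℝ) * j) ^ (-x)) ∧
    tau (1/2) (m * j) * tau (1/2) (n * j) * (((m:ℝ) * j) ^ (-x) * ((n:ℝ) * j) ^ (-x)) ≤
      tau (1/2) j ^ 2 * (j:ℝ) ^ (-(2 * x)) := by
  have hj0 : (0:ℝ) < j := by exact_mod_cast hj
  have hm1 : (1:ℝ) ≤ m := by exact_mod_cast hm
  have hn1 : (1:ℝ) ≤ n := by exact_mod_cast hn
  have t1 := tau_nonneg (α := 1/2) (by norm_num) (m * j)
  have t2 := tau_nonneg (α := 1/2) (by norm_num) (n * j)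
  have t3 := tau_nonneg (α := 1/2) (by norm_num) j
  have t4 := tau_half_mul_le hm hj
  have t5 := tau_half_mul_le hn hj
  have r1 : ((m:ℝ) * j) ^ (-x) ≤ (j:ℝ) ^ (-x) := by
    apply Real.rpow_le_rpow_of_nonpos hj0
    · nlinarith
    · linarith
  have r2 : ((n:ℝ) * j) ^ (-x) ≤ (j:ℝ) ^ (-x) := by
    apply Real.rpow_le_rpow_of_nonpos hj0
    · nlinarith
    · linarith
  have r3 : 0 ≤ ((m:ℝ) * j) ^ (-x) := by positivity
  have r4 : 0 ≤ ((n:ℝ) * j) ^ (-x) := by positivity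
  refine ⟨by positivity, ?_⟩
  rw [← s2a_split hj, sq]
  have h1 : tau (1/2) (m * j) * tau (1/2) (n * j) ≤ tau (1/2) j * tau (1/2) j :=
    mul_le_mul t4 t5 t2 t3
  have h2 : ((m:ℝ) * j) ^ (-x) * ((n:ℝ) * j) ^ (-x) ≤ (j:ℝ) ^ (-x) * (j:ℝ) ^ (-x) :=
    mul_le_mul r1 r2 r4 (by positivity)
  exact mul_le_mul h1 h2 (by positivity) (by positivity)

/-- `0 ≤ DJ ≤ DD` (termwise: `τ(mj) τ(nj) ≤ τ(j)²`, `(mj)^{-x} (nj)^{-x} ≤ j^{-2x}` for `x ≥ 0`). -/
theorem DJ_le {q m n : ℕ} (hm : 1 ≤ m) (hn : 1 ≤ n) (J : ℕ) {x : ℝ} (hx : 0 ≤ x) : 0 ≤ DJ q m n J x ∧ DJ q m n J x ≤ DD J x := by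
  have hsub : cs q J ⊆ Finset.Icc 1 J := Finset.filter_subset _ _
  constructor
  · unfold DJ
    refine Finset.sum_nonneg fun j hj => ?_
    exact (s2a_term hm hn (Finset.mem_Icc.mp (hsub hj)).1 hx).1
  · rw [s2a_DD]
    unfold DJ
    refine le_trans (Finset.sum_le_sum fun j hj =>
      (s2a_term hm hn (Finset.mem_Icc.mp (hsub hj)).1 hx).2) ?_
    exact Finset.sum_le_sum_of_subset_of_nonneg hsub fun j _ _ => s2a_g_nonneg x j

/-- The difference over `J' < j ≤ J` (same termwise bound). -/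
theorem DJ_diff {q m n : ℕ} (hm : 1 ≤ m) (hn : 1 ≤ n) {J' J : ℕ} (h : J' ≤ J) {x : ℝ} (hx : 0 ≤ x) :
    |DJ q m n J x - DJ q m n J' x| ≤ DD J x - DD J' x := by
  have hs1 : cs q J' ⊆ cs q J := by
    intro j hj
    unfold cs at hj ⊢
    rw [Finset.mem_filter, Finset.mem_Icc] at hj ⊢
    exact ⟨⟨hj.1.1, hj.1.2.trans h⟩, hj.2⟩
  have hs2 : Finset.Icc 1 J' ⊆ Finset.Icc 1 J := Finset.Icc_subset_Icc le_rfl h
  have hs3 : cs q J \ cs q J' ⊆ Finset.Icc 1 J \ Finset.Icc 1 J' := by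
    intro j hj
    unfold cs at hj
    rw [Finset.mem_sdiff, Finset.mem_filter, Finset.mem_filter] at hj
    rw [Finset.mem_sdiff]
    exact ⟨hj.1.1, fun h2 => hj.2 ⟨h2, hj.1.2⟩⟩
  have e1 := Finset.sum_sdiff (f := fun j => tau (1/2) (m * j) * tau (1/2) (n * j) *
    (((m:ℝ) * j) ^ (-x) * ((n:ℝ) * j) ^ (-x))) hs1
  have e2 := Finset.sum_sdiff (f := fun j : ℕ => tau (1/2) j ^ 2 * (j:ℝ) ^ (-(2 * x))) hs2
  have hj1 : ∀ j ∈ cs q J \ cs q J', 1 ≤ j := fun j hj =>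
    (Finset.mem_Icc.mp (Finset.mem_sdiff.mp (hs3 hj)).1).1
  rw [s2a_DD, s2a_DD]
  unfold DJ
  rw [← e1, ← e2, add_sub_cancel_right, add_sub_cancel_right, abs_of_nonneg
    (Finset.sum_nonneg fun j hj => (s2a_term hm hn (hj1 j hj) hx).1)]
  refine le_trans (Finset.sum_le_sum fun j hj => (s2a_term hm hn (hj1 j hj) hx).2) ?_
  exact Finset.sum_le_sum_of_subset_of_nonneg hs3 fun j _ _ => s2a_g_nonneg x j

/-- `DD` is monotone. -/
theorem DD_mono {J' J : ℕ} (h : J' ≤ J) (x : ℝ) : DD J' x ≤ DD J x := by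
  rw [s2a_DD, s2a_DD]
  exact Finset.sum_le_sum_of_subset_of_nonneg (Finset.Icc_subset_Icc le_rfl h)
    fun j _ _ => s2a_g_nonneg x j

end Pool.Agent.LibOM70
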