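import Pool.Agent.LibOM70.S2a

/-! ODD MOMENTS, row S2b. -/

set_option autoImplicit false

namespace Pool.Agent.LibOM70

open MeasureTheory Set Filter Topology Complex ProbabilityTheory
open scoped NNReal ComplexConjugate
open Pool.Agent.LibZM Pool.Agent.LibM3
open Pool.Agent.LibLaw15 hiding Lam

/-- ROW S2b. The edge is negligible.
PROOF. `DD_tendsto` (LibZM/HB7, for every exponent `θ > 0`): `DD (NT θ T) (1/2 + σ/log T) / Lam T → Pint (1/4) σ θ`. For `l < 1`:
eventually `NT (l θ) T ≤ NT θ T / B ≤ NT θ T` (`T^{lθ} B ≤ T^θ` for large `T`), so by `DD_mono` the quotient lies between `0` and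
`(DD (NT θ T) - DD (NT (lθ) T))/Lam T → Pint (1/4) σ θ - Pint (1/4) σ (l θ)`, which is as small as we like (`continuousAt_Pint`). -/
theorem edge1 {θ : ℝ} (hθ0 : 0 < θ) (σ : ℝ) (B : ℕ) (hB : 1 ≤ B) :
    Tendsto (fun T : ℝ => (DD (NT θ T) (lineT σ T) - DD (NT θ T / B) (lineT σ T)) / Lam T) atTop (𝓝 0) := by
  have hquot : ∀ T : ℝ, 1 < T → 0 ≤ (DD (NT θ T) (lineT σ T) -
      DD (NT θ T / B) (lineT σ T)) / Lam T := by
    intro T hT
    have h1 := DD_mono (Nat.div_le_self (NT θ T) B) (lineT σ T)
    exact div_nonneg (by linarith) (Lam_pos hT).le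
  rw [tendsto_order]
  constructor
  · intro c hc
    filter_upwards [eventually_gt_atTop 1] with T hT
    exact lt_of_lt_of_le hc (hquot T hT)
  · intro c hc
    -- the choice of `l`
    have hcont := continuousAt_Pint (α := 1/4) (by norm_num) σ (θ := θ)
    have h1 : Pint (1/4) σ θ - c < (fun l : ℝ => Pint (1/4) σ (l * θ)) 1 := by
      simp only [one_mul]
      linarith
    obtain ⟨δ, hδ, hδ'⟩ := Metric.eventually_nhds_iff.mp (hcont.eventually (lt_mem_nhds h1))
    set l : ℝ := 1 - min (δ / 2) (1 / 2) with hl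
    have hmin0 : 0 < min (δ / 2) (1 / 2) := lt_min (by linarith) (by norm_num)
    have hmin1 : min (δ / 2) (1 / 2) ≤ 1 / 2 := min_le_right _ _
    have hmin2 : min (δ / 2) (1 / 2) ≤ δ / 2 := min_le_left _ _
    have hl0 : 0 < l := by rw [hl]; linarith
    have hl1 : l < 1 := by rw [hl]; linarith
    have h2 : Pint (1/4) σ θ - c < Pint (1/4) σ (l * θ) := by
      apply hδ'
      rw [Real.dist_eq, hl, abs_of_nonpos (by linarith)]
      linarith
    have hA := DD_tendsto (θ := θ) σ hθ0
    have hAl := DD_tendsto (θ := l * θ) σ (by positivity)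
    have hsub := hA.sub hAl
    have h3 : Pint (1/4) σ θ - Pint (1/4) σ (l * θ) < c := by linarith
    have h4 := hsub.eventually (gt_mem_nhds h3)
    -- the lengths
    have hexp : 0 < θ * (1 - l) := mul_pos hθ0 (by linarith)
    have h5 := (tendsto_rpow_atTop hexp).eventually (eventually_ge_atTop (B : ℝ))
    filter_upwards [h4, h5, eventually_gt_atTop 1] with T hT4 hT5 hT
    have hT0 : 0 < T := by linarith
    have hBpos : 0 < B := hB
    have hN : NT (l * θ) T ≤ NT θ T / B := by
      rw [Nat.le_div_iff_mul_le hBpos]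
      unfold NT
      apply Nat.le_floor
      push_cast
      have h6 : ((⌊T ^ (l * θ)⌋₊ : ℕ) : ℝ) ≤ T ^ (l * θ) := Nat.floor_le (by positivity)
      have h7 : T ^ θ = T ^ (l * θ) * T ^ (θ * (1 - l)) := by
        rw [← Real.rpow_add hT0]
        congr 1
        ring
      rw [h7]
      exact mul_le_mul h6 hT5 (by positivity) (by positivity)
    have h8 := DD_mono hN (lineT σ T)
    refine lt_of_le_of_lt ?_ hT4
    unfold lineT at h8 ⊢
    rw [← sub_div]
    apply div_le_div_of_nonneg_right _ (Lam_pos hT).le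
    linarith

end Pool.Agent.LibOM70
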