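import Pool.Agent.LibOM70.Defs
import Pool.Agent.LibLaw15.A2

/-! ODD MOMENTS, row S3. -/

set_option autoImplicit false

namespace Pool.Agent.LibOM70

open MeasureTheory Set Filter Topology Complex ProbabilityTheory
open scoped NNReal ComplexConjugate
open Pool.Agent.LibZM Pool.Agent.LibM3
open Pool.Agent.LibLaw15 hiding Lam

private theorem s3_split {p : ℕ} (hp : p.Prime) {q : ℕ} (hq : ¬ p ∣ q) (N : ℕ) (F : ℕ → ℝ) :
    ∑ h ∈ cs q N, F h = ∑ i ∈ Finset.range (N + 1), ∑ h ∈ cs (q * p) (N / p ^ i), F (p ^ i * h) := by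
  have h1 := split_cs hp hq N fun h => ((F h : ℝ) : ℂ)
  exact_mod_cast h1

private theorem s3_tau {p : ℕ} (hp : p.Prime) {m l : ℕ} (hm : ¬ p ∣ m) (hl : ¬ p ∣ l) (α e : ℕ) :
    tau (1/2) (p ^ α * m * (p ^ e * l)) = dcoef (1/2) (e + α) * tau (1/2) (m * l) := by
  have h1 : p ^ α * m * (p ^ e * l) = p ^ (e + α) * (m * l) := by
    rw [pow_add]
    ring
  have h2 : Nat.Coprime (p ^ (e + α)) (m * l) :=
    Nat.Coprime.pow_left _ (Nat.Coprime.mul_right ((Nat.Prime.coprime_iff_not_dvd hp).2 hm)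
      ((Nat.Prime.coprime_iff_not_dvd hp).2 hl))
  rw [h1, (tau_isMultiplicative (1/2)).map_mul_of_coprime h2, tau_prime_pow _ hp]

private theorem s3_pow {p : ℕ} (m l α e : ℕ) (x : ℝ) :
    (((p ^ α * m : ℕ) : ℝ) * ((p ^ e * l : ℕ) : ℝ)) ^ (-x) =
      ((p:ℝ) ^ (-x)) ^ (e + α) * ((m:ℝ) * l) ^ (-x) := by
  have h1 : ((p ^ α * m : ℕ) : ℝ) * ((p ^ e * l : ℕ) : ℝ) = (p:ℝ) ^ (e + α) * ((m:ℝ) * l) := by
    push_cast
    rw [pow_add]
    ring
  rw [h1, Real.mul_rpow (by positivity) (by positivity),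
    Real.rpow_pow_comm (Nat.cast_nonneg p)]

/-- ROW S3. Peeling one prime.
PROOF. `split_cs` (LibLaw15/A2, complex valued: cast) with `F h` = the term of `DJ q (p^α m) (p^β n)`; for `l` coprime to `q p` and
`j = p^e l`: `τ(p^α m p^e l) = dcoef (1/2) (e + α) τ(m l)` (multiplicativity `tau_isMultiplicative`, `tau_prime_pow`, `p ∤ m l`),
the same for `n`, and `(p^α m p^e l)^{-x} (p^β n p^e l)^{-x} = (p^{-x})^{2e+α+β} (m l)^{-x} (n l)^{-x}` (`Real.mul_rpow`, `Real.rpow_natCast`). -/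
theorem DJ_peel {p : ℕ} (hp : p.Prime) {q m n : ℕ} (hq : ¬ p ∣ q) (hm : ¬ p ∣ m) (hn : ¬ p ∣ n) (α β J : ℕ) (x : ℝ) :
    DJ q (p ^ α * m) (p ^ β * n) J x = ∑ e ∈ Finset.range (J + 1),
      dcoef (1/2) (e + α) * dcoef (1/2) (e + β) * ((p:ℝ) ^ (-x)) ^ (2 * e + α + β) * DJ (q * p) m n (J / p ^ e) x := by
  unfold DJ
  rw [s3_split hp hq]
  refine Finset.sum_congr rfl fun e _ => ?_
  rw [Finset.mul_sum]
  refine Finset.sum_congr rfl fun l hl => ?_
  have hpl : ¬ p ∣ l := by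
    simp only [cs, Finset.mem_filter, Finset.mem_Icc] at hl
    have h1 : Nat.Coprime l p := Nat.Coprime.coprime_dvd_right (dvd_mul_left p q) hl.2
    exact (Nat.Prime.coprime_iff_not_dvd hp).1 h1.symm
  rw [s3_tau hp hm hpl, s3_tau hp hn hpl, s3_pow m l, s3_pow n l]
  rw [show 2 * e + α + β = (e + α) + (e + β) by ring, pow_add _ (e + α)]
  ring

end Pool.Agent.LibOM70
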