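import Pool.Agent.LibOM70.S2b
import Pool.Agent.LibOM70.S3
import Pool.Agent.LibLaw15.A6

/-! ODD MOMENTS, row S4. -/

set_option autoImplicit false

namespace Pool.Agent.LibOM70

open MeasureTheory Set Filter Topology Complex ProbabilityTheory
open scoped NNReal ComplexConjugate
open Pool.Agent.LibZM Pool.Agent.LibM3
open Pool.Agent.LibLaw15 hiding Lam

/-- The coefficient of the peeled prime on the line `x`. -/
noncomputable def s4_C (p α β : ℕ) (x : ℝ) (e : ℕ) : ℝ :=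
  dcoef (1/2) (e + α) * dcoef (1/2) (e + β) * ((p:ℝ) ^ (-x)) ^ (2 * e + α + β)

lemma s4_half_le (i : ℕ) : dcoef (1/2) i ≤ 1 := by
  have h := dcoef_mono (α := 1/2) (β := 1) (by norm_num) (by norm_num) i
  rwa [dcoef_one_left] at h

lemma s4_C_nonneg (p α β : ℕ) (x : ℝ) (e : ℕ) : 0 ≤ s4_C p α β x e := by
  unfold s4_C
  have h1 := dcoef_nonneg (α := 1/2) (by norm_num) (e + α)
  have h2 := dcoef_nonneg (α := 1/2) (by norm_num) (e + β)
  have h3 : (0:ℝ) ≤ (p:ℝ) ^ (-x) := Real.rpow_nonneg (Nat.cast_nonneg p) _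
  positivity

/-- the ratio of the majorant -/
noncomputable def s4_ρ : ℝ := (2:ℝ) ^ (-(1/4) : ℝ)

lemma s4_ρ_pos : 0 < s4_ρ := by unfold s4_ρ; positivity

lemma s4_ρ_lt : s4_ρ < 1 := by
  unfold s4_ρ
  exact Real.rpow_lt_one_of_one_lt_of_neg (by norm_num) (by norm_num)

lemma s4_C_le {p : ℕ} (hp : p.Prime) (α β : ℕ) {x : ℝ} (hx : 1/4 ≤ x) (e : ℕ) :
    s4_C p α β x e ≤ (s4_ρ ^ 2) ^ e := by
  have h1 := dcoef_nonneg (α := 1/2) (by norm_num) (e + α)
  have h2 := dcoef_nonneg (α := 1/2) (by norm_num) (e + β)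
  have h3 := s4_half_le (e + α)
  have h4 := s4_half_le (e + β)
  have hp2 : (2:ℝ) ≤ p := by exact_mod_cast hp.two_le
  have h5 : (0:ℝ) ≤ (p:ℝ) ^ (-x) := Real.rpow_nonneg (Nat.cast_nonneg p) _
  have h6 : (p:ℝ) ^ (-x) ≤ s4_ρ := by
    calc (p:ℝ) ^ (-x) ≤ (p:ℝ) ^ (-(1/4) : ℝ) :=
          Real.rpow_le_rpow_of_exponent_le (by linarith) (by linarith)
      _ ≤ (2:ℝ) ^ (-(1/4) : ℝ) :=
          Real.rpow_le_rpow_of_nonpos (by norm_num) hp2 (by norm_num)
  have h7 : dcoef (1/2) (e + α) * dcoef (1/2) (e + β) ≤ 1 := by nlinarith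
  have h8 : ((p:ℝ) ^ (-x)) ^ (2 * e + α + β) ≤ s4_ρ ^ (2 * e) :=
    (pow_le_pow_left₀ h5 h6 _).trans
      (pow_le_pow_of_le_one s4_ρ_pos.le s4_ρ_lt.le (by omega))
  unfold s4_C
  calc dcoef (1/2) (e + α) * dcoef (1/2) (e + β) * ((p:ℝ) ^ (-x)) ^ (2 * e + α + β)
      ≤ 1 * s4_ρ ^ (2 * e) := mul_le_mul h7 h8 (by positivity) (by norm_num)
    _ = (s4_ρ ^ 2) ^ e := by rw [one_mul, pow_mul]

lemma s4_geo : Summable fun e : ℕ => (s4_ρ ^ 2) ^ e := by
  have h0 := s4_ρ_pos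
  have h1 := s4_ρ_lt
  exact summable_geometric_of_lt_one (by positivity) (by nlinarith)

lemma s4_C_summable {p : ℕ} (hp : p.Prime) (α β : ℕ) {x : ℝ} (hx : 1/4 ≤ x) :
    Summable (s4_C p α β x) :=
  Summable.of_nonneg_of_le (s4_C_nonneg p α β x) (s4_C_le hp α β hx) s4_geo

lemma s4_cc (p α β : ℕ) : cc (rp p) α β = ∑' e, s4_C p α β (1/2) e := by
  have h : rp p = (p:ℝ) ^ (-(1/2) : ℝ) := by
    unfold rp
    rw [Real.sqrt_eq_rpow, ← Real.rpow_neg (Nat.cast_nonneg p)]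
  unfold cc s4_C
  rw [h]

lemma s4_C_tendsto {p : ℕ} (hp : p.Prime) (α β e : ℕ) (σ : ℝ) :
    Tendsto (fun T : ℝ => s4_C p α β (lineT σ T) e) atTop (𝓝 (s4_C p α β (1/2) e)) := by
  have hp0 : (0:ℝ) < p := by exact_mod_cast hp.pos
  have h1 : Tendsto (fun T : ℝ => lineT σ T) atTop (𝓝 (1/2)) := by
    have h2 : Tendsto (fun T : ℝ => 1/2 + σ / Real.log T) atTop (𝓝 (1/2 + 0)) :=
      tendsto_const_nhds.add (div_log_tendsto σ)
    rw [add_zero] at h2
    exact h2
  have h3 : Continuous fun x : ℝ => s4_C p α β x e := by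
    unfold s4_C
    have h4 : Continuous fun x : ℝ => (p:ℝ) ^ (-x) :=
      Continuous.rpow continuous_const continuous_neg fun x => Or.inl hp0.ne'
    exact continuous_const.mul (h4.pow _)
  exact (h3.tendsto (1/2)).comp h1

lemma s4_DJ_zero (q m n : ℕ) (x : ℝ) : DJ q m n 0 x = 0 := by
  unfold DJ cs
  simp

lemma s4_lt_pow {p : ℕ} (hp : p.Prime) {e J : ℕ} (h : J < e) : J / p ^ e = 0 := by
  apply Nat.div_eq_of_lt
  calc J < e := h
    _ < p ^ e := Nat.lt_pow_self hp.one_lt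

/-- ROW S4. Peeling one prime in the limit.
PROOF. By `DJ_peel` the quantity is `∑_e [coef_e(x_T) DJ(qp,m,n; NT/p^e, x_T) - coef_e(1/2) DJ(qp,m,n; NT, x_T)] / Lam T` with
`coef_e(x) = dcoef (1/2) (e+α) dcoef (1/2) (e+β) (p^{-x})^{2e+α+β}` and `x_T = lineT σ T → 1/2` (`rp p = (√p)⁻¹ = p^{-1/2}`);
the terms with `e > NT` of the finite sum vanish anyway (`NT / p^e = 0`, `DJ … 0 … = 0`), so both parts are sums over all `e : ℕ`.
Dominated convergence for series (`tendsto_tsum_of_dominated_convergence`): for each `e` the term tends to `0`, because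
`coef_e(x_T) → coef_e(1/2)`, `DJ/Lam` is bounded (`DJ_le`, `DD_tendsto`), and `(DJ(NT) - DJ(NT/p^e))/Lam → 0` (`DJ_diff`, `edge1`);
bound: `2 C (2^{-1/4})^{2e}` once `x_T ≥ 1/4` (`dcoef (1/2) _ ≤ 1`: `t2_half_le` in LibLaw15/T2 or `dcoef_mono`). -/
theorem peel_lim {p : ℕ} (hp : p.Prime) {q m n : ℕ} (hq : ¬ p ∣ q) (hm : ¬ p ∣ m) (hn : ¬ p ∣ n) (hm1 : 1 ≤ m) (hn1 : 1 ≤ n) (α β : ℕ)
    {θ : ℝ} (hθ0 : 0 < θ) (σ : ℝ) :
    Tendsto (fun T : ℝ => (DJ q (p ^ α * m) (p ^ β * n) (NT θ T) (lineT σ T) -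
      cc (rp p) α β * DJ (q * p) m n (NT θ T) (lineT σ T)) / Lam T) atTop (𝓝 0) := by
  -- bounds for the normalised diagonal sums
  have hDDt : Tendsto (fun T : ℝ => DD (NT θ T) (lineT σ T) / Lam T) atTop
      (𝓝 (Pint (1/4) σ θ)) := DD_tendsto σ hθ0
  obtain ⟨K, hK⟩ : ∃ K, K = Pint (1/4) σ θ + 1 := ⟨_, rfl⟩
  have hDD : ∀ᶠ T : ℝ in atTop, DD (NT θ T) (lineT σ T) / Lam T ≤ K := by
    filter_upwards [hDDt.eventually_lt_const (u := K) (by rw [hK]; linarith)] with T hT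
    exact hT.le
  have hgood : ∀ᶠ T : ℝ in atTop, (0 < Lam T ∧ 1/4 ≤ lineT σ T) ∧
      DD (NT θ T) (lineT σ T) / Lam T ≤ K := by
    filter_upwards [lineT_mem σ, hDD, eventually_gt_atTop 1] with T h1 h2 h3
    exact ⟨⟨Lam_pos h3, h1.1.le⟩, h2⟩
  -- the terms
  obtain ⟨F, hF⟩ : ∃ F : ℝ → ℕ → ℝ, F = fun T e =>
      (s4_C p α β (lineT σ T) e * DJ (q * p) m n (NT θ T / p ^ e) (lineT σ T) -
        s4_C p α β (1/2) e * DJ (q * p) m n (NT θ T) (lineT σ T)) / Lam T := ⟨_, rfl⟩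
  have hDJ : ∀ T : ℝ, 0 < Lam T → 1/4 ≤ lineT σ T → DD (NT θ T) (lineT σ T) / Lam T ≤ K →
      ∀ J, J ≤ NT θ T → 0 ≤ DJ (q * p) m n J (lineT σ T) / Lam T ∧
        DJ (q * p) m n J (lineT σ T) / Lam T ≤ K := by
    intro T h1 h2 h3 J hJ
    have h4 := DJ_le (q := q * p) hm1 hn1 J (x := lineT σ T) (by linarith)
    have h5 := DD_mono hJ (lineT σ T)
    refine ⟨div_nonneg h4.1 h1.le, le_trans ?_ h3⟩
    exact div_le_div_of_nonneg_right (h4.2.trans h5) h1.le
  have heq : ∀ᶠ T : ℝ in atTop, ∑' e, F T e =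
      (DJ q (p ^ α * m) (p ^ β * n) (NT θ T) (lineT σ T) -
        cc (rp p) α β * DJ (q * p) m n (NT θ T) (lineT σ T)) / Lam T := by
    filter_upwards [hgood] with T hT
    rw [hF]
    dsimp only
    have hfin : ∀ e ∉ Finset.range (NT θ T + 1),
        s4_C p α β (lineT σ T) e * DJ (q * p) m n (NT θ T / p ^ e) (lineT σ T) = 0 := by
      intro e he
      rw [Finset.mem_range, not_lt] at he
      rw [s4_lt_pow hp (by omega), s4_DJ_zero, mul_zero]
    have hs1 : Summable fun e => s4_C p α β (lineT σ T) e *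
        DJ (q * p) m n (NT θ T / p ^ e) (lineT σ T) := summable_of_ne_finset_zero hfin
    have hs2 : Summable fun e => s4_C p α β (1/2) e * DJ (q * p) m n (NT θ T) (lineT σ T) :=
      (s4_C_summable hp α β (by norm_num)).mul_right _
    rw [tsum_div_const, hs1.tsum_sub hs2, tsum_mul_right, ← s4_cc, tsum_eq_sum hfin,
      DJ_peel hp hq hm hn]
    rfl
  have h0 : Tendsto (fun T : ℝ => ∑' e, F T e) atTop (𝓝 (∑' _ : ℕ, (0:ℝ))) := by
    refine tendsto_tsum_of_dominated_convergence (bound := fun e => 2 * K * (s4_ρ ^ 2) ^ e)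
      (s4_geo.mul_left _) ?_ ?_
    · intro e
      have hB : 1 ≤ p ^ e := Nat.one_le_iff_ne_zero.2 (pow_ne_zero _ hp.ne_zero)
      have h1 := edge1 hθ0 σ (p ^ e) hB
      have h2 : Tendsto (fun T : ℝ => |s4_C p α β (lineT σ T) e - s4_C p α β (1/2) e| * K) atTop
          (𝓝 0) := by
        have h3 := ((s4_C_tendsto hp α β e σ).sub_const (s4_C p α β (1/2) e)).abs.mul_const K
        rw [sub_self, abs_zero, zero_mul] at h3
        exact h3
      have h4 := h1.add h2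
      rw [add_zero] at h4
      refine squeeze_zero_norm' ?_ h4
      filter_upwards [hgood] with T hT
      obtain ⟨⟨hL, hx⟩, hDDT⟩ := hT
      rw [hF]
      dsimp only
      rw [Real.norm_eq_abs]
      have hle : NT θ T / p ^ e ≤ NT θ T := Nat.div_le_self _ _
      have h5 := DJ_diff (q := q * p) hm1 hn1 hle (x := lineT σ T) (by linarith)
      have h6 := hDJ T hL hx hDDT (NT θ T) le_rfl
      have hC0 := s4_C_nonneg p α β (lineT σ T) e
      have hC1 : s4_C p α β (lineT σ T) e ≤ 1 := by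
        refine (s4_C_le hp α β hx e).trans ?_
        have := s4_ρ_pos
        have := s4_ρ_lt
        exact pow_le_one₀ (by positivity) (by nlinarith)
      have e1 : (s4_C p α β (lineT σ T) e * DJ (q * p) m n (NT θ T / p ^ e) (lineT σ T) -
          s4_C p α β (1/2) e * DJ (q * p) m n (NT θ T) (lineT σ T)) / Lam T =
          -(s4_C p α β (lineT σ T) e * ((DJ (q * p) m n (NT θ T) (lineT σ T) -
            DJ (q * p) m n (NT θ T / p ^ e) (lineT σ T)) / Lam T)) +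
          (s4_C p α β (lineT σ T) e - s4_C p α β (1/2) e) *
            (DJ (q * p) m n (NT θ T) (lineT σ T) / Lam T) := by
        field_simp
        ring
      rw [e1]
      refine (abs_add_le _ _).trans (add_le_add ?_ ?_)
      · rw [abs_neg, abs_mul, abs_of_nonneg hC0, abs_div, abs_of_pos hL]
        calc s4_C p α β (lineT σ T) e * (|DJ (q * p) m n (NT θ T) (lineT σ T) -
              DJ (q * p) m n (NT θ T / p ^ e) (lineT σ T)| / Lam T)
            ≤ 1 * (|DJ (q * p) m n (NT θ T) (lineT σ T) -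
              DJ (q * p) m n (NT θ T / p ^ e) (lineT σ T)| / Lam T) :=
              mul_le_mul_of_nonneg_right hC1 (by positivity)
          _ ≤ _ := by
              rw [one_mul]
              exact div_le_div_of_nonneg_right h5 hL.le
      · rw [abs_mul, abs_of_nonneg h6.1]
        exact mul_le_mul_of_nonneg_left h6.2 (abs_nonneg _)
    · filter_upwards [hgood] with T hT e
      obtain ⟨⟨hL, hx⟩, hDDT⟩ := hT
      rw [hF]
      dsimp only
      rw [Real.norm_eq_abs]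
      have h6 := hDJ T hL hx hDDT (NT θ T) le_rfl
      have h7 := hDJ T hL hx hDDT (NT θ T / p ^ e) (Nat.div_le_self _ _)
      have hK0 : 0 ≤ K := h6.1.trans h6.2
      have hC0 := s4_C_nonneg p α β (lineT σ T) e
      have hC1 := s4_C_le hp α β hx e
      have hC0' := s4_C_nonneg p α β (1/2) e
      have hC1' := s4_C_le hp α β (x := 1/2) (by norm_num) e
      have hρ : 0 ≤ (s4_ρ ^ 2) ^ e := by positivity
      have e1 : (s4_C p α β (lineT σ T) e * DJ (q * p) m n (NT θ T / p ^ e) (lineT σ T) -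
          s4_C p α β (1/2) e * DJ (q * p) m n (NT θ T) (lineT σ T)) / Lam T =
          s4_C p α β (lineT σ T) e * (DJ (q * p) m n (NT θ T / p ^ e) (lineT σ T) / Lam T) -
          s4_C p α β (1/2) e * (DJ (q * p) m n (NT θ T) (lineT σ T) / Lam T) := by
        ring
      rw [e1]
      have h8 : s4_C p α β (lineT σ T) e * (DJ (q * p) m n (NT θ T / p ^ e) (lineT σ T) / Lam T) ≤
          (s4_ρ ^ 2) ^ e * K := mul_le_mul hC1 h7.2 h7.1 hρ
      have h9 : s4_C p α β (1/2) e * (DJ (q * p) m n (NT θ T) (lineT σ T) / Lam T) ≤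
          (s4_ρ ^ 2) ^ e * K := mul_le_mul hC1' h6.2 h6.1 hρ
      have h10 := mul_nonneg hC0 h7.1
      have h11 := mul_nonneg hC0' h6.1
      have h12 : 0 ≤ (s4_ρ ^ 2) ^ e * K := by positivity
      rw [abs_le]
      constructor <;> nlinarith
  rw [tsum_zero] at h0
  exact h0.congr' heq

end Pool.Agent.LibOM70
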