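import Pool.Agent.LibOM70.S4
import Pool.Agent.LibLaw15.A11
import Pool.Agent.LibLaw15.A12

/-! ODD MOMENTS, row S5. -/

set_option autoImplicit false

namespace Pool.Agent.LibOM70

open MeasureTheory Set Filter Topology Complex ProbabilityTheory
open scoped NNReal ComplexConjugate
open Pool.Agent.LibZM Pool.Agent.LibM3
open Pool.Agent.LibLaw15 hiding Lam

private theorem s5_step {r : ℕ} {p : Fin r → ℕ} (hp : ∀ i, (p i).Prime) (hinj : Function.Injective p) (a : Fin r → ℤ) {θ : ℝ}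
    (hθ0 : 0 < θ) (σ : ℝ) {i₀ : Fin r} {s : Finset (Fin r)} (h : i₀ ∉ s) :
    Tendsto (fun T : ℝ => (DJ (∏ i ∈ s, p i) (∏ i ∈ sᶜ, p i ^ (a i).toNat) (∏ i ∈ sᶜ, p i ^ (-(a i)).toNat) (NT θ T) (lineT σ T) -
      cc (rp (p i₀)) (a i₀).toNat (-(a i₀)).toNat * DJ (∏ i ∈ insert i₀ s, p i) (∏ i ∈ (insert i₀ s)ᶜ, p i ^ (a i).toNat)
        (∏ i ∈ (insert i₀ s)ᶜ, p i ^ (-(a i)).toNat) (NT θ T) (lineT σ T)) / Lam T) atTop (𝓝 0) := by
  have hq : ¬ p i₀ ∣ ∏ i ∈ s, p i := A11_ndvd' hp hinj h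
  have hm : ¬ p i₀ ∣ ∏ i ∈ (insert i₀ s)ᶜ, p i ^ (a i).toNat := A11_ndvd hp hinj (by simp) _
  have hn : ¬ p i₀ ∣ ∏ i ∈ (insert i₀ s)ᶜ, p i ^ (-(a i)).toNat := A11_ndvd hp hinj (by simp) _
  have hm1 : 1 ≤ ∏ i ∈ (insert i₀ s)ᶜ, p i ^ (a i).toNat :=
    Nat.one_le_iff_ne_zero.2 (Finset.prod_ne_zero_iff.2 fun i _ => pow_ne_zero _ (hp i).ne_zero)
  have hn1 : 1 ≤ ∏ i ∈ (insert i₀ s)ᶜ, p i ^ (-(a i)).toNat :=
    Nat.one_le_iff_ne_zero.2 (Finset.prod_ne_zero_iff.2 fun i _ => pow_ne_zero _ (hp i).ne_zero)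
  rw [A11_compl h (fun i => p i ^ (a i).toNat), A11_compl h (fun i => p i ^ (-(a i)).toNat),
    Finset.prod_insert h, mul_comm (p i₀) (∏ i ∈ s, p i)]
  exact peel_lim (hp i₀) hq hm hn hm1 hn1 _ _ hθ0 σ

private theorem s5_all {r : ℕ} {p : Fin r → ℕ} (hp : ∀ i, (p i).Prime) (hinj : Function.Injective p) (a : Fin r → ℤ) {θ : ℝ}
    (hθ0 : 0 < θ) (σ : ℝ) :
    Tendsto (fun T : ℝ => (DJ 1 (mP p a) (nP p a) (NT θ T) (lineT σ T) -
      (∏ i, cc (rp (p i)) (a i).toNat (-(a i)).toNat) * DJ (qP p) 1 1 (NT θ T) (lineT σ T)) / Lam T) atTop (𝓝 0) := by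
  classical
  have key : ∀ s : Finset (Fin r), Tendsto (fun T : ℝ => (DJ 1 (mP p a) (nP p a) (NT θ T) (lineT σ T) -
      (∏ i ∈ s, cc (rp (p i)) (a i).toNat (-(a i)).toNat) * DJ (∏ i ∈ s, p i) (∏ i ∈ sᶜ, p i ^ (a i).toNat)
        (∏ i ∈ sᶜ, p i ^ (-(a i)).toNat) (NT θ T) (lineT σ T)) / Lam T) atTop (𝓝 0) := by
    intro s
    induction s using Finset.induction_on with
    | empty =>
      have h1 : ∀ T : ℝ, (DJ 1 (mP p a) (nP p a) (NT θ T) (lineT σ T) -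
        (∏ i ∈ (∅ : Finset (Fin r)), cc (rp (p i)) (a i).toNat (-(a i)).toNat) * DJ (∏ i ∈ (∅ : Finset (Fin r)), p i)
          (∏ i ∈ (∅ : Finset (Fin r))ᶜ, p i ^ (a i).toNat) (∏ i ∈ (∅ : Finset (Fin r))ᶜ, p i ^ (-(a i)).toNat)
          (NT θ T) (lineT σ T)) / Lam T = 0 := by
        intro T
        rw [Finset.prod_empty, Finset.prod_empty, Finset.compl_empty, one_mul]
        unfold mP nP
        rw [sub_self, zero_div]
      simp_rw [h1]
      exact tendsto_const_nhds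
    | insert i₀ s h ih =>
      have h1 := s5_step hp hinj a hθ0 σ h
      have h2 := ih.add (h1.const_mul (∏ i ∈ s, cc (rp (p i)) (a i).toNat (-(a i)).toNat))
      rw [mul_zero, add_zero] at h2
      refine h2.congr fun T => ?_
      rw [← mul_div_assoc, ← add_div]
      congr 1
      rw [Finset.prod_insert h (f := fun i => cc (rp (p i)) (a i).toNat (-(a i)).toNat)]
      ring
  have h := key Finset.univ
  simp only [Finset.compl_univ, Finset.prod_empty] at h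
  exact h

private theorem s5_cc_pos {p : ℕ} (hp : p.Prime) : 0 < cc (rp p) 0 0 := by
  obtain ⟨h0, h1, -⟩ := rp_mem hp
  have hnn : ∀ e : ℕ, 0 ≤ dcoef (1/2) (e + 0) * dcoef (1/2) (e + 0) * rp p ^ (2 * e + 0 + 0) := fun e =>
    mul_nonneg (mul_self_nonneg _) (pow_nonneg h0.le _)
  have hle : ∀ e : ℕ, dcoef (1/2) (e + 0) * dcoef (1/2) (e + 0) * rp p ^ (2 * e + 0 + 0) ≤ (rp p ^ 2) ^ e := by
    intro e
    have h2 : dcoef (1/2) (e + 0) ≤ 1 := by
      have := dcoef_mono (α := 1/2) (β := 1) (by norm_num) (by norm_num) (e + 0)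
      rwa [dcoef_one_left] at this
    have h3 : 0 ≤ dcoef (1/2) (e + 0) := dcoef_nonneg (by norm_num) _
    have h4 : rp p ^ (2 * e + 0 + 0) = (rp p ^ 2) ^ e := by rw [← pow_mul]; rfl
    rw [h4]
    have h5 : dcoef (1/2) (e + 0) * dcoef (1/2) (e + 0) ≤ 1 := mul_le_one₀ h2 h3 h2
    have h6 : 0 ≤ (rp p ^ 2) ^ e := by positivity
    exact mul_le_of_le_one_left h6 h5
  have hs : Summable fun e : ℕ => dcoef (1/2) (e + 0) * dcoef (1/2) (e + 0) * rp p ^ (2 * e + 0 + 0) :=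
    Summable.of_nonneg_of_le hnn hle (summable_geometric_of_lt_one (by positivity) (pow_lt_one₀ h0.le h1 (by norm_num)))
  unfold cc
  have h7 := hs.le_tsum 0 (fun j _ => hnn j)
  simp only [add_zero, mul_zero, pow_zero, mul_one, dcoef_zero] at h7 ⊢
  linarith

private theorem s5_line (σ : ℝ) : ∀ᶠ T : ℝ in atTop, 0 ≤ lineT σ T := by
  have h1 : Tendsto (fun T : ℝ => lineT σ T) atTop (𝓝 (1/2 + 0)) := by
    unfold lineT
    exact tendsto_const_nhds.add (Tendsto.div_atTop tendsto_const_nhds Real.tendsto_log_atTop)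
  filter_upwards [h1.eventually_const_lt (u := 0) (by norm_num)] with T hT
  exact hT.le

/-- ROW S5. The limit of the diagonal sum.
PROOF. Induct over a `Finset` `s` of indices (pattern of `A11_step`, `peel_all` in LibLaw15/A11.lean; helpers `A11_ndvd`, `A11_ndvd'`, `A11_compl`):
`(DJ 1 (mP p a) (nP p a) (NT) - (∏_{i ∈ s} cc (rp (p i)) (a i).toNat (-(a i)).toNat) * DJ (∏_{i ∈ s} p i) (∏_{i ∉ s} p i ^ (a i).toNat) (∏_{i ∉ s} p i ^ (-(a i)).toNat) (NT)) / Lam → 0`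
by `peel_lim` and boundedness. With `s = univ`: `(DJ 1 (mP) (nP) (NT) - (∏ cc …) * DJ (qP p) 1 1 (NT)) / Lam → 0`. Apply it with `a = 0`:
`DJ 1 1 1 (NT) = DD (NT)` (`DJ_one`) and `DD_tendsto` give `DJ (qP p) 1 1 (NT) / Lam → Pint (1/4) σ θ / ∏ cc (rp (p i)) 0 0` (the product is `≥ 1`:
the term `e = 0`). Finally replace `NT` by `NT / B` (`DJ_diff`, `edge1`). -/
theorem DJ_lim {r : ℕ} {p : Fin r → ℕ} (hp : ∀ i, (p i).Prime) (hinj : Function.Injective p) (a : Fin r → ℤ) {θ : ℝ} (hθ0 : 0 < θ) (σ : ℝ)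
    (B : ℕ) (hB : 1 ≤ B) :
    Tendsto (fun T : ℝ => DJ 1 (mP p a) (nP p a) (NT θ T / B) (lineT σ T) / Lam T) atTop
      (𝓝 (Pint (1/4) σ θ * ∏ i, (cc (rp (p i)) (a i).toNat (-(a i)).toNat / cc (rp (p i)) 0 0))) := by
  classical
  set C0 : ℝ := ∏ i, cc (rp (p i)) 0 0 with hC0
  have hC0p : 0 < C0 := Finset.prod_pos fun i _ => s5_cc_pos (hp i)
  set Ca : ℝ := ∏ i, cc (rp (p i)) (a i).toNat (-(a i)).toNat with hCa
  -- the sum over the integers coprime to the primes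
  have hD : Tendsto (fun T : ℝ => DJ 1 1 1 (NT θ T) (lineT σ T) / Lam T) atTop (𝓝 (Pint (1/4) σ θ)) := by
    refine (DD_tendsto σ hθ0).congr fun T => ?_
    rw [DJ_one]
    rfl
  have h0 := s5_all hp hinj (fun _ => (0 : ℤ)) hθ0 σ
  have hm0 : mP p (fun _ => (0 : ℤ)) = 1 := by simp [mP]
  have hn0 : nP p (fun _ => (0 : ℤ)) = 1 := by simp [nP]
  rw [hm0, hn0] at h0
  simp only [Int.toNat_zero, neg_zero] at h0
  rw [← hC0] at h0
  have hq : Tendsto (fun T : ℝ => DJ (qP p) 1 1 (NT θ T) (lineT σ T) / Lam T) atTop (𝓝 (Pint (1/4) σ θ / C0)) := by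
    have h1 := (hD.sub h0).div_const C0
    rw [sub_zero] at h1
    refine h1.congr fun T => ?_
    rw [← sub_div, sub_sub_cancel, mul_div_assoc, mul_div_cancel_left₀ _ hC0p.ne']
  have h2 := (s5_all hp hinj a hθ0 σ).add (hq.const_mul Ca)
  rw [zero_add] at h2
  -- full length
  have h3 : Tendsto (fun T : ℝ => DJ 1 (mP p a) (nP p a) (NT θ T) (lineT σ T) / Lam T) atTop
      (𝓝 (Ca * (Pint (1/4) σ θ / C0))) := by
    refine h2.congr fun T => ?_
    rw [← hCa, ← mul_div_assoc, ← add_div]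
    congr 1
    ring
  -- the difference
  have hm1 : 1 ≤ mP p a := by
    rw [mP]
    exact Nat.one_le_iff_ne_zero.2 (Finset.prod_ne_zero_iff.2 fun i _ => pow_ne_zero _ (hp i).ne_zero)
  have hn1 : 1 ≤ nP p a := by
    rw [nP]
    exact Nat.one_le_iff_ne_zero.2 (Finset.prod_ne_zero_iff.2 fun i _ => pow_ne_zero _ (hp i).ne_zero)
  have h4 : Tendsto (fun T : ℝ => (DJ 1 (mP p a) (nP p a) (NT θ T) (lineT σ T) -
      DJ 1 (mP p a) (nP p a) (NT θ T / B) (lineT σ T)) / Lam T) atTop (𝓝 0) := by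
    refine squeeze_zero_norm' ?_ (edge1 hθ0 σ B hB)
    filter_upwards [s5_line σ, eventually_ge_atTop 1] with T hT hT1
    have hL : 0 ≤ Lam T := by
      unfold Lam
      have := Aconst_pos (κ := 1/2) (by norm_num)
      have := Real.log_nonneg hT1
      positivity
    rw [norm_div, Real.norm_eq_abs, Real.norm_eq_abs, abs_of_nonneg hL]
    exact div_le_div_of_nonneg_right (DJ_diff hm1 hn1 (Nat.div_le_self _ _) hT) hL
  have h5 := h3.sub h4
  rw [sub_zero] at h5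
  have h6 : Pint (1/4) σ θ * ∏ i, (cc (rp (p i)) (a i).toNat (-(a i)).toNat / cc (rp (p i)) 0 0) =
      Ca * (Pint (1/4) σ θ / C0) := by
    rw [Finset.prod_div_distrib, ← hCa, ← hC0]
    ring
  rw [h6]
  refine h5.congr fun T => ?_
  rw [← sub_div, sub_sub_cancel]

end Pool.Agent.LibOM70
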