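import Pool.Agent.LibOM70.S1
import Pool.Agent.LibOM70.S5
import Pool.Agent.LibOM70.S6
import Pool.Agent.LibLaw15.E1b
import Pool.Agent.LibLaw15.T9
import Pool.Agent.LibZM.HB8

/-! ODD MOMENTS, row S7. -/

set_option autoImplicit false

namespace Pool.Agent.LibOM70

open MeasureTheory Set Filter Topology Complex ProbabilityTheory
open scoped NNReal ComplexConjugate
open Pool.Agent.LibZM Pool.Agent.LibM3
open Pool.Agent.LibLaw15 hiding Lam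

theorem S7_alg (Y A M M' L : ℝ) (hM : M ≠ 0) (hL : L ≠ 0) : (Y - A / M * L * M') / L = Y / L - A * (M' / M) := by
  field_simp

theorem S7_err {θ : ℝ} (hθ0 : 0 < θ) {V : ℝ → ℝ≥0} {ε₀ : ℝ} (hε₀ : 0 < ε₀)
    (hV : ∀ᶠ T : ℝ in atTop, T ^ (2 * θ + ε₀) ≤ (V T : ℝ)) (M : ℕ) (hM : 1 ≤ M) :
    Tendsto (fun T : ℝ => (NT θ T : ℝ) ^ 2 * Real.exp (-(V T : ℝ) / (2 * ((M * NT θ T : ℕ) : ℝ) ^ 2))) atTop (𝓝 0) := by
  have hM0 : (0:ℝ) < M := by exact_mod_cast hM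
  have h1 := lim_exp (a := 1 / (2 * (M:ℝ) ^ 2)) (by positivity) hε₀ (2 * θ)
  refine squeeze_zero' (Eventually.of_forall fun T => by positivity) ?_ h1
  filter_upwards [hV, eventually_ge_atTop 1] with T h2 hT
  have hT0 : 0 < T := by linarith
  have hN := NT_le_rpow θ hT0
  have hN1 : 1 ≤ NT θ T := one_le_NT hθ0.le hT
  have hNr : (0:ℝ) < NT θ T := by exact_mod_cast hN1
  have e1 : (NT θ T : ℝ) ^ 2 ≤ T ^ (2 * θ) := by
    calc (NT θ T : ℝ) ^ 2 ≤ (T ^ θ) ^ 2 := by gcongr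
      _ = T ^ (2 * θ) := by
        rw [← Real.rpow_natCast, ← Real.rpow_mul hT0.le]
        congr 1
        push_cast
        ring
  have e2 : Real.exp (-(V T : ℝ) / (2 * ((M * NT θ T : ℕ) : ℝ) ^ 2)) ≤ Real.exp (-(1 / (2 * (M:ℝ) ^ 2) * T ^ ε₀)) := by
    apply Real.exp_le_exp.2
    rw [neg_div, neg_le_neg_iff]
    push_cast
    rw [le_div_iff₀ (by positivity)]
    have h3 : T ^ ε₀ * (NT θ T : ℝ) ^ 2 ≤ (V T : ℝ) := by
      calc T ^ ε₀ * (NT θ T : ℝ) ^ 2 ≤ T ^ ε₀ * T ^ (2 * θ) := by gcongr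
        _ = T ^ (2 * θ + ε₀) := by
          rw [← Real.rpow_add hT0]
          congr 1
          ring
        _ ≤ (V T : ℝ) := h2
    have h4 : 1 / (2 * (M:ℝ) ^ 2) * T ^ ε₀ * (2 * ((M:ℝ) * (NT θ T : ℝ)) ^ 2) = T ^ ε₀ * (NT θ T : ℝ) ^ 2 := by
      field_simp
    rw [h4]
    exact h3
  gcongr

theorem S7_char {η : ℝ} {θ : ℝ} (hθ0 : 0 < θ) (σ : ℝ) {V : ℝ → ℝ≥0} {ε₀ : ℝ} (hε₀ : 0 < ε₀)
    (hV : ∀ᶠ T : ℝ in atTop, T ^ (2 * θ + ε₀) ≤ (V T : ℝ)) {r : ℕ} {p : Fin r → ℕ} (hp : ∀ i, (p i).Prime) (hinj : Function.Injective p)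
    (a : Fin r → ℤ) :
    Tendsto (fun P : ℝ × ℝ => ((∫ t, ((‖PP (NT θ P.1) (((lineT σ P.1 : ℝ) : ℂ) + t * I)‖ ^ 2 : ℝ) : ℂ) *
      UnitAddTorus.mFourier a (xt p t) ∂(gaussianReal P.2 (V P.1))) -
      ((Pint (1/4) σ θ / MT1 p 1 * Lam P.1 : ℝ) : ℂ) * ∫ x, UnitAddTorus.mFourier a x * ((ET p x : ℝ) : ℂ) ∂(muT r)) /
      ((Lam P.1 : ℝ) : ℂ)) (Fl η) (𝓝 0) := by
  obtain ⟨hm1, hn1, hmn, -, -⟩ := mnP hp hinj a
  set m := mP p a with hm
  set n := nP p a with hn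
  have hM1 : 1 ≤ max m n := hm1.trans (le_max_left _ _)
  have hlim := (DJ_lim hp hinj a hθ0 σ (max m n) hM1).comp (Fl_fst η)
  have herr := (S7_err hθ0 hε₀ hV (max m n) hM1).comp (Fl_fst η)
  have hL := (Fl_fst η).eventually (Lam_tendsto.eventually_ge_atTop 1)
  have hline := (Fl_fst η).eventually (lineT_mem σ)
  -- first part
  have hA : Tendsto (fun P : ℝ × ℝ => ((∫ t, ((‖PP (NT θ P.1) (((lineT σ P.1 : ℝ) : ℂ) + t * I)‖ ^ 2 : ℝ) : ℂ) *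
      UnitAddTorus.mFourier a (xt p t) ∂(gaussianReal P.2 (V P.1))) -
      ((DJ 1 m n (NT θ P.1 / max m n) (lineT σ P.1) : ℝ) : ℂ)) / ((Lam P.1 : ℝ) : ℂ)) (Fl η) (𝓝 0) := by
    rw [tendsto_zero_iff_norm_tendsto_zero]
    refine squeeze_zero' (Eventually.of_forall fun P => norm_nonneg _) ?_ herr
    filter_upwards [hL, hline] with P h1 h2
    have h3 := sq_char hm1 hn1 hmn (NT θ P.1) (x := lineT σ P.1) (by linarith [h2.1]) P.2 (V P.1)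
    rw [norm_div, Complex.norm_real, Real.norm_eq_abs, abs_of_pos (by linarith)]
    simp_rw [mF_xt hp a]
    rw [← hm, ← hn]
    refine (div_le_self (norm_nonneg _) h1).trans ?_
    exact h3
  -- second part
  have hB : Tendsto (fun P : ℝ × ℝ => ((DJ 1 m n (NT θ P.1 / max m n) (lineT σ P.1) : ℝ) : ℂ) / ((Lam P.1 : ℝ) : ℂ) -
      ((Pint (1/4) σ θ / MT1 p 1 * Lam P.1 : ℝ) : ℂ) * (∫ x, UnitAddTorus.mFourier a x * ((ET p x : ℝ) : ℂ) ∂(muT r)) /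
      ((Lam P.1 : ℝ) : ℂ)) (Fl η) (𝓝 0) := by
    obtain ⟨hMT0, hMT⟩ := MT1_one hp
    have h1 : ∀ᶠ P : ℝ × ℝ in Fl η, (((DJ 1 m n (NT θ P.1 / max m n) (lineT σ P.1) / Lam P.1 -
        Pint (1/4) σ θ * ∏ i, (cc (rp (p i)) (a i).toNat (-(a i)).toNat / cc (rp (p i)) 0 0) : ℝ)) : ℂ) =
        ((DJ 1 m n (NT θ P.1 / max m n) (lineT σ P.1) : ℝ) : ℂ) / ((Lam P.1 : ℝ) : ℂ) -
      ((Pint (1/4) σ θ / MT1 p 1 * Lam P.1 : ℝ) : ℂ) * (∫ x, UnitAddTorus.mFourier a x * ((ET p x : ℝ) : ℂ) ∂(muT r)) /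
      ((Lam P.1 : ℝ) : ℂ) := by
      filter_upwards [hL] with P hP
      have hP0 : Lam P.1 ≠ 0 := by linarith
      rw [← prod_cc hp a, ← Complex.ofReal_mul, ← Complex.ofReal_div, ← Complex.ofReal_div, ← Complex.ofReal_sub]
      congr 1
      rw [Finset.prod_div_distrib, ← hMT]
      field_simp
    have h2 : Tendsto (fun P : ℝ × ℝ => DJ 1 m n (NT θ P.1 / max m n) (lineT σ P.1) / Lam P.1 -
        Pint (1/4) σ θ * ∏ i, (cc (rp (p i)) (a i).toNat (-(a i)).toNat / cc (rp (p i)) 0 0)) (Fl η) (𝓝 0) := by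
      have := hlim.sub_const (Pint (1/4) σ θ * ∏ i, (cc (rp (p i)) (a i).toNat (-(a i)).toNat / cc (rp (p i)) 0 0))
      rw [sub_self] at this
      exact this
    have h3 := (Complex.continuous_ofReal.tendsto 0).comp h2
    rw [Complex.ofReal_zero] at h3
    exact h3.congr' h1
  have hAB := hA.add hB
  rw [add_zero] at hAB
  refine hAB.congr fun P => ?_
  rw [← add_sub_assoc, ← add_div, sub_add_cancel, ← sub_div]

/-- ROW S7. The mean square of the polynomial with continuous weights in the phases.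
PROOF (pattern of `law_six` in LibLaw15/E4.lean). `equi_meas` with `μ P = gaussianReal P.2 (V P.1)`, `g P t = ‖PP (NT θ P.1) (lineT σ P.1 + tI)‖²`,
`V = ET p` (`ET_props`), `κ P = (Pint (1/4) σ θ / MT1 p 1 * Lam P.1 : ℝ)`, `Nm P = Lam P.1`. For each `a`: `mF_xt` turns the character into
`chr (mP p a) (nP p a)`, `mnP` gives `1 ≤ mP, nP` and coprimality, `sq_char` with `N = NT θ P.1`, `x = lineT σ P.1 ≥ 0` has error
`≤ (T^θ)² exp (-T^{2θ+ε₀}/(2 M² T^{2θ})) = T^{2θ} exp (-T^{ε₀}/(2M²)) → 0`; `DJ_lim` with `B = max (mP p a) (nP p a)`; and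
`Pint * ∏ (cc …/cc … 0 0) = Pint/MT1 p 1 * ∫ mFourier a * ET` by `prod_cc`, `MT1_one`. The bound `B` in `equi_meas`: from the case `a = 0`.
Integrability of `g`: bounded continuous on the line (`norm_PP_line_le` for `x ≥ 0`, `differentiable_PP`), so for all `P` with `lineT σ P.1 ≥ 0`
(eventually; use the eventual form of the hypothesis `hgi`). Take real parts at the end as in `law_six`. -/
theorem sq_law {η : ℝ} (hη : 0 < η) {θ : ℝ} (hθ0 : 0 < θ) (hθ1 : θ < 1) (σ : ℝ) {V : ℝ → ℝ≥0} {ε₀ : ℝ} (hε₀ : 0 < ε₀)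
    (hV : ∀ᶠ T : ℝ in atTop, T ^ (2 * θ + ε₀) ≤ (V T : ℝ)) {r : ℕ} {p : Fin r → ℕ} (hp : ∀ i, (p i).Prime) (hinj : Function.Injective p)
    {w : Tor r → ℝ} (hw : Continuous w) :
    Tendsto (fun P : ℝ × ℝ => (∫ t, ‖PP (NT θ P.1) (((lineT σ P.1 : ℝ) : ℂ) + t * I)‖ ^ 2 * w (xt p t) ∂(gaussianReal P.2 (V P.1))) / Lam P.1)
      (Fl η) (𝓝 (Pint (1/4) σ θ * TM1 p w)) := by
  obtain ⟨hETc, hET0⟩ := ET_props hp
  obtain ⟨hMT0, hMT⟩ := MT1_one hp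
  have hchar := S7_char (η := η) hθ0 σ hε₀ hV hp hinj
  have hL := (Fl_fst η).eventually (Lam_tendsto.eventually_ge_atTop 1)
  have hline := (Fl_fst η).eventually (lineT_mem σ)
  have hgi : ∀ᶠ P : ℝ × ℝ in Fl η, Integrable (fun t : ℝ => ‖PP (NT θ P.1) (((lineT σ P.1 : ℝ) : ℂ) + t * I)‖ ^ 2)
      (gaussianReal P.2 (V P.1)) := by
    filter_upwards [hline] with P h2
    have hc : Continuous (fun t : ℝ => ‖PP (NT θ P.1) (((lineT σ P.1 : ℝ) : ℂ) + t * I)‖ ^ 2) := by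
      have := (differentiable_PP (NT θ P.1)).continuous
      fun_prop
    refine Integrable.mono' (g := fun _ => (NT θ P.1 : ℝ) ^ 2) (integrable_const _) hc.aestronglyMeasurable
      (Eventually.of_forall fun t => ?_)
    rw [Real.norm_eq_abs, abs_of_nonneg (by positivity)]
    have := norm_PP_line_le (N := NT θ P.1) (x := lineT σ P.1) (by linarith [h2.1]) t
    gcongr
  -- the total mass
  have h0 : Tendsto (fun P : ℝ × ℝ => (∫ t, ‖PP (NT θ P.1) (((lineT σ P.1 : ℝ) : ℂ) + t * I)‖ ^ 2 ∂(gaussianReal P.2 (V P.1))) / Lam P.1)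
      (Fl η) (𝓝 (Pint (1/4) σ θ)) := by
    have h1 := hchar 0
    have hre := (Complex.continuous_re.tendsto 0).comp h1
    rw [Complex.zero_re] at hre
    have h2 : (∫ x, UnitAddTorus.mFourier (0 : Fin r → ℤ) x * ((ET p x : ℝ) : ℂ) ∂(muT r)) = ((MT1 p 1 : ℝ) : ℂ) := by
      unfold MT1
      have e0 : ∀ x : Tor r, UnitAddTorus.mFourier (0 : Fin r → ℤ) x * ((ET p x : ℝ) : ℂ) =
          (((1 : Tor r → ℝ) x * ET p x : ℝ) : ℂ) := fun x => by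
        simp [UnitAddTorus.mFourier]
      simp_rw [e0]
      exact integral_ofReal
    have h3 : ∀ᶠ P : ℝ × ℝ in Fl η, (Complex.re ∘ fun P : ℝ × ℝ => ((∫ t : ℝ, ((‖PP (NT θ P.1) (((lineT σ P.1 : ℝ) : ℂ) + t * I)‖ ^ 2 : ℝ) : ℂ) *
      UnitAddTorus.mFourier 0 (xt p t) ∂(gaussianReal P.2 (V P.1))) -
      ((Pint (1/4) σ θ / MT1 p 1 * Lam P.1 : ℝ) : ℂ) * ∫ x, UnitAddTorus.mFourier 0 x * ((ET p x : ℝ) : ℂ) ∂(muT r)) /
      ((Lam P.1 : ℝ) : ℂ)) P = (∫ t, ‖PP (NT θ P.1) (((lineT σ P.1 : ℝ) : ℂ) + t * I)‖ ^ 2 ∂(gaussianReal P.2 (V P.1))) / Lam P.1 -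
        Pint (1/4) σ θ := by
      filter_upwards [hL] with P hP
      have hP0 : Lam P.1 ≠ 0 := by linarith
      simp only [Function.comp_apply]
      have e1 : ∀ t : ℝ, ((‖PP (NT θ P.1) (((lineT σ P.1 : ℝ) : ℂ) + t * I)‖ ^ 2 : ℝ) : ℂ) * UnitAddTorus.mFourier (0 : Fin r → ℤ) (xt p t) =
          ((‖PP (NT θ P.1) (((lineT σ P.1 : ℝ) : ℂ) + t * I)‖ ^ 2 : ℝ) : ℂ) := fun t => by
        simp [UnitAddTorus.mFourier]
      simp_rw [e1]
      have e2 : ∫ t, ((‖PP (NT θ P.1) (((lineT σ P.1 : ℝ) : ℂ) + t * I)‖ ^ 2 : ℝ) : ℂ) ∂(gaussianReal P.2 (V P.1)) =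
          ((∫ t, ‖PP (NT θ P.1) (((lineT σ P.1 : ℝ) : ℂ) + t * I)‖ ^ 2 ∂(gaussianReal P.2 (V P.1)) : ℝ) : ℂ) := integral_ofReal
      rw [e2, h2, ← Complex.ofReal_mul, ← Complex.ofReal_sub, ← Complex.ofReal_div, Complex.ofReal_re]
      have hMT0' : MT1 p 1 ≠ 0 := hMT0.ne'
      rw [S7_alg _ _ _ _ _ hMT0' hP0, div_self hMT0', mul_one]
    have h4 := (hre.congr' h3).add_const (Pint (1/4) σ θ)
    rw [zero_add] at h4
    refine h4.congr fun P => ?_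
    ring
  set B : ℝ := (|Pint (1/4) σ θ| + 1) + |Pint (1/4) σ θ / MT1 p 1| with hB
  have hup := h0.eventually_lt_const (show Pint (1/4) σ θ < |Pint (1/4) σ θ| + 1 by linarith [le_abs_self (Pint (1/4) σ θ)])
  have hmain := equi_meas (r := r) (l := Fl η) (ξ := xt p) (xt_continuous p) (μ := fun P => gaussianReal P.2 (V P.1))
    (g := fun P t => ‖PP (NT θ P.1) (((lineT σ P.1 : ℝ) : ℂ) + t * I)‖ ^ 2) (fun P t => by positivity) hgi
    (V := ET p) hETc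
    (κ := fun P => ((Pint (1/4) σ θ / MT1 p 1 * Lam P.1 : ℝ) : ℂ))
    (Nm := fun P => Lam P.1) (by filter_upwards [hL] with P hP; linarith) (B := B)
    (by
      filter_upwards [hup, hL] with P h1 h2
      have h3 : 0 < Lam P.1 := by linarith
      rw [div_lt_iff₀ h3] at h1
      have h4 : 0 ≤ |Pint (1/4) σ θ / MT1 p 1| := abs_nonneg _
      rw [hB]
      nlinarith)
    (by
      filter_upwards [hL] with P h2
      have h3 : 0 < Lam P.1 := by linarith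
      rw [Complex.norm_real, Real.norm_eq_abs, abs_mul, abs_of_pos h3, hB]
      have h4 : 0 ≤ |Pint (1/4) σ θ| := abs_nonneg _
      nlinarith)
    hchar hw
  have hre := (Complex.continuous_re.tendsto 0).comp hmain
  rw [Complex.zero_re] at hre
  have h5 : ∀ᶠ P : ℝ × ℝ in Fl η, (Complex.re ∘ fun P : ℝ × ℝ =>
      (((∫ t, ‖PP (NT θ P.1) (((lineT σ P.1 : ℝ) : ℂ) + t * I)‖ ^ 2 * w (xt p t) ∂(gaussianReal P.2 (V P.1)) : ℝ) : ℂ) -
      ((Pint (1/4) σ θ / MT1 p 1 * Lam P.1 : ℝ) : ℂ) * ((∫ x, w x * ET p x ∂(muT r) : ℝ) : ℂ)) / ((Lam P.1 : ℝ) : ℂ)) P =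
      (∫ t, ‖PP (NT θ P.1) (((lineT σ P.1 : ℝ) : ℂ) + t * I)‖ ^ 2 * w (xt p t) ∂(gaussianReal P.2 (V P.1))) / Lam P.1 -
        Pint (1/4) σ θ * TM1 p w := by
    filter_upwards [hL] with P hP
    have hP0 : Lam P.1 ≠ 0 := by linarith
    have hMT0' : MT1 p 1 ≠ 0 := hMT0.ne'
    simp only [Function.comp_apply]
    rw [← Complex.ofReal_mul, ← Complex.ofReal_sub, ← Complex.ofReal_div, Complex.ofReal_re]
    unfold TM1
    have e3 : (∫ x, w x * ET p x ∂(muT r)) = MT1 p w := rfl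
    rw [e3]
    exact S7_alg _ _ _ _ _ hMT0' hP0
  have h6 := (hre.congr' h5).add_const (Pint (1/4) σ θ * TM1 p w)
  rw [zero_add] at h6
  refine h6.congr fun P => ?_
  ring

end Pool.Agent.LibOM70
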