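import Pool.Agent.LibOM70.Defs
import Pool.Agent.LibLaw15.Z

/-! ODD MOMENTS, row U6a. -/

set_option autoImplicit false

namespace Pool.Agent.LibOM70

open MeasureTheory Set Filter Topology Complex ProbabilityTheory
open scoped NNReal ComplexConjugate
open Pool.Agent.LibZM Pool.Agent.LibM3
open Pool.Agent.LibLaw15 hiding Lam

private lemma u6a_cs {μ : Measure ℝ} [IsFiniteMeasure μ] {f g : ℝ → ℝ} (hf : Measurable f) (hg : Measurable g)
    (hf0 : ∀ t, 0 ≤ f t) (hg0 : ∀ t, 0 ≤ g t) {A : ℝ} (hfA : ∀ t, f t ≤ A) (hgA : ∀ t, g t ≤ A) :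
    ∫ t, f t * g t ∂μ ≤ √(∫ t, f t ^ 2 ∂μ) * √(∫ t, g t ^ 2 ∂μ) := by
  have hf2 : MemLp f (ENNReal.ofReal 2) μ :=
    MemLp.of_bound hf.aestronglyMeasurable A (Eventually.of_forall fun t => by
      rw [Real.norm_eq_abs, abs_of_nonneg (hf0 t)]; exact hfA t)
  have hg2 : MemLp g (ENNReal.ofReal 2) μ :=
    MemLp.of_bound hg.aestronglyMeasurable A (Eventually.of_forall fun t => by
      rw [Real.norm_eq_abs, abs_of_nonneg (hg0 t)]; exact hgA t)
  have h := integral_mul_le_Lp_mul_Lq_of_nonneg (μ := μ) (p := 2) (q := 2) Real.HolderConjugate.two_two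
    (Eventually.of_forall hf0) (Eventually.of_forall hg0) hf2 hg2
  simp only [Real.rpow_two] at h
  rw [Real.sqrt_eq_rpow, Real.sqrt_eq_rpow]
  exact h

private lemma u6a_main {μ ν : Measure ℝ} [IsFiniteMeasure μ] [IsFiniteMeasure ν] {f g : ℝ → ℝ → ℝ} {ω : ℝ → ℝ}
    (hf : Measurable (Function.uncurry f)) (hg : Measurable (Function.uncurry g)) (hω : Measurable ω)
    (hf0 : ∀ z t, 0 ≤ f z t) (hg0 : ∀ z t, 0 ≤ g z t) (hω0 : ∀ t, 0 ≤ ω t) {A W : ℝ}
    (hfA : ∀ z t, f z t ≤ A) (hgA : ∀ z t, g z t ≤ A) (hωW : ∀ t, ω t ≤ W) :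
    Integrable (fun t => (∫ z, f z t * g z t ∂ν) * ω t) μ ∧
    Integrable (fun z => √(∫ t, f z t ^ 2 * ω t ∂μ) * √(∫ t, g z t ^ 2 * ω t ∂μ)) ν ∧
    ∫ t, (∫ z, f z t * g z t ∂ν) * ω t ∂μ ≤
      ∫ z, √(∫ t, f z t ^ 2 * ω t ∂μ) * √(∫ t, g z t ^ 2 * ω t ∂μ) ∂ν := by
  have hA0 : 0 ≤ A := (hf0 0 0).trans (hfA 0 0)
  have hW0 : 0 ≤ W := (hω0 0).trans (hωW 0)
  have hI : Integrable (fun p : ℝ × ℝ => f p.1 p.2 * g p.1 p.2 * ω p.2) (ν.prod μ) := by
    refine Integrable.mono' (g := fun _ => A * A * W) (integrable_const _)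
      ((hf.mul hg).mul (hω.comp measurable_snd)).aestronglyMeasurable (Eventually.of_forall fun p => ?_)
    rw [Real.norm_eq_abs, abs_of_nonneg (mul_nonneg (mul_nonneg (hf0 _ _) (hg0 _ _)) (hω0 _))]
    exact mul_le_mul (mul_le_mul (hfA _ _) (hgA _ _) (hg0 _ _) hA0) (hωW _) (hω0 _) (mul_nonneg hA0 hA0)
  have e1 : ∀ t, (∫ z, f z t * g z t ∂ν) * ω t = ∫ z, f z t * g z t * ω t ∂ν := fun t =>
    (integral_mul_const (ω t) fun z => f z t * g z t).symm
  have hJ : Integrable (fun t => (∫ z, f z t * g z t ∂ν) * ω t) μ := by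
    simp only [e1]
    exact hI.integral_prod_right
  have hm : ∀ k : ℝ → ℝ → ℝ, Measurable (Function.uncurry k) →
      Measurable fun z => √(∫ t, k z t ^ 2 * ω t ∂μ) := by
    intro k hk
    have h1 : StronglyMeasurable (Function.uncurry fun z t : ℝ => k z t ^ 2 * ω t) :=
      ((hk.pow_const 2).mul (hω.comp measurable_snd)).stronglyMeasurable
    exact h1.integral_prod_right.measurable.sqrt
  have hb : ∀ k : ℝ → ℝ → ℝ, (∀ z t, 0 ≤ k z t) → (∀ z t, k z t ≤ A) → Measurable (Function.uncurry k) → ∀ z,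
      √(∫ t, k z t ^ 2 * ω t ∂μ) ≤ √(A ^ 2 * W * μ.real univ) := by
    intro k hk0 hkA hk z
    apply Real.sqrt_le_sqrt
    have h1 : ∫ t, k z t ^ 2 * ω t ∂μ ≤ ∫ _t, A ^ 2 * W ∂μ := by
      refine integral_mono_of_nonneg (Eventually.of_forall fun t => mul_nonneg (sq_nonneg _) (hω0 t))
        (integrable_const _) (Eventually.of_forall fun t => ?_)
      exact mul_le_mul (pow_le_pow_left₀ (hk0 _ _) (hkA _ _) 2) (hωW _) (hω0 _) (sq_nonneg _)
    rw [integral_const, smul_eq_mul] at h1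
    linarith
  have hR : Integrable (fun z => √(∫ t, f z t ^ 2 * ω t ∂μ) * √(∫ t, g z t ^ 2 * ω t ∂μ)) ν := by
    refine Integrable.mono' (g := fun _ => √(A ^ 2 * W * μ.real univ) * √(A ^ 2 * W * μ.real univ))
      (integrable_const _) ((hm f hf).mul (hm g hg)).aestronglyMeasurable (Eventually.of_forall fun z => ?_)
    rw [Real.norm_eq_abs, abs_of_nonneg (mul_nonneg (Real.sqrt_nonneg _) (Real.sqrt_nonneg _))]
    exact mul_le_mul (hb f hf0 hfA hf z) (hb g hg0 hgA hg z) (Real.sqrt_nonneg _) (Real.sqrt_nonneg _)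
  refine ⟨hJ, hR, ?_⟩
  have e2 : ∫ t, (∫ z, f z t * g z t ∂ν) * ω t ∂μ = ∫ z, ∫ t, f z t * g z t * ω t ∂μ ∂ν := by
    simp only [e1]
    exact (integral_integral_swap (f := fun z t : ℝ => f z t * g z t * ω t) hI).symm
  rw [e2]
  refine integral_mono_of_nonneg (Eventually.of_forall fun z => integral_nonneg fun t =>
    mul_nonneg (mul_nonneg (hf0 _ _) (hg0 _ _)) (hω0 _)) hR (Eventually.of_forall fun z => ?_)
  have hfz : Measurable (f z) := hf.comp (measurable_const.prodMk measurable_id)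
  have hgz : Measurable (g z) := hg.comp (measurable_const.prodMk measurable_id)
  have hsW : ∀ t, √(ω t) ≤ √W := fun t => Real.sqrt_le_sqrt (hωW t)
  have h1 := u6a_cs (μ := μ) (f := fun t => f z t * √(ω t)) (g := fun t => g z t * √(ω t))
    (hfz.mul hω.sqrt) (hgz.mul hω.sqrt)
    (fun t => mul_nonneg (hf0 _ _) (Real.sqrt_nonneg _)) (fun t => mul_nonneg (hg0 _ _) (Real.sqrt_nonneg _))
    (A := A * √W)
    (fun t => mul_le_mul (hfA _ _) (hsW t) (Real.sqrt_nonneg _) hA0)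
    (fun t => mul_le_mul (hgA _ _) (hsW t) (Real.sqrt_nonneg _) hA0)
  have e3 : ∀ t, f z t * √(ω t) * (g z t * √(ω t)) = f z t * g z t * ω t := by
    intro t
    calc f z t * √(ω t) * (g z t * √(ω t)) = f z t * g z t * (√(ω t) * √(ω t)) := by ring
      _ = _ := by rw [Real.mul_self_sqrt (hω0 t)]
  have e4 : ∀ (k : ℝ → ℝ → ℝ) (t : ℝ), (k z t * √(ω t)) ^ 2 = k z t ^ 2 * ω t := by
    intro k t
    rw [mul_pow, Real.sq_sqrt (hω0 t)]
  simp only [e3, e4] at h1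
  exact h1

/-- ROW U6a. Cauchy-Schwarz under the window.
PROOF. `‖HH B t‖ ≤ ∫_0^B ‖Ye z t‖ ‖Ye (B-z) t‖ dz`; multiply by `w (xt p t) ≥ 0`, integrate over the window, exchange the integrals (everything bounded on
`[0,B] × ℝ`, piecewise constant in `z`, continuous in `t`), enlarge the window to `ℝ` (nonnegative integrand), and Cauchy-Schwarz
`∫ ‖f‖ ‖g‖ w ≤ (∫ ‖f‖² w)^{1/2} (∫ ‖g‖² w)^{1/2}` (for instance by `2 ab ≤ λ a² + λ⁻¹ b²`, or `integral_mul_le_Lp_mul_Lq_of_nonneg`; pattern `l6_holder` in LibLaw15/L6). -/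
theorem HH_cs {r : ℕ} (p : Fin r → ℕ) {w : Tor r → ℝ} (hw : Continuous w) (hw0 : ∀ x, 0 ≤ w x) (P : ℝ × ℝ) {B : ℝ} (hB : 0 ≤ B) :
    IntervalIntegrable (fun z => √(mmw p w P z) * √(mmw p w P (B - z))) volume 0 B ∧
    ∫ t in win P.2, ‖HH B t‖ * w (xt p t) ∂(gaussianReal P.2 (vw P.1)) ≤ ∫ z in (0:ℝ)..B, √(mmw p w P z) * √(mmw p w P (B - z)) := by
  obtain ⟨W, hW0, hW⟩ := u1_bdd hw
  obtain ⟨M, hM⟩ : ∃ M : ℕ, M = ⌊Real.exp B⌋₊ := ⟨_, rfl⟩
  obtain ⟨n, hn⟩ : ∃ n : ℝ → ℕ, ∀ z, n z = min ⌊Real.exp z⌋₊ M := ⟨_, fun _ => rfl⟩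
  have hnm : Measurable n := by
    have h1 : n = fun z => min ⌊Real.exp z⌋₊ M := funext hn
    rw [h1]
    exact (Nat.measurable_floor.comp Real.measurable_exp).min measurable_const
  have hnB : ∀ z, z ≤ B → n z = ⌊Real.exp z⌋₊ := by
    intro z hz
    rw [hn, hM]
    exact min_eq_left (Nat.floor_mono (Real.exp_le_exp.2 hz))
  obtain ⟨F, hF⟩ : ∃ F : ℕ → ℝ → ℝ, ∀ k t, F k t = ‖PP k (crit t)‖ := ⟨_, fun _ _ => rfl⟩
  have hFm : Measurable (Function.uncurry F) := by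
    refine measurable_from_prod_countable_right fun k => ?_
    have h1 : (fun t => Function.uncurry F (k, t)) = fun t => ‖PP k (crit t)‖ := funext fun t => hF k t
    rw [h1]
    exact ((continuous_dp_crit (halfTrunc k) k).norm).measurable
  have hF0 : ∀ k t, 0 ≤ F k t := fun k t => by rw [hF]; exact norm_nonneg _
  obtain ⟨A, hA⟩ : ∃ A : ℝ, ∀ k ≤ M, ∀ t, F k t ≤ A := by
    refine ⟨∑ k ∈ Finset.range (M + 1), ∑ n ∈ Finset.Icc 1 k, halfTrunc k n, fun k hk t => ?_⟩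
    rw [hF]
    refine (norm_dp_crit_le (halfTrunc_nonneg k) k t).trans ?_
    exact Finset.single_le_sum (f := fun k => ∑ n ∈ Finset.Icc 1 k, halfTrunc k n)
      (fun j _ => Finset.sum_nonneg fun n _ => halfTrunc_nonneg j n) (Finset.mem_range.2 (Nat.lt_succ_of_le hk))
  have hnM : ∀ z, n z ≤ M := fun z => by rw [hn]; exact min_le_right _ _
  have hfm : Measurable (Function.uncurry fun z t : ℝ => F (n z) t) :=
    hFm.comp ((hnm.comp measurable_fst).prodMk measurable_snd)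
  have hgm : Measurable (Function.uncurry fun z t : ℝ => F (n (B - z)) t) :=
    hFm.comp ((hnm.comp (measurable_const.sub measurable_fst)).prodMk measurable_snd)
  obtain ⟨h1, h2, h3⟩ := u6a_main (μ := gaussianReal P.2 (vw P.1)) (ν := volume.restrict (Ioc 0 B))
    (ω := fun t => w (xt p t)) hfm hgm (hw.comp (xt_continuous p)).measurable
    (fun z t => hF0 _ _) (fun z t => hF0 _ _) (fun t => hw0 _) (A := A) (W := W)
    (fun z t => hA _ (hnM _) _) (fun z t => hA _ (hnM _) _) (fun t => hW _)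
  have e1 : ∀ z ∈ Ioc 0 B, √(∫ t, F (n z) t ^ 2 * w (xt p t) ∂(gaussianReal P.2 (vw P.1))) *
      √(∫ t, F (n (B - z)) t ^ 2 * w (xt p t) ∂(gaussianReal P.2 (vw P.1))) = √(mmw p w P z) * √(mmw p w P (B - z)) := by
    intro z hz
    rw [hnB z hz.2, hnB (B - z) (by linarith [hz.1])]
    simp only [hF]
    rfl
  have e2 : ∀ t, ∀ z ∈ Ioc 0 B, F (n z) t * F (n (B - z)) t = ‖Ye z t * Ye (B - z) t‖ := by
    intro t z hz
    rw [hnB z hz.2, hnB (B - z) (by linarith [hz.1]), hF, hF, norm_mul]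
    rfl
  have e3 : ∀ t, ‖HH B t‖ ≤ ∫ z in Ioc 0 B, F (n z) t * F (n (B - z)) t := by
    intro t
    rw [setIntegral_congr_fun measurableSet_Ioc (e2 t)]
    unfold HH
    rw [intervalIntegral.integral_of_le hB]
    exact norm_integral_le_integral_norm _
  constructor
  · rw [intervalIntegrable_iff_integrableOn_Ioc_of_le hB]
    exact IntegrableOn.congr_fun h2 e1 measurableSet_Ioc
  · rw [intervalIntegral.integral_of_le hB, ← setIntegral_congr_fun measurableSet_Ioc e1]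
    refine le_trans ?_ h3
    have h4 : ∫ t in win P.2, ‖HH B t‖ * w (xt p t) ∂(gaussianReal P.2 (vw P.1)) ≤
        ∫ t in win P.2, (∫ z in Ioc 0 B, F (n z) t * F (n (B - z)) t) * w (xt p t) ∂(gaussianReal P.2 (vw P.1)) :=
      integral_mono_of_nonneg (Eventually.of_forall fun t => mul_nonneg (norm_nonneg _) (hw0 _)) h1.integrableOn
        (Eventually.of_forall fun t => mul_le_mul_of_nonneg_right (e3 t) (hw0 _))
    refine h4.trans (setIntegral_le_integral h1 (Eventually.of_forall fun t => ?_))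
    exact mul_nonneg (integral_nonneg fun z => mul_nonneg (hF0 _ _) (hF0 _ _)) (hw0 _)

end Pool.Agent.LibOM70
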