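import Pool.Agent.LibOM70.S7
import Pool.Agent.LibOM70.U6a

/-! ODD MOMENTS, row U6b. -/

set_option autoImplicit false

namespace Pool.Agent.LibOM70

open MeasureTheory Set Filter Topology Complex ProbabilityTheory
open scoped NNReal ComplexConjugate
open Pool.Agent.LibZM Pool.Agent.LibM3
open Pool.Agent.LibLaw15 hiding Lam

theorem u6b_crit (T t : ℝ) : (((lineT 0 T : ℝ) : ℂ) + t * I) = crit t := by
  unfold lineT crit
  simp

theorem u6b_crit' (t : ℝ) : ((((1/2 : ℝ) : ℝ) : ℂ) + t * I) = crit t := by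
  unfold crit
  simp

/-- The variance of the window is at least `T^{2 - δ}`. -/
theorem u6b_vw_ge {δ : ℝ} (hδ : 0 < δ) : ∀ᶠ T : ℝ in atTop, T ^ (2 - δ) ≤ (vw T : ℝ) := by
  have h := (isLittleO_log_rpow_rpow_atTop (3/2 : ℝ) hδ).bound one_pos
  filter_upwards [h, eventually_gt_atTop 1] with T h1 hT
  have hT0 : 0 < T := by linarith
  have hl := Real.log_pos hT
  rw [Real.norm_eq_abs, Real.norm_eq_abs, abs_of_pos (by positivity), abs_of_pos (by positivity), one_mul] at h1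
  unfold vw
  rw [Real.coe_toNNReal _ (sq_nonneg _)]
  unfold Hw
  have e1 : (Real.log T ^ (3/4 : ℝ)) ^ 2 = Real.log T ^ (3/2 : ℝ) := by
    rw [← Real.rpow_natCast, ← Real.rpow_mul hl.le]
    norm_num
  rw [div_pow, e1, le_div_iff₀ (by positivity)]
  calc T ^ (2 - δ) * Real.log T ^ (3/2:ℝ) ≤ T ^ (2 - δ) * T ^ δ := by gcongr
    _ = T ^ 2 := by
      rw [← Real.rpow_add hT0, show 2 - δ + δ = ((2:ℕ):ℝ) by norm_num, Real.rpow_natCast]

theorem u6b_mmw {r : ℕ} (p : Fin r → ℕ) (w : Tor r → ℝ) (P : ℝ × ℝ) (s : ℝ) (hP : 0 < P.1) :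
    mmw p w P (s * Real.log P.1) =
      ∫ t, ‖PP (NT s P.1) (crit t)‖ ^ 2 * w (xt p t) ∂(gaussianReal P.2 (vw P.1)) := by
  unfold mmw Ye NT
  rw [Real.rpow_def_of_pos hP, mul_comm (Real.log P.1) s]

theorem u6b_Pint (s : ℝ) : Pint (1/4) 0 s = s ^ (1/4:ℝ) / Real.Gamma (5/4) := by
  unfold Pint
  have e : ∀ t : ℝ, t ^ ((1/4:ℝ) - 1) * Real.exp (-(2 * 0 * t)) = t ^ ((1/4:ℝ) - 1) := by
    intro t
    simp
  simp_rw [e]
  rw [integral_rpow (Or.inl (by norm_num))]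
  have hG : Real.Gamma (5/4) = 1/4 * Real.Gamma (1/4) := by
    rw [← Real.Gamma_add_one (by norm_num)]
    norm_num
  have hG0 : 0 < Real.Gamma (1/4) := Real.Gamma_pos_of_pos (by norm_num)
  rw [hG, Real.zero_rpow (by norm_num), sub_zero, show (1/4:ℝ) - 1 + 1 = 1/4 by norm_num]
  field_simp

/-- ROW U6b1. For fixed `s ∈ (0,1)` the mean square tends to its limit: `⌊exp (s log T)⌋ = NT s T`, `lineT 0 T = 1/2`, `sq_law` with `σ = 0`, `V = vw`
(`vw T = T²/(log T)^{3/2} ≥ T^{2s + ε₀}` with `ε₀ = 1 - s`), and `Pint (1/4) 0 s = s^{1/4}/Γ(5/4)` (`∫_0^s t^{-3/4} = 4 s^{1/4}`, `Γ(5/4) = Γ(1/4)/4`). -/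
theorem mmw_lim {η : ℝ} (hη : 0 < η) {s : ℝ} (hs0 : 0 < s) (hs1 : s < 1) {r : ℕ} {p : Fin r → ℕ} (hp : ∀ i, (p i).Prime)
    (hinj : Function.Injective p) {w : Tor r → ℝ} (hw : Continuous w) :
    Tendsto (fun P : ℝ × ℝ => mmw p w P (s * Real.log P.1) / Lam P.1) (Fl η) (𝓝 (s ^ (1/4 : ℝ) / Real.Gamma (5/4) * TM1 p w)) := by
  have hV : ∀ᶠ T : ℝ in atTop, T ^ (2 * s + (1 - s)) ≤ (vw T : ℝ) := by
    filter_upwards [u6b_vw_ge (δ := 1 - s) (by linarith)] with T hT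
    rw [show 2 * s + (1 - s) = 2 - (1 - s) by ring]
    exact hT
  have h := sq_law hη hs0 hs1 0 (V := vw) (ε₀ := 1 - s) (by linarith) hV hp hinj hw
  rw [u6b_Pint] at h
  refine h.congr' ?_
  filter_upwards [Fl_pos hη] with P hP
  rw [u6b_mmw p w P s (by linarith [hP.1])]
  simp_rw [u6b_crit]

theorem u6b_abs_bdd {r : ℕ} {w : Tor r → ℝ} (hw : Continuous w) : ∃ W : ℝ, 0 < W ∧ ∀ x, ‖w x‖ ≤ W := by
  obtain ⟨C, hC⟩ := isCompact_univ.exists_bound_of_continuousOn (f := w) hw.continuousOn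
  refine ⟨|C| + 1, by positivity, fun x => ?_⟩
  have h1 := hC x (mem_univ x)
  have h3 := le_abs_self C
  linarith

/-- ROW U6b2. Uniform bound: `mmw ≤ W ∫ ‖PP N‖² ≤ W (DD N (1/2) + error)` (`meanSq_line`), monotone in `N` (`DD_mono`), `DD_tendsto`. -/
theorem mmw_bdd {η : ℝ} (hη : 0 < η) {b : ℝ} (hb0 : 0 < b) (hb1 : b < 1) {r : ℕ} (p : Fin r → ℕ) {w : Tor r → ℝ} (hw : Continuous w) :
    ∃ C : ℝ, ∀ᶠ P : ℝ × ℝ in Fl η, ∀ s ∈ Icc (0:ℝ) b, mmw p w P (s * Real.log P.1) / Lam P.1 ≤ C := by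
  obtain ⟨W, hW0, hW⟩ := u6b_abs_bdd hw
  have hD1 := (Fl_fst η).eventually
    ((DD_tendsto 0 hb0).eventually_lt_const (u := Pint (1/4) 0 b + 1) (by linarith))
  have hL := (Fl_fst η).eventually (Lam_tendsto.eventually_ge_atTop 1)
  have hE : Tendsto (fun T : ℝ => 3 * (T ^ (6 * b) * Real.exp (-(1/16 * T ^ (1 - b))))) atTop (𝓝 0) := by
    have := (lim_exp (a := 1/16) (ε := 1 - b) (by norm_num) (by linarith) (6 * b)).const_mul 3
    simpa using this
  have hE1 := (Fl_fst η).eventually (hE.eventually_lt_const one_pos)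
  have hv := (Fl_fst η).eventually (u6b_vw_ge (δ := 1 - b) (by linarith))
  have h4 := (Fl_fst η).eventually
    ((tendsto_rpow_atTop (by linarith : 0 < 2 - (1 - b))).eventually_ge_atTop 4)
  refine ⟨W * (Pint (1/4) 0 b + 2), ?_⟩
  filter_upwards [Fl_pos hη, hD1, hL, hE1, hv, h4] with P hP hD hL hE hv h4 s hs
  have hT1 : 1 < P.1 := hP.1
  have hT0 : 0 < P.1 := by linarith
  have hLp : 0 < Lam P.1 := by linarith
  have hv4 : 4 ≤ vw P.1 := by
    rw [← NNReal.coe_le_coe]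
    push_cast
    linarith
  set N : ℕ := NT s P.1 with hN
  set M : ℕ := NT b P.1 with hM
  have hNM : N ≤ M := Nat.floor_le_floor (Real.rpow_le_rpow_of_exponent_le hT1.le hs.2)
  have hN1 : 1 ≤ N := by
    apply Nat.le_floor
    rw [Nat.cast_one]
    exact Real.one_le_rpow hT1.le hs.1
  have hNT : (N:ℝ) ≤ P.1 ^ b := by
    have h1 : (M:ℝ) ≤ P.1 ^ b := Nat.floor_le (by positivity)
    have h2 : (N:ℝ) ≤ M := by exact_mod_cast hNM
    linarith
  have hN0 : (0:ℝ) < N := by exact_mod_cast hN1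
  -- the mean square
  have hms := meanSq_line P.2 hv4 N (x := 1/2) (by norm_num)
  simp_rw [u6b_crit'] at hms
  have hms2 := (abs_le.mp hms).2
  -- the error
  have herr : 3 * (N:ℝ) ^ 2 * Real.exp (-(vw P.1 : ℝ) / (16 * (N:ℝ) ^ 2)) * (N:ℝ) ^ 4 ≤ 1 := by
    have hexp : Real.exp (-(vw P.1 : ℝ) / (16 * (N:ℝ) ^ 2)) ≤ Real.exp (-(1/16 * P.1 ^ (1 - b))) := by
      apply Real.exp_le_exp.mpr
      rw [neg_div, neg_le_neg_iff, le_div_iff₀ (by positivity)]
      have h1 : P.1 ^ (1 - b) * (N:ℝ) ^ 2 ≤ vw P.1 := by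
        calc P.1 ^ (1 - b) * (N:ℝ) ^ 2 ≤ P.1 ^ (1 - b) * (P.1 ^ b) ^ 2 := by gcongr
          _ = P.1 ^ (2 - (1 - b)) := by
            rw [← Real.rpow_natCast, ← Real.rpow_mul hT0.le, ← Real.rpow_add hT0]
            congr 1
            push_cast
            ring
          _ ≤ vw P.1 := hv
      nlinarith
    calc 3 * (N:ℝ) ^ 2 * Real.exp (-(vw P.1 : ℝ) / (16 * (N:ℝ) ^ 2)) * (N:ℝ) ^ 4
        ≤ 3 * (P.1 ^ b) ^ 2 * Real.exp (-(1/16 * P.1 ^ (1 - b))) * (P.1 ^ b) ^ 4 := by gcongr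
      _ = 3 * ((P.1 ^ b) ^ 6 * Real.exp (-(1/16 * P.1 ^ (1 - b)))) := by ring
      _ = 3 * (P.1 ^ (6 * b) * Real.exp (-(1/16 * P.1 ^ (1 - b)))) := by
        congr 2
        rw [← Real.rpow_natCast, ← Real.rpow_mul hT0.le]
        congr 1
        push_cast
        ring
      _ ≤ 1 := hE.le
  -- the diagonal
  have hdiag : DD N (1/2) ≤ (Pint (1/4) 0 b + 1) * Lam P.1 := by
    have h1 : DD N (1/2) ≤ DD M (1/2) := DD_mono hNM (1/2)
    have h2 : DD M (1/2) < (Pint (1/4) 0 b + 1) * Lam P.1 := by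
      rw [← div_lt_iff₀ hLp]
      simpa using hD
    linarith
  have hP0 : 0 ≤ Pint (1/4) 0 b := by
    rw [u6b_Pint]
    have := Real.Gamma_pos_of_pos (show (0:ℝ) < 5/4 by norm_num)
    positivity
  -- the weight
  have hwc : Continuous fun t => w (xt p t) := hw.comp (xt_continuous p)
  have hint : Integrable (fun t : ℝ => ‖PP N (crit t)‖ ^ 2) (gaussianReal P.2 (vw P.1)) := by
    have := integrable_PP_sq N (x := 1/2) (by norm_num) P.2 (vw P.1)
    simp_rw [u6b_crit'] at this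
    exact this
  rw [u6b_mmw p w P s hT0, div_le_iff₀ hLp]
  calc ∫ t, ‖PP N (crit t)‖ ^ 2 * w (xt p t) ∂(gaussianReal P.2 (vw P.1))
      ≤ ∫ t, ‖PP N (crit t)‖ ^ 2 * W ∂(gaussianReal P.2 (vw P.1)) := by
        apply integral_mono
          (hint.mul_bdd (c := W) hwc.aestronglyMeasurable (ae_of_all _ fun t => hW _))
          (hint.mul_const W)
        intro t
        have h1 := hW (xt p t)
        rw [Real.norm_eq_abs] at h1
        exact mul_le_mul_of_nonneg_left ((le_abs_self _).trans h1) (by positivity)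
    _ = W * ∫ t, ‖PP N (crit t)‖ ^ 2 ∂(gaussianReal P.2 (vw P.1)) := by
        rw [integral_mul_const, mul_comm]
    _ ≤ W * ((Pint (1/4) 0 b + 1) * Lam P.1 + 1) := by
        apply mul_le_mul_of_nonneg_left _ hW0.le
        linarith
    _ ≤ W * (Pint (1/4) 0 b + 2) * Lam P.1 := by
        rw [mul_assoc]
        apply mul_le_mul_of_nonneg_left _ hW0.le
        nlinarith

end Pool.Agent.LibOM70
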