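import Pool.Agent.LibOM70.U6b

/-! ODD MOMENTS, row U6c. -/

set_option autoImplicit false

namespace Pool.Agent.LibOM70

open MeasureTheory Set Filter Topology Complex ProbabilityTheory
open scoped NNReal ComplexConjugate
open Pool.Agent.LibZM Pool.Agent.LibM3
open Pool.Agent.LibLaw15 hiding Lam

/-- The filter is countably generated. -/
private theorem u6c_cg (η : ℝ) : (Fl η).IsCountablyGenerated := by
  unfold Fl
  infer_instance

/-- The mean square is a measurable function of the length. -/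
private theorem u6c_meas {r : ℕ} (p : Fin r → ℕ) (w : Tor r → ℝ) (P : ℝ × ℝ) :
    Measurable (mmw p w P) := by
  let g : ℕ → ℝ := fun n => ∫ t, ‖PP n (crit t)‖ ^ 2 * w (xt p t) ∂(gaussianReal P.2 (vw P.1))
  have h1 : mmw p w P = fun z => g ⌊Real.exp z⌋₊ := by
    funext z
    rfl
  rw [h1]
  have h2 : Measurable g := measurable_from_nat
  exact h2.comp (Nat.measurable_floor.comp Real.measurable_exp)

/-- The square root of a fourth root. -/
private theorem u6c_sqrt {x A : ℝ} (hx : 0 ≤ x) (_hA : 0 ≤ A) :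
    √(x ^ (1/4 : ℝ) * A) = x ^ (1/8 : ℝ) * √A := by
  rw [Real.sqrt_mul (Real.rpow_nonneg hx _), Real.sqrt_eq_rpow (x ^ (1/4 : ℝ)), ← Real.rpow_mul hx]
  norm_num

/-- The beta integral over `[0,b]`. -/
private theorem u6c_beta {b : ℝ} (hb0 : 0 < b) :
    ∫ s in (0:ℝ)..b, (s ^ (1/8 : ℝ) * (b - s) ^ (1/8 : ℝ)) = b ^ (5/4 : ℝ) * JB := by
  have h1 := intervalIntegral.integral_comp_mul_left (a := 0) (b := 1)
    (fun s : ℝ => s ^ (1/8 : ℝ) * (b - s) ^ (1/8 : ℝ)) hb0.ne'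
  rw [mul_zero, mul_one, smul_eq_mul] at h1
  have h2 : ∫ x in (0:ℝ)..1, (b * x) ^ (1/8 : ℝ) * (b - b * x) ^ (1/8 : ℝ) =
      b ^ (1/4 : ℝ) * JB := by
    unfold JB
    rw [← intervalIntegral.integral_const_mul]
    refine intervalIntegral.integral_congr fun x hx => ?_
    rw [uIcc_of_le zero_le_one] at hx
    show (b * x) ^ (1/8 : ℝ) * (b - b * x) ^ (1/8 : ℝ) = b ^ (1/4 : ℝ) * (x * (1 - x)) ^ (1/8 : ℝ)
    have hx1 : 0 ≤ 1 - x := by linarith [hx.2]
    rw [show b - b * x = b * (1 - x) by ring, Real.mul_rpow hb0.le hx.1, Real.mul_rpow hb0.le hx1,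
      Real.mul_rpow hx.1 hx1]
    have h3 : b ^ (1/4 : ℝ) = b ^ (1/8 : ℝ) * b ^ (1/8 : ℝ) := by
      rw [← Real.rpow_add hb0]
      norm_num
    rw [h3]
    ring
  rw [h2] at h1
  have h4 : ∫ s in (0:ℝ)..b, (s ^ (1/8 : ℝ) * (b - s) ^ (1/8 : ℝ)) = b * (b ^ (1/4 : ℝ) * JB) := by
    rw [h1, ← mul_assoc, mul_inv_cancel₀ hb0.ne', one_mul]
  rw [h4]
  have h5 : b ^ (5/4 : ℝ) = b * b ^ (1/4 : ℝ) := by
    rw [show (5/4 : ℝ) = 1 + 1/4 by norm_num, Real.rpow_add hb0, Real.rpow_one]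
  rw [h5]
  ring

/-- ROW U6b3. The limit of the convolution bound.
PROOF. Substitute `z = s log T`: the quotient is `∫_0^b √(mmw(s L)/Lam) √(mmw((b-s) L)/Lam) ds`; dominated convergence along `Fl η` (countably generated:
`comap` of `atTop` and `principal`) with `mmw_lim`, `mmw_bdd`; the limit is `TM1 / Γ(5/4) ∫_0^b (s (b-s))^{1/8} ds = TM1 / Γ(5/4) b^{5/4} JB` (`s = b s'`).
Measurability in `s`: `mmw p w P z` depends on `z` only through `⌊exp z⌋₊`. (`TM1 p w ≥ 0` by `TM1_props`.) -/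
theorem conv_lim {η : ℝ} (hη : 0 < η) {b : ℝ} (hb0 : 0 < b) (hb1 : b < 1) {r : ℕ} {p : Fin r → ℕ} (hp : ∀ i, (p i).Prime)
    (hinj : Function.Injective p) {w : Tor r → ℝ} (hw : Continuous w) (hw0 : ∀ x, 0 ≤ w x) :
    Tendsto (fun P : ℝ × ℝ => (∫ z in (0:ℝ)..(b * Real.log P.1), √(mmw p w P z) * √(mmw p w P (b * Real.log P.1 - z))) / (Real.log P.1 * Lam P.1))
      (Fl η) (𝓝 (TM1 p w * (b ^ (5/4 : ℝ) * JB / Real.Gamma (5/4)))) := by
  have hcg := u6c_cg η
  have hG : 0 < Real.Gamma (5/4) := Real.Gamma_pos_of_pos (by norm_num)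
  have hT0 : 0 ≤ TM1 p w := (TM1_props hp).2.1 w hw0
  obtain ⟨A, hA⟩ : ∃ A : ℝ, A = TM1 p w / Real.Gamma (5/4) := ⟨_, rfl⟩
  have hA0 : 0 ≤ A := by
    rw [hA]
    positivity
  obtain ⟨C, hC⟩ := mmw_bdd hη hb0 hb1 p hw
  -- the substitution
  have hsub : ∀ᶠ P : ℝ × ℝ in Fl η, (∫ s in (0:ℝ)..b,
      √(mmw p w P (s * Real.log P.1) / Lam P.1) * √(mmw p w P ((b - s) * Real.log P.1) / Lam P.1)) =
      (∫ z in (0:ℝ)..(b * Real.log P.1), √(mmw p w P z) * √(mmw p w P (b * Real.log P.1 - z))) /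
        (Real.log P.1 * Lam P.1) := by
    filter_upwards [(Fl_fst η).eventually (eventually_gt_atTop 1)] with P hP
    have hL : 0 < Real.log P.1 := Real.log_pos hP
    have hLam : 0 < Lam P.1 := Lam_pos hP
    have h1 := intervalIntegral.integral_comp_mul_right (a := 0) (b := b)
      (fun z : ℝ => √(mmw p w P z) * √(mmw p w P (b * Real.log P.1 - z))) hL.ne'
    rw [zero_mul, smul_eq_mul] at h1
    have h2 : (∫ z in (0:ℝ)..(b * Real.log P.1), √(mmw p w P z) *
        √(mmw p w P (b * Real.log P.1 - z))) = Real.log P.1 * ∫ s in (0:ℝ)..b,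
          √(mmw p w P (s * Real.log P.1)) * √(mmw p w P (b * Real.log P.1 - s * Real.log P.1)) := by
      rw [h1, ← mul_assoc, mul_inv_cancel₀ hL.ne', one_mul]
    rw [h2, mul_div_mul_left _ _ hL.ne', ← intervalIntegral.integral_div]
    refine intervalIntegral.integral_congr fun s _ => ?_
    show √(mmw p w P (s * Real.log P.1) / Lam P.1) * √(mmw p w P ((b - s) * Real.log P.1) / Lam P.1) =
      √(mmw p w P (s * Real.log P.1)) * √(mmw p w P (b * Real.log P.1 - s * Real.log P.1)) / Lam P.1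
    rw [Real.sqrt_div' _ hLam.le, Real.sqrt_div' _ hLam.le, div_mul_div_comm,
      Real.mul_self_sqrt hLam.le, sub_mul]
  refine Tendsto.congr' hsub ?_
  -- the value of the limit
  have hval : TM1 p w * (b ^ (5/4 : ℝ) * JB / Real.Gamma (5/4)) =
      ∫ s in (0:ℝ)..b, A * (s ^ (1/8 : ℝ) * (b - s) ^ (1/8 : ℝ)) := by
    rw [intervalIntegral.integral_const_mul, u6c_beta hb0, hA]
    ring
  rw [hval]
  refine intervalIntegral.tendsto_integral_filter_of_dominated_convergence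
    (fun _ => √C * √C) ?_ ?_ intervalIntegrable_const ?_
  · refine Eventually.of_forall fun P => ?_
    have hm := u6c_meas p w P
    have h1 : Measurable fun s : ℝ => mmw p w P (s * Real.log P.1) :=
      hm.comp (measurable_id.mul_const _)
    have h2 : Measurable fun s : ℝ => mmw p w P ((b - s) * Real.log P.1) :=
      hm.comp ((measurable_const.sub measurable_id).mul_const _)
    exact (((h1.div_const _).sqrt).mul ((h2.div_const _).sqrt)).aestronglyMeasurable
  · filter_upwards [hC] with P hP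
    refine Eventually.of_forall fun s hs => ?_
    rw [uIoc_of_le hb0.le] at hs
    rw [Real.norm_of_nonneg (by positivity)]
    have h1 : mmw p w P (s * Real.log P.1) / Lam P.1 ≤ C := hP s ⟨hs.1.le, hs.2⟩
    have h2 : mmw p w P ((b - s) * Real.log P.1) / Lam P.1 ≤ C :=
      hP (b - s) ⟨by linarith [hs.2], by linarith [hs.1]⟩
    exact mul_le_mul (Real.sqrt_le_sqrt h1) (Real.sqrt_le_sqrt h2) (Real.sqrt_nonneg _)
      (Real.sqrt_nonneg _)
  · have hne : ∀ᵐ s : ℝ, s ≠ b := by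
      rw [ae_iff]
      simp
    filter_upwards [hne] with s hsb hs
    rw [uIoc_of_le hb0.le] at hs
    have hsb' : s < b := lt_of_le_of_ne hs.2 hsb
    have h1 := mmw_lim hη hs.1 (hsb'.trans hb1) hp hinj hw
    have h2 := mmw_lim hη (s := b - s) (by linarith) (by linarith [hs.1]) hp hinj hw
    have h3 := h1.sqrt.mul h2.sqrt
    have e1 : s ^ (1/4 : ℝ) / Real.Gamma (5/4) * TM1 p w = s ^ (1/4 : ℝ) * A := by
      rw [hA]
      ring
    have e2 : (b - s) ^ (1/4 : ℝ) / Real.Gamma (5/4) * TM1 p w = (b - s) ^ (1/4 : ℝ) * A := by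
      rw [hA]
      ring
    rw [e1, e2, u6c_sqrt hs.1.le hA0, u6c_sqrt (by linarith) hA0] at h3
    have e3 : s ^ (1/8 : ℝ) * √A * ((b - s) ^ (1/8 : ℝ) * √A) =
        A * (s ^ (1/8 : ℝ) * (b - s) ^ (1/8 : ℝ)) := by
      have h4 := Real.mul_self_sqrt hA0
      linear_combination (s ^ (1/8 : ℝ) * (b - s) ^ (1/8 : ℝ)) * h4
    rw [e3] at h3
    exact h3

end Pool.Agent.LibOM70
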