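import Pool.Agent.LibOM70.Defs
import Pool.Agent.LibLaw15.Z
import Pool.Agent.LibZM.HB13

/-! ODD MOMENTS, row U8. -/

set_option autoImplicit false

namespace Pool.Agent.LibOM70

open MeasureTheory Set Filter Topology Complex ProbabilityTheory
open scoped NNReal ComplexConjugate
open Pool.Agent.LibZM Pool.Agent.LibM3
open Pool.Agent.LibLaw15 hiding Lam

private lemma u8_Lam_nonneg {T : ℝ} (hT : 1 ≤ T) : 0 ≤ Lam T := by
  rcases hT.eq_or_lt with h | h
  · have h0 := Aconst_pos (κ := 1/2) (by norm_num)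
    rw [← h]
    unfold Lam
    rw [Real.log_one]
    positivity
  · exact (Lam_pos h).le

/-- One block of the transfer. -/
private theorem u8_block {f : ℝ → ℝ} (hfc : Continuous f) (hf0 : ∀ t, 0 ≤ f t) {c₀ c₁ : ℝ} (hc0 : 0 < c₀) (hc : c₀ < c₁)
    (h : ∀ η : ℝ, 0 < η → ∀ᶠ p : ℝ × ℝ in Fl η, ∫ t in win p.2, f t ∂(gaussianReal p.2 (vw p.1)) ≤ c₀ * Lam p.1) : 
    ∀ᶠ T : ℝ in atTop, ∫ t in Icc (3/4 * T) T, f t ≤ (1 - 3/4) * (c₁ * (T * Lam T)) := by
  obtain ⟨δ, hδ0, hδ1, hδ⟩ : ∃ δ : ℝ, 0 < δ ∧ δ < 1/16 ∧ (1/4 + 2 * δ) * (1 + δ) * c₀ < (1 - δ) * (1/4 * c₁) := by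
    have hcont : ContinuousAt (fun δ : ℝ => (1 - δ) * (1/4 * c₁) - (1/4 + 2 * δ) * (1 + δ) * c₀) 0 := by fun_prop
    have h1 : ∀ᶠ δ : ℝ in 𝓝 0, 0 < (1 - δ) * (1/4 * c₁) - (1/4 + 2 * δ) * (1 + δ) * c₀ := 
      hcont.eventually_const_lt (by norm_num; exact hc)
    have h2 : ∀ᶠ δ : ℝ in 𝓝[>] 0, 0 < (1 - δ) * (1/4 * c₁) - (1/4 + 2 * δ) * (1 + δ) * c₀ := h1.filter_mono nhdsWithin_le_nhds
    have h3 : ∀ᶠ δ : ℝ in 𝓝[>] 0, δ < 1/16 := by
      apply Filter.Eventually.filter_mono nhdsWithin_le_nhds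
      exact gt_mem_nhds (by norm_num)
    obtain ⟨δ, a, b, c⟩ := (h2.and (h3.and self_mem_nhdsWithin)).exists
    exact ⟨δ, c, b, by linarith⟩
  have hscale : Tendsto (fun T : ℝ => (1 + δ) * T) atTop atTop := tendsto_id.const_mul_atTop (by linarith)
  have k1 := hscale.eventually (Fl_iff.mp (h (1/4) (by norm_num)))
  have k2 := hscale.eventually (f6_mass (ρ := δ / (1 + δ)) (by positivity) hδ0)
  filter_upwards [k1, k2, Lam_dilate hδ0 (by linarith), eventually_gt_atTop 1] with T h1 h2 h8 hT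
  obtain ⟨S, hS⟩ : ∃ S : ℝ, S = (1 + δ) * T := ⟨_, rfl⟩
  rw [← hS] at h1 h2 h8
  have hT0 : 0 < T := by linarith
  have hST : S = T + δ * T := by rw [hS]; ring
  have hδT : 0 < δ * T := by positivity
  have hδT16 : δ * T ≤ 1/16 * T := by gcongr
  have hS1 : 1 < S := by linarith
  have hS0 : 0 < S := by linarith
  have hLS := Lam_pos hS1
  have hLT := Lam_pos hT
  have hRS : δ / (1 + δ) * S = δ * T := by rw [hS]; field_simp
  rw [hRS] at h2
  have hv0 : 0 < vw S := by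
    unfold vw
    exact Real.toNNReal_pos.2 (pow_pos (f6_Hw_pos hS1) 2)
  have hmain : (1 - δ) * ∫ t in Icc (3/4 * T) T, f t ≤ (c₀ * Lam S) * (S - (3/4 * T - δ * T)) := by
    apply f6_moment_le (v := vw S) hv0.ne' hfc hf0 (by linarith)
    · intro u hu
      have a1 := h1 u (by linarith [hu.1]) (by linarith [hu.2])
      refine le_trans ?_ a1
      apply setIntegral_mono_set
      · exact hfc.continuousOn.integrableOn_compact isCompact_Icc
      · exact Eventually.of_forall fun t => hf0 t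
      · apply LE.le.eventuallyLE
        apply Icc_subset_Icc
        · show u / 2 ≤ 3/4 * T
          linarith [hu.2]
        · show T ≤ 2 * u
          linarith [hu.1]
    · intro t ht
      have hin : Icc (t - δ * T) (t + δ * T) ⊆ Icc (3/4 * T - δ * T) S := by
        apply Icc_subset_Icc
        · linarith [ht.1]
        · linarith [ht.2]
      have s1 : ∫ u in Icc (t - δ * T) (t + δ * T), gaussianPDFReal t (vw S) u ≤ ∫ u in Icc (3/4 * T - δ * T) S, gaussianPDFReal t (vw S) u := by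
        apply setIntegral_mono_set (integrable_gaussianPDFReal t (vw S)).integrableOn _ (LE.le.eventuallyLE hin)
        exact Eventually.of_forall fun u => gaussianPDFReal_nonneg t (vw S) u
      have s3 := mass_in t hv0 hδT
      linarith
  obtain ⟨J, hJ⟩ : ∃ J : ℝ, J = ∫ t in Icc (3/4 * T) T, f t := ⟨_, rfl⟩
  rw [← hJ] at hmain ⊢
  have hTL : 0 < T * Lam T := by positivity
  have hJ3 : (1 - δ) * J ≤ (1 - δ) * ((1 - 3/4) * (c₁ * (T * Lam T))) := by
    calc (1 - δ) * J ≤ (c₀ * Lam S) * (S - (3/4 * T - δ * T)) := hmain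
      _ = (c₀ * Lam S) * ((1/4 + 2 * δ) * T) := by rw [hST]; ring
      _ ≤ (c₀ * ((1 + δ) * Lam T)) * ((1/4 + 2 * δ) * T) := by gcongr
      _ = ((1/4 + 2 * δ) * (1 + δ) * c₀) * (T * Lam T) := by ring
      _ ≤ ((1 - δ) * (1/4 * c₁)) * (T * Lam T) := by gcongr
      _ = _ := by ring
  exact le_of_mul_le_mul_left hJ3 (by linarith)

/-- ROW U8. From the windows to `[0,T]` (copy `z_block` and `transfer_upper` of LibLaw15/Z.lean with `La3` replaced by `Lam`; the facts on `Lam`: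
`Lam_pos`, `Lam_mono`, `Lam_dilate`, `Lam_tendsto`). -/
theorem transfer_upper1 {f : ℝ → ℝ} (hfc : Continuous f) (hf0 : ∀ t, 0 ≤ f t) {c₀ c₂ : ℝ} (hc0 : 0 < c₀) (hc : c₀ < c₂)
    (h : ∀ η : ℝ, 0 < η → ∀ᶠ p : ℝ × ℝ in Fl η, ∫ t in win p.2, f t ∂(gaussianReal p.2 (vw p.1)) ≤ c₀ * Lam p.1) : 
    ∀ᶠ T : ℝ in atTop, ∫ t in Icc 0 T, f t ≤ c₂ * (T * Lam T) := by
  obtain ⟨c₁, hc1, hc2⟩ := exists_between hc
  have hl := u8_block hfc hf0 hc0 hc1 h
  obtain ⟨T0, hT0⟩ := eventually_atTop.mp (hl.and (eventually_ge_atTop 1))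
  have hT01 : 1 ≤ T0 := (hT0 T0 le_rfl).2
  have hfi : ∀ a b : ℝ, IntegrableOn f (Icc a b) := fun a b => hfc.continuousOn.integrableOn_compact isCompact_Icc
  have hc1p : 0 < c₁ := hc0.trans hc1
  obtain ⟨C0, hC0⟩ : ∃ C0 : ℝ, C0 = ∫ t in Icc 0 T0, f t := ⟨_, rfl⟩
  have hsplit : ∀ a T : ℝ, 0 ≤ a → a ≤ T → ∫ t in Icc 0 T, f t ≤ (∫ t in Icc 0 a, f t) + ∫ t in Icc a T, f t := by
    intro a T ha haT
    rw [← Icc_union_Icc_eq_Icc ha haT]
    have hu := MeasureTheory.setIntegral_union₀ (μ := volume) (f := f) (s := Icc 0 a) (t := Icc a T) ?_ measurableSet_Icc.nullMeasurableSet (hfi 0 a) (hfi a T)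
    · rw [hu]
    · rw [AEDisjoint, Icc_inter_Icc_eq_singleton ha haT]; simp
  have key : ∀ n : ℕ, ∀ T : ℝ, T0 ≤ T → (3/4:ℝ) ^ n * T ≤ T0 → ∫ t in Icc 0 T, f t ≤ C0 + c₁ * (T * Lam T) := by
    intro n
    induction n with
    | zero =>
      intro T h1 h2
      rw [pow_zero, one_mul] at h2
      have : T = T0 := le_antisymm h2 h1
      rw [this, hC0]
      have h3 := u8_Lam_nonneg hT01
      have : 0 ≤ c₁ * (T0 * Lam T0) := by positivity
      linarith
    | succ n ih =>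
      intro T h1 h2
      have hTpos : 0 < T := by linarith
      have hTge : 1 ≤ T := by linarith
      have hblock := (hT0 T h1).1
      have hb : ∫ t in Icc (3/4 * T) T, f t ≤ (1 - 3/4) * (c₁ * (T * Lam T)) := hblock
      have hLT := u8_Lam_nonneg hTge
      have hlT : 3/4 * T ≤ T := by linarith
      have hs := hsplit (3/4 * T) T (by positivity) hlT
      rcases le_or_gt T0 (3/4 * T) with h3 | h3
      · have h4 := ih (3/4 * T) h3 (by rw [pow_succ] at h2; linarith)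
        have h5 : Lam (3/4 * T) ≤ Lam T := Lam_mono (by linarith) hlT
        have h6 : c₁ * (3/4 * T * Lam (3/4 * T)) ≤ c₁ * (3/4 * T * Lam T) := by gcongr
        calc ∫ t in Icc 0 T, f t ≤ _ := hs
          _ ≤ (C0 + c₁ * (3/4 * T * Lam T)) + (1 - 3/4) * (c₁ * (T * Lam T)) := by linarith
          _ = _ := by ring
      · have h4 : ∫ t in Icc 0 (3/4 * T), f t ≤ C0 := by
          rw [hC0]
          apply setIntegral_mono_set (hfi 0 T0) (Eventually.of_forall fun t => hf0 t)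
          apply LE.le.eventuallyLE
          exact Icc_subset_Icc le_rfl h3.le
        have h5 : (1 - 3/4) * (c₁ * (T * Lam T)) ≤ c₁ * (T * Lam T) := by
          have : 0 ≤ c₁ * (T * Lam T) := by positivity
          nlinarith
        linarith
  have hfin : ∀ᶠ T : ℝ in atTop, C0 ≤ (c₂ - c₁) * (T * Lam T) := by
    have h1 : Tendsto (fun T : ℝ => (c₂ - c₁) * (T * Lam T)) atTop atTop := 
      (tendsto_id.atTop_mul_atTop₀ Lam_tendsto).const_mul_atTop (by linarith)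
    exact h1.eventually_ge_atTop C0
  filter_upwards [hfin, eventually_ge_atTop T0] with T h1 h2
  have hn : ∃ n : ℕ, (3/4:ℝ) ^ n * T ≤ T0 := by
    have h3 : Tendsto (fun n : ℕ => (3/4:ℝ) ^ n * T) atTop (𝓝 (0 * T)) := 
      (tendsto_pow_atTop_nhds_zero_of_lt_one (by norm_num) (by norm_num)).mul_const T
    rw [zero_mul] at h3
    obtain ⟨n, hn⟩ := (h3.eventually_lt_const (show (0:ℝ) < T0 by linarith)).exists
    exact ⟨n, hn.le⟩
  obtain ⟨n, hn⟩ := hn
  have h3 := key n T h2 hn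
  have h4 : c₁ * (T * Lam T) + (c₂ - c₁) * (T * Lam T) = c₂ * (T * Lam T) := by ring
  linarith

end Pool.Agent.LibOM70
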